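import Mathlib
import Pool.Agent.H48.ER.MV

/-!
Mean values of Dirichlet polynomials over intervals, and high moments of sums over primes.
-/

open Finset Complex MeasureTheory

namespace Pool.Agent.H86.EDGE

open Pool.ER (ee norm_ee continuous_ee ee_conj)

lemma int_ee_le (a T : ℝ) (hT : 0 ≤ T) (u : ℝ) : ‖∫ t in a..(a + T), ee u t‖ ≤ T := by
  have h := intervalIntegral.norm_integral_le_of_norm_le_const (a := a) (b := a + T) (f := ee u) (C := 1)
    (fun t _ => (norm_ee u t).le)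
  have h2 : |a + T - a| = T := by
    rw [add_sub_cancel_left, abs_of_nonneg hT]
  rw [h2] at h
  linarith

lemma int_ee_le' (a T : ℝ) (u : ℝ) (hu : u ≠ 0) : ‖∫ t in a..(a + T), ee u t‖ ≤ 2 / |u| := by
  have hc : ((-u : ℝ) : ℂ) * I ≠ 0 := by
    simp [hu]
  have h1 : (∫ t in a..(a + T), ee u t) = ∫ t in a..(a + T), Complex.exp ((((-u : ℝ) : ℂ) * I) * t) := by
    apply intervalIntegral.integral_congr
    intro t _
    simp only [ee]
    congr 1
    push_cast
    ring
  rw [h1, integral_exp_mul_complex hc, norm_div]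
  have h2 : ‖((-u : ℝ) : ℂ) * I‖ = |u| := by
    rw [norm_mul, Complex.norm_I, mul_one, Complex.norm_real, Real.norm_eq_abs, abs_neg]
  rw [h2]
  apply div_le_div_of_nonneg_right _ (abs_nonneg u)
  have h3 : ∀ t : ℝ, ‖Complex.exp ((((-u : ℝ) : ℂ) * I) * t)‖ = 1 := by
    intro t
    have : ((((-u : ℝ) : ℂ) * I) * t) = ((-u * t : ℝ) : ℂ) * I := by
      push_cast
      ring
    rw [this]
    exact Complex.norm_exp_ofReal_mul_I _
  calc _ ≤ ‖Complex.exp ((((-u : ℝ) : ℂ) * I) * ((a + T : ℝ) : ℂ))‖ +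
        ‖Complex.exp ((((-u : ℝ) : ℂ) * I) * (a : ℂ))‖ := norm_sub_le _ _
    _ = 2 := by rw [h3, h3]; norm_num

/-- the square of a finite sum of oscillating terms -/
theorem int_sq {ι : Type*} (S : Finset ι) (c : ι → ℂ) (u : ι → ℝ) (a T : ℝ) :
    ∫ t in a..(a + T), ‖∑ i ∈ S, c i * ee (u i) t‖ ^ 2 ≤
      ∑ i ∈ S, ∑ j ∈ S, ‖c i‖ * ‖c j‖ * ‖∫ t in a..(a + T), ee (u i - u j) t‖ := by
  have e1 : ∀ t : ℝ, ((‖∑ i ∈ S, c i * ee (u i) t‖ ^ 2 : ℝ) : ℂ) =
      ∑ i ∈ S, ∑ j ∈ S, (c i * (starRingEnd ℂ) (c j)) * ee (u i - u j) t := by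
    intro t
    have h := Complex.mul_conj (∑ i ∈ S, c i * ee (u i) t)
    rw [← Complex.normSq_eq_norm_sq, ← h, map_sum, Finset.sum_mul_sum]
    apply Finset.sum_congr rfl
    intro i _
    apply Finset.sum_congr rfl
    intro j _
    rw [map_mul, ← ee_conj]
    ring
  have e2 : ((∫ t in a..(a + T), ‖∑ i ∈ S, c i * ee (u i) t‖ ^ 2 : ℝ) : ℂ) =
      ∑ i ∈ S, ∑ j ∈ S, (c i * (starRingEnd ℂ) (c j)) * ∫ t in a..(a + T), ee (u i - u j) t := by
    rw [← intervalIntegral.integral_ofReal]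
    simp_rw [e1]
    rw [intervalIntegral.integral_finsetSum]
    · apply Finset.sum_congr rfl
      intro i _
      rw [intervalIntegral.integral_finsetSum]
      · apply Finset.sum_congr rfl
        intro j _
        rw [intervalIntegral.integral_const_mul]
      · intro j _
        exact ((continuous_ee _).const_mul _ |>.intervalIntegrable _ _)
    · intro i _
      apply Continuous.intervalIntegrable
      exact continuous_finsetSum _ fun j _ => (continuous_ee _).const_mul _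
  calc _ ≤ ‖((∫ t in a..(a + T), ‖∑ i ∈ S, c i * ee (u i) t‖ ^ 2 : ℝ) : ℂ)‖ := by
        rw [Complex.norm_real]
        exact le_abs_self _
    _ ≤ _ := by
        rw [e2]
        refine norm_sum_le_of_le _ fun i _ => norm_sum_le_of_le _ fun j _ => ?_
        rw [norm_mul, norm_mul, RCLike.norm_conj]

lemma log_gap {N m n : ℕ} (hm : 1 ≤ m) (hn : 1 ≤ n) (hmN : m ≤ N) (hnN : n ≤ N) :
    |(m:ℝ) - n| / N ≤ |Real.log m - Real.log n| := by
  wlog h : n ≤ m generalizing m n with H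
  · rw [abs_sub_comm, abs_sub_comm (Real.log m)]
    exact H hn hm hnN hmN (by omega)
  have hm' : (1:ℝ) ≤ m := by exact_mod_cast hm
  have hn' : (1:ℝ) ≤ n := by exact_mod_cast hn
  have hmN' : (m:ℝ) ≤ N := by exact_mod_cast hmN
  have h' : (n:ℝ) ≤ m := by exact_mod_cast h
  rw [abs_of_nonneg (by linarith), abs_of_nonneg (by
    have := Real.log_le_log (by linarith) h'
    linarith)]
  have h1 : Real.log n - Real.log m ≤ n / m - 1 := by
    rw [← Real.log_div (by positivity) (by positivity)]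
    exact Real.log_le_sub_one_of_pos (by positivity)
  have h2 : ((m:ℝ) - n) / N ≤ (m - n) / m := div_le_div_of_nonneg_left (by linarith) (by linarith) hmN'
  have h3 : ((m:ℝ) - n) / m = 1 - n / m := by
    field_simp
  linarith

lemma harm_gap {N m : ℕ} (hm : 1 ≤ m) (hmN : m ≤ N) :
    ∑ n ∈ (Icc 1 N).filter (fun n => n ≠ m), |(m:ℝ) - n|⁻¹ ≤ 2 * (1 + Real.log N) := by
  have hH : ∑ d ∈ Icc 1 N, ((d:ℝ))⁻¹ ≤ 1 + Real.log N := by
    have h := harmonic_le_one_add_log N
    rw [harmonic_eq_sum_Icc] at h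
    push_cast at h
    exact h
  have hsplit : (Icc 1 N).filter (fun n => n ≠ m) = (Icc 1 N).filter (fun n => n < m) ∪
      (Icc 1 N).filter (fun n => m < n) := by
    ext n
    simp only [mem_filter, mem_union, mem_Icc]
    omega
  have hdisj : Disjoint ((Icc 1 N).filter (fun n => n < m)) ((Icc 1 N).filter (fun n => m < n)) := by
    rw [Finset.disjoint_left]
    intro n h1 h2
    simp only [mem_filter] at h1 h2
    omega
  rw [hsplit, sum_union hdisj]
  have h1 : ∑ n ∈ (Icc 1 N).filter (fun n => n < m), |(m:ℝ) - n|⁻¹ ≤ ∑ d ∈ Icc 1 N, ((d:ℝ))⁻¹ := by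
    have e : ∀ n ∈ (Icc 1 N).filter (fun n => n < m), |(m:ℝ) - n|⁻¹ = (((m - n : ℕ) : ℝ))⁻¹ := by
      intro n hn
      rw [mem_filter] at hn
      have : (n:ℝ) < m := by exact_mod_cast hn.2
      rw [abs_of_pos (by linarith), Nat.cast_sub hn.2.le]
    rw [sum_congr rfl e]
    have hinj : Set.InjOn (fun n => m - n) (((Icc 1 N).filter (fun n => n < m) : Finset ℕ) : Set ℕ) := by
      intro x hx y hy hxy
      simp only [Finset.coe_filter, mem_Icc, Set.mem_ofPred_eq] at hx hy hxy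
      omega
    rw [← Finset.sum_image (f := fun d : ℕ => ((d:ℝ))⁻¹) hinj]
    apply sum_le_sum_of_subset_of_nonneg
    · intro d hd
      rw [mem_image] at hd
      obtain ⟨n, hn, rfl⟩ := hd
      simp only [mem_filter, mem_Icc] at hn ⊢
      omega
    · intro d _ _
      positivity
  have h2 : ∑ n ∈ (Icc 1 N).filter (fun n => m < n), |(m:ℝ) - n|⁻¹ ≤ ∑ d ∈ Icc 1 N, ((d:ℝ))⁻¹ := by
    have e : ∀ n ∈ (Icc 1 N).filter (fun n => m < n), |(m:ℝ) - n|⁻¹ = (((n - m : ℕ) : ℝ))⁻¹ := by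
      intro n hn
      rw [mem_filter] at hn
      have : (m:ℝ) < n := by exact_mod_cast hn.2
      rw [abs_sub_comm, abs_of_pos (by linarith), Nat.cast_sub hn.2.le]
    rw [sum_congr rfl e]
    have hinj : Set.InjOn (fun n => n - m) (((Icc 1 N).filter (fun n => m < n) : Finset ℕ) : Set ℕ) := by
      intro x hx y hy hxy
      simp only [Finset.coe_filter, mem_Icc, Set.mem_ofPred_eq] at hx hy hxy
      omega
    rw [← Finset.sum_image (f := fun d : ℕ => ((d:ℝ))⁻¹) hinj]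
    apply sum_le_sum_of_subset_of_nonneg
    · intro d hd
      rw [mem_image] at hd
      obtain ⟨n, hn, rfl⟩ := hd
      simp only [mem_filter, mem_Icc] at hn ⊢
      omega
    · intro d _ _
      positivity
  linarith

/-- mean value of a Dirichlet polynomial -/
theorem mvt (S : Finset ℕ) {N : ℕ} (hS : ∀ n ∈ S, 1 ≤ n ∧ n ≤ N) (c : ℕ → ℂ) (a : ℝ) {T : ℝ} (hT : 0 ≤ T) :
    ∫ t in a..(a + T), ‖∑ n ∈ S, c n * ee (Real.log n) t‖ ^ 2 ≤
      (T + 4 * N * (1 + Real.log N)) * ∑ n ∈ S, ‖c n‖ ^ 2 := by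
  refine (int_sq S c (fun n => Real.log n) a T).trans ?_
  have h1 : ∀ m ∈ S, ∀ n ∈ S, ‖c m‖ * ‖c n‖ * ‖∫ t in a..(a + T), ee (Real.log m - Real.log n) t‖ ≤
      (if n = m then ‖c m‖ ^ 2 * T else 0) + (if n = m then 0 else ‖c m‖ ^ 2 * (N * |(m:ℝ) - n|⁻¹)) +
        (if n = m then 0 else ‖c n‖ ^ 2 * (N * |(n:ℝ) - m|⁻¹)) := by
    intro m hm n hn
    by_cases h : n = m
    · rw [if_pos h, if_pos h, if_pos h, h, add_zero, add_zero]
      calc _ ≤ ‖c m‖ * ‖c m‖ * T := by
            apply mul_le_mul_of_nonneg_left (int_ee_le a T hT _) (by positivity)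
        _ = _ := by ring
    · rw [if_neg h, if_neg h, if_neg h, zero_add]
      have hgap := log_gap (hS m hm).1 (hS n hn).1 (hS m hm).2 (hS n hn).2
      have hmn : (0:ℝ) < |(m:ℝ) - n| := by
        rw [abs_pos, sub_ne_zero]
        exact_mod_cast (fun h' : m = n => h h'.symm)
      have hN : (0:ℝ) < N := by
        have := hS m hm
        exact_mod_cast (by omega : 0 < N)
      have hpos : 0 < |Real.log m - Real.log n| := lt_of_lt_of_le (by positivity) hgap
      have h2 : ‖∫ t in a..(a + T), ee (Real.log m - Real.log n) t‖ ≤ 2 * (N * |(m:ℝ) - n|⁻¹) := by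
        refine (int_ee_le' a T _ (abs_pos.mp hpos)).trans ?_
        calc 2 / |Real.log m - Real.log n| ≤ 2 / (|(m:ℝ) - n| / N) :=
              div_le_div_of_nonneg_left (by norm_num) (by positivity) hgap
          _ = _ := by field_simp
      have h3 : 2 * (‖c m‖ * ‖c n‖) ≤ ‖c m‖ ^ 2 + ‖c n‖ ^ 2 := by nlinarith [sq_nonneg (‖c m‖ - ‖c n‖)]
      have h4 : |(n:ℝ) - m| = |(m:ℝ) - n| := abs_sub_comm _ _
      rw [h4]
      calc _ ≤ ‖c m‖ * ‖c n‖ * (2 * (N * |(m:ℝ) - n|⁻¹)) := by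
            apply mul_le_mul_of_nonneg_left h2 (by positivity)
        _ = (2 * (‖c m‖ * ‖c n‖)) * (N * |(m:ℝ) - n|⁻¹) := by ring
        _ ≤ (‖c m‖ ^ 2 + ‖c n‖ ^ 2) * (N * |(m:ℝ) - n|⁻¹) := by
            apply mul_le_mul_of_nonneg_right h3 (by positivity)
        _ = _ := by ring
  have hkey : ∀ m ∈ S, ∑ n ∈ S, (if n = m then 0 else ‖c m‖ ^ 2 * (N * |(m:ℝ) - n|⁻¹)) ≤
      ‖c m‖ ^ 2 * (2 * N * (1 + Real.log N)) := by
    intro m hm
    have e : ∑ n ∈ S, (if n = m then 0 else ‖c m‖ ^ 2 * (N * |(m:ℝ) - n|⁻¹)) =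
        ‖c m‖ ^ 2 * (N * ∑ n ∈ S.filter (fun n => n ≠ m), |(m:ℝ) - n|⁻¹) := by
      rw [Finset.mul_sum, Finset.mul_sum, Finset.sum_filter]
      apply sum_congr rfl
      intro n _
      by_cases h : n = m
      · simp [h]
      · simp [h]
    rw [e]
    have h2 : ∑ n ∈ S.filter (fun n => n ≠ m), |(m:ℝ) - n|⁻¹ ≤
        ∑ n ∈ (Icc 1 N).filter (fun n => n ≠ m), |(m:ℝ) - n|⁻¹ := by
      apply sum_le_sum_of_subset_of_nonneg
      · intro n hn
        rw [mem_filter] at hn ⊢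
        exact ⟨mem_Icc.mpr (hS n hn.1), hn.2⟩
      · intro n _ _
        positivity
    have h3 := harm_gap (hS m hm).1 (hS m hm).2
    have h4 : (N:ℝ) * ∑ n ∈ S.filter (fun n => n ≠ m), |(m:ℝ) - n|⁻¹ ≤ 2 * N * (1 + Real.log N) := by
      calc _ ≤ (N:ℝ) * (2 * (1 + Real.log N)) := mul_le_mul_of_nonneg_left (h2.trans h3) (by positivity)
        _ = _ := by ring
    exact mul_le_mul_of_nonneg_left h4 (by positivity)
  calc _ ≤ ∑ m ∈ S, ∑ n ∈ S, ((if n = m then ‖c m‖ ^ 2 * T else 0) +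
        (if n = m then 0 else ‖c m‖ ^ 2 * (N * |(m:ℝ) - n|⁻¹)) +
        (if n = m then 0 else ‖c n‖ ^ 2 * (N * |(n:ℝ) - m|⁻¹))) :=
        sum_le_sum fun m hm => sum_le_sum fun n hn => h1 m hm n hn
    _ = (∑ m ∈ S, ∑ n ∈ S, (if n = m then ‖c m‖ ^ 2 * T else 0)) +
        (∑ m ∈ S, ∑ n ∈ S, (if n = m then 0 else ‖c m‖ ^ 2 * (N * |(m:ℝ) - n|⁻¹))) +
        ∑ m ∈ S, ∑ n ∈ S, (if n = m then 0 else ‖c n‖ ^ 2 * (N * |(n:ℝ) - m|⁻¹)) := by
        simp_rw [sum_add_distrib]
    _ ≤ (∑ m ∈ S, ‖c m‖ ^ 2 * T) + (∑ m ∈ S, ‖c m‖ ^ 2 * (2 * N * (1 + Real.log N))) +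
        (∑ m ∈ S, ‖c m‖ ^ 2 * (2 * N * (1 + Real.log N))) := by
        have i1 : (∑ m ∈ S, ∑ n ∈ S, (if n = m then ‖c m‖ ^ 2 * T else 0)) = ∑ m ∈ S, ‖c m‖ ^ 2 * T := by
          apply sum_congr rfl
          intro m hm
          rw [Finset.sum_ite_eq' S m (fun _ => ‖c m‖ ^ 2 * T), if_pos hm]
        have i2 := sum_le_sum hkey
        have i3 : ∑ m ∈ S, ∑ n ∈ S, (if n = m then 0 else ‖c n‖ ^ 2 * (N * |(n:ℝ) - m|⁻¹)) =
            ∑ m ∈ S, ∑ n ∈ S, (if n = m then 0 else ‖c m‖ ^ 2 * (N * |(m:ℝ) - n|⁻¹)) := by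
          rw [Finset.sum_comm]
          apply sum_congr rfl
          intro n _
          apply sum_congr rfl
          intro m _
          by_cases h : n = m
          · rw [if_pos h, if_pos h.symm]
          · rw [if_neg h, if_neg (Ne.symm h)]
        rw [i1, i3]
        linarith
    _ = _ := by
        rw [Finset.mul_sum, ← sum_add_distrib, ← sum_add_distrib]
        apply sum_congr rfl
        intro m _
        ring

/-- the number of tuples of primes with given product -/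
lemma card_tuples (S : Finset ℕ) (hS : ∀ p ∈ S, p.Prime) (k n : ℕ) :
    ((Fintype.piFinset (fun _ : Fin k => S)).filter (fun f => ∏ j, f j = n)).card ≤ k.factorial := by
  rcases Finset.eq_empty_or_nonempty ((Fintype.piFinset (fun _ : Fin k => S)).filter (fun f => ∏ j, f j = n))
    with h | ⟨f0, hf0⟩
  · rw [h]
    simp
  have key : ∀ f ∈ (Fintype.piFinset (fun _ : Fin k => S)).filter (fun f => ∏ j, f j = n),
      List.Perm (List.ofFn f) n.primeFactorsList := by
    intro f hf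
    rw [mem_filter, Fintype.mem_piFinset] at hf
    apply Nat.primeFactorsList_unique
    · rw [List.prod_ofFn]
      exact hf.2
    · intro p hp
      rw [List.mem_ofFn] at hp
      obtain ⟨j, rfl⟩ := hp
      exact hS _ (hf.1 j)
  have hlen : n.primeFactorsList.length = k := by
    rw [← (key f0 hf0).length_eq, List.length_ofFn]
  calc _ = (((Fintype.piFinset (fun _ : Fin k => S)).filter (fun f => ∏ j, f j = n)).image List.ofFn).card := by
        rw [Finset.card_image_of_injective _ List.ofFn_injective]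
    _ ≤ (n.primeFactorsList.permutations.toFinset).card := by
        apply Finset.card_le_card
        intro l hl
        rw [mem_image] at hl
        obtain ⟨f, hf, rfl⟩ := hl
        rw [List.mem_toFinset, List.mem_permutations]
        exact key f hf
    _ ≤ n.primeFactorsList.permutations.length := List.toFinset_card_le _
    _ = k.factorial := by rw [List.length_permutations, hlen]

lemma ee_add (u v t : ℝ) : ee (u + v) t = ee u t * ee v t := by
  unfold ee
  rw [← Complex.exp_add]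
  congr 1
  push_cast
  ring

lemma ee_zero (t : ℝ) : ee 0 t = 1 := by
  unfold ee
  simp

lemma ee_sum {ι : Type*} (s : Finset ι) (u : ι → ℝ) (t : ℝ) : ee (∑ i ∈ s, u i) t = ∏ i ∈ s, ee (u i) t := by
  classical
  induction s using Finset.induction_on with
  | empty => simp [ee_zero]
  | insert i s hi ih => rw [sum_insert hi, prod_insert hi, ee_add, ih]

/-- the moments of a sum over primes -/
theorem moment (S : Finset ℕ) {M : ℕ} (hS : ∀ p ∈ S, p.Prime ∧ p ≤ M) (c : ℕ → ℂ) (a : ℝ) {T : ℝ}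
    (hT : 0 ≤ T) (k : ℕ) :
    ∫ t in a..(a + T), ‖∑ p ∈ S, c p * ee (Real.log p) t‖ ^ (2 * k) ≤
      (T + 4 * M ^ k * (1 + k * Real.log M)) * (k.factorial * (∑ p ∈ S, ‖c p‖ ^ 2) ^ k) := by
  classical
  set F := Fintype.piFinset (fun _ : Fin k => S) with hF
  set A : ℕ → ℂ := fun n => ∑ f ∈ F.filter (fun f => ∏ j, f j = n), ∏ j, c (f j) with hA
  set U := F.image (fun f => ∏ j, f j) with hU
  have e1 : ∀ t : ℝ, ‖∑ p ∈ S, c p * ee (Real.log p) t‖ ^ (2 * k) =
      ‖∑ n ∈ U, A n * ee (Real.log n) t‖ ^ 2 := by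
    intro t
    rw [mul_comm, pow_mul, ← norm_pow]
    congr 2
    have h1 : (∑ p ∈ S, c p * ee (Real.log p) t) ^ k = ∑ f ∈ F, ∏ j, (c (f j) * ee (Real.log (f j)) t) := by
      have := Finset.prod_univ_sum (κ := fun _ : Fin k => ℕ) (t := fun _ : Fin k => S)
        (f := fun _ p => c p * ee (Real.log p) t)
      rw [← this]
      simp
    rw [h1]
    have h2 : ∀ f ∈ F, ∏ j, (c (f j) * ee (Real.log (f j)) t) =
        (∏ j, c (f j)) * ee (Real.log ((∏ j, f j : ℕ) : ℝ)) t := by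
      intro f hf
      rw [prod_mul_distrib]
      congr 1
      rw [← ee_sum]
      congr 1
      push_cast
      rw [Real.log_prod]
      intro j _
      have := (hS (f j) ((Fintype.mem_piFinset.mp hf) j)).1.ne_zero
      exact_mod_cast this
    rw [sum_congr rfl h2, ← Finset.sum_fiberwise_of_maps_to (s := F) (t := U) (g := fun f => ∏ j, f j)
      (fun f hf => Finset.mem_image_of_mem _ hf)]
    apply sum_congr rfl
    intro n _
    rw [hA, Finset.sum_mul]
    apply sum_congr rfl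
    intro f hf
    rw [(mem_filter.mp hf).2]
  simp_rw [e1]
  have hUb : ∀ n ∈ U, 1 ≤ n ∧ n ≤ M ^ k := by
    intro n hn
    rw [hU, mem_image] at hn
    obtain ⟨f, hf, rfl⟩ := hn
    have hf' := Fintype.mem_piFinset.mp hf
    constructor
    · exact Finset.prod_pos fun j _ => (hS _ (hf' j)).1.pos
    · calc ∏ j, f j ≤ ∏ _j : Fin k, M := Finset.prod_le_prod' fun j _ => (hS _ (hf' j)).2
        _ = M ^ k := by simp
  have h1 := mvt U hUb A a hT
  have e2 : (4 * ((M ^ k : ℕ) : ℝ) * (1 + Real.log ((M ^ k : ℕ) : ℝ))) = 4 * M ^ k * (1 + k * Real.log M) := by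
    push_cast
    rw [Real.log_pow]
  rw [e2] at h1
  refine h1.trans ?_
  have hfac : (0:ℝ) ≤ T + 4 * M ^ k * (1 + k * Real.log M) := by
    have := Real.log_natCast_nonneg M
    positivity
  apply mul_le_mul_of_nonneg_left _ hfac
  have h3 : ∀ n ∈ U, ‖A n‖ ^ 2 ≤ k.factorial * ∑ f ∈ F.filter (fun f => ∏ j, f j = n), ∏ j, ‖c (f j)‖ ^ 2 := by
    intro n _
    have i1 : ‖A n‖ ≤ ∑ f ∈ F.filter (fun f => ∏ j, f j = n), ∏ j, ‖c (f j)‖ := by
      refine norm_sum_le_of_le _ fun f _ => ?_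
      rw [norm_prod]
    have i2 : (∑ f ∈ F.filter (fun f => ∏ j, f j = n), ∏ j, ‖c (f j)‖) ^ 2 ≤
        ((F.filter (fun f => ∏ j, f j = n)).card : ℝ) *
          ∑ f ∈ F.filter (fun f => ∏ j, f j = n), (∏ j, ‖c (f j)‖) ^ 2 := sq_sum_le_card_mul_sum_sq
    have i3 : ((F.filter (fun f => ∏ j, f j = n)).card : ℝ) ≤ k.factorial := by
      exact_mod_cast card_tuples S (fun p hp => (hS p hp).1) k n
    calc ‖A n‖ ^ 2 ≤ (∑ f ∈ F.filter (fun f => ∏ j, f j = n), ∏ j, ‖c (f j)‖) ^ 2 :=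
          pow_le_pow_left₀ (norm_nonneg _) i1 2
      _ ≤ _ := i2
      _ ≤ k.factorial * ∑ f ∈ F.filter (fun f => ∏ j, f j = n), (∏ j, ‖c (f j)‖) ^ 2 := by
          apply mul_le_mul_of_nonneg_right i3
          positivity
      _ = _ := by
          simp_rw [Finset.prod_pow]
  calc ∑ n ∈ U, ‖A n‖ ^ 2 ≤ ∑ n ∈ U, k.factorial * ∑ f ∈ F.filter (fun f => ∏ j, f j = n), ∏ j, ‖c (f j)‖ ^ 2 :=
        sum_le_sum h3
    _ = k.factorial * ∑ f ∈ F, ∏ j, ‖c (f j)‖ ^ 2 := by
        rw [← Finset.mul_sum, Finset.sum_fiberwise_of_maps_to (s := F) (t := U) (g := fun f => ∏ j, f j)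
          (fun f hf => Finset.mem_image_of_mem _ hf)]
    _ = k.factorial * (∑ p ∈ S, ‖c p‖ ^ 2) ^ k := by
        congr 1
        have := Finset.prod_univ_sum (κ := fun _ : Fin k => ℕ) (t := fun _ : Fin k => S)
          (f := fun _ p => ‖c p‖ ^ 2)
        rw [← this]
        simp

end Pool.Agent.H86.EDGE
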