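import Mathlib

/-!
The choice of the length of the moment for one dyadic block.
-/

open Filter Topology

namespace Pool.Agent.H86.EDGE

theorem crunch (b : ℝ) (hb : 1 ≤ b) : ∀ᶠ T : ℝ in atTop,
    ∀ z : ℝ, Real.log T ≤ z → z ≤ T ^ 3 → ∃ k : ℕ,
      ((T + 4 * (2 * z) ^ k * (1 + k * Real.log (2 * z))) * (k.factorial * (b ^ 2 / z) ^ k)) /
        (1 / (48 * Real.log T ^ 2)) ^ (2 * k) ≤
        37 * Real.log T ^ 7 * Real.exp (6 * (Real.log T * Real.log (Real.log T) / Real.log z)) := by
  filter_upwards [Real.tendsto_log_atTop.eventually (eventually_ge_atTop (3 + 9216 * b ^ 2)),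
    eventually_gt_atTop 0] with T hL hT0
  set L := Real.log T with hLdef
  have hTL : T = Real.exp L := (Real.exp_log hT0).symm
  have hb2 : 1 ≤ b ^ 2 := by nlinarith
  have hL3 : 3 ≤ L := by nlinarith
  have hLb : 9216 * b ^ 2 ≤ L := by linarith
  have hL0 : 0 < L := by linarith
  intro z hz1 hz2
  have hlogL : 1 ≤ Real.log L := by
    rw [Real.le_log_iff_exp_le hL0]
    have := Real.exp_one_lt_d9
    linarith
  have hz0 : 0 < z := lt_of_lt_of_le hL0 hz1
  have hlz1 : Real.log L ≤ Real.log z := Real.log_le_log hL0 hz1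
  have hlz2 : Real.log z ≤ 3 * L := by
    have := Real.log_le_log hz0 hz2
    rw [Real.log_pow] at this
    push_cast at this
    exact this
  have hlz3 : 1 ≤ Real.log z := by linarith
  have hlz0 : 0 < Real.log z := by linarith
  set k : ℕ := ⌈L / Real.log z⌉₊ with hk
  have hk1 : L / Real.log z ≤ k := Nat.le_ceil _
  have hk2 : (k:ℝ) < L / Real.log z + 1 := Nat.ceil_lt_add_one (by positivity)
  have hk0 : (0:ℝ) ≤ k := Nat.cast_nonneg k
  have hkL : (k:ℝ) ≤ 2 * L := by
    have : L / Real.log z ≤ L := div_le_self hL0.le hlz3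
    linarith
  have hzk : T ≤ z ^ k := by
    calc T = Real.exp L := hTL
      _ ≤ Real.exp (k * Real.log z) := by
        rw [Real.exp_le_exp]
        rwa [div_le_iff₀ hlz0] at hk1
      _ = z ^ k := by
        rw [← Real.log_pow, Real.exp_log (by positivity)]
  have hl2 : Real.log (2 * z) ≤ 2 * Real.log z := by
    rw [Real.log_mul (by norm_num) hz0.ne']
    have := Real.log_two_lt_d9
    linarith
  have hl20 : 0 ≤ Real.log (2 * z) := by
    rw [Real.log_mul (by norm_num) hz0.ne']
    have := Real.log_two_gt_d9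
    linarith
  have hkl : (k:ℝ) * Real.log (2 * z) ≤ 8 * L := by
    have h1 : (k:ℝ) * Real.log (2 * z) ≤ (L / Real.log z + 1) * (2 * Real.log z) :=
      mul_le_mul hk2.le hl2 hl20 (by positivity)
    have h2 : (L / Real.log z + 1) * (2 * Real.log z) = 2 * L + 2 * Real.log z := by
      field_simp
    linarith
  have hkk : (k.factorial : ℝ) ≤ (k:ℝ) ^ k := by
    exact_mod_cast Nat.factorial_le_pow k
  refine ⟨k, ?_⟩
  have e1 : ((T + 4 * (2 * z) ^ k * (1 + k * Real.log (2 * z))) * (k.factorial * (b ^ 2 / z) ^ k)) /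
        (1 / (48 * L ^ 2)) ^ (2 * k) =
      ((T + 4 * (2 * z) ^ k * (1 + k * Real.log (2 * z))) * (k.factorial * (b ^ 2 / z) ^ k)) *
        ((48 * L ^ 2) ^ 2) ^ k := by
    rw [one_div, inv_pow, div_inv_eq_mul, pow_mul]
  rw [e1]
  have hfac : 0 ≤ (1 + (k:ℝ) * Real.log (2 * z)) := by positivity
  calc ((T + 4 * (2 * z) ^ k * (1 + k * Real.log (2 * z))) * (k.factorial * (b ^ 2 / z) ^ k)) *
        ((48 * L ^ 2) ^ 2) ^ k
      ≤ ((z ^ k + 4 * (2 * z) ^ k * (1 + k * Real.log (2 * z))) * ((k:ℝ) ^ k * (b ^ 2 / z) ^ k)) *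
        ((48 * L ^ 2) ^ 2) ^ k := by
        gcongr
    _ = (1 + 4 * 2 ^ k * (1 + k * Real.log (2 * z))) * (k * b ^ 2 * (48 * L ^ 2) ^ 2) ^ k := by
        rw [mul_pow 2 z k, div_pow]
        rw [mul_pow (↑k * b ^ 2), mul_pow (k:ℝ)]
        field_simp
    _ ≤ (2 ^ k * (37 * L)) * (k * b ^ 2 * (48 * L ^ 2) ^ 2) ^ k := by
        apply mul_le_mul_of_nonneg_right _ (by positivity)
        have h2k : (1:ℝ) ≤ 2 ^ k := one_le_pow₀ (by norm_num)
        calc 1 + 4 * 2 ^ k * (1 + k * Real.log (2 * z)) ≤ 2 ^ k + 4 * 2 ^ k * (1 + k * Real.log (2 * z)) := by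
              linarith
          _ = 2 ^ k * (5 + 4 * (k * Real.log (2 * z))) := by ring
          _ ≤ 2 ^ k * (37 * L) := by
              apply mul_le_mul_of_nonneg_left _ (by positivity)
              linarith
    _ = (37 * L) * (2 * k * b ^ 2 * (48 * L ^ 2) ^ 2) ^ k := by
        rw [show 2 * (k:ℝ) * b ^ 2 * (48 * L ^ 2) ^ 2 = 2 * (k * b ^ 2 * (48 * L ^ 2) ^ 2) by ring, mul_pow 2]
        ring
    _ ≤ (37 * L) * (L ^ 6) ^ k := by
        apply mul_le_mul_of_nonneg_left _ (by positivity)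
        apply pow_le_pow_left₀ (by positivity)
        calc 2 * (k:ℝ) * b ^ 2 * (48 * L ^ 2) ^ 2 ≤ 2 * (2 * L) * b ^ 2 * (48 * L ^ 2) ^ 2 := by gcongr
          _ = (9216 * b ^ 2) * L ^ 5 := by ring
          _ ≤ L * L ^ 5 := mul_le_mul_of_nonneg_right hLb (by positivity)
          _ = L ^ 6 := by ring
    _ ≤ (37 * L) * (L ^ 6 * Real.exp (6 * (L * Real.log L / Real.log z))) := by
        apply mul_le_mul_of_nonneg_left _ (by positivity)
        have h1 : (L ^ 6) ^ k = Real.exp (6 * (k * Real.log L)) := by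
          rw [← pow_mul, ← Real.exp_log (show 0 < L ^ (6 * k) by positivity), Real.log_pow]
          congr 1
          push_cast
          ring
        have h2 : L ^ 6 = Real.exp (6 * Real.log L) := by
          rw [← Real.exp_log (show 0 < L ^ 6 by positivity), Real.log_pow]
          congr 1
        rw [h1]
        nth_rewrite 1 [h2]
        rw [← Real.exp_add, Real.exp_le_exp]
        have h5 : (k:ℝ) * Real.log L ≤ L * Real.log L / Real.log z + Real.log L := by
          calc (k:ℝ) * Real.log L ≤ (L / Real.log z + 1) * Real.log L :=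
                mul_le_mul_of_nonneg_right hk2.le (by linarith)
            _ = L * Real.log L / Real.log z + Real.log L := by ring
        linarith
    _ = 37 * L ^ 7 * Real.exp (6 * (L * Real.log L / Real.log z)) := by ring

end Pool.Agent.H86.EDGE
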