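import Mathlib
import Pool.Agent.H86.EDGE.MVT
import Pool.Agent.H86.BtWeak

/-!
The mean square over an interval of length `T` of a sum over primes `p ≥ T ^ 3` is bounded.
-/

open Finset Complex MeasureTheory

namespace Pool.Agent.H86.EDGE

open Pool.ER (ee norm_ee continuous_ee ee_conj)

/-- harmonic numbers -/
noncomputable def hh (n : ℕ) : ℝ := ∑ d ∈ range n, ((d:ℝ) + 1)⁻¹

lemma hh_mono {m n : ℕ} (h : m ≤ n) : hh m ≤ hh n := by
  unfold hh
  apply sum_le_sum_of_subset_of_nonneg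
  · intro d hd
    rw [mem_range] at *
    omega
  · intro d _ _
    positivity

lemma hh_le (n : ℕ) : hh n ≤ 1 + Real.log n := by
  have h := harmonic_le_one_add_log n
  unfold harmonic at h
  push_cast at h
  unfold hh
  exact h

lemma inner_sum {m : ℕ} (hm : 2 ≤ m) (D : ℕ) :
    ∑ d ∈ range D, (((m:ℝ) + d) * (d + 1))⁻¹ ≤ (1 + Real.log m) / (m - 1) := by
  have hm' : (2:ℝ) ≤ m := by exact_mod_cast hm
  have h1 : ∀ d ∈ range D, (((m:ℝ) + d) * (d + 1))⁻¹ = ((m:ℝ) - 1)⁻¹ * (((d:ℝ) + 1)⁻¹ - ((m:ℝ) + d)⁻¹) := by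
    intro d _
    have h3 : (m:ℝ) - 1 ≠ 0 := by
      have : (0:ℝ) < m - 1 := by linarith
      exact this.ne'
    have h4 : (0:ℝ) < m + d := by positivity
    have h5 : (0:ℝ) < (d:ℝ) + 1 := by positivity
    field_simp
    ring
  rw [sum_congr rfl h1, ← mul_sum, sum_sub_distrib, div_eq_inv_mul]
  apply mul_le_mul_of_nonneg_left _ (by
    have : (0:ℝ) < m - 1 := by linarith
    positivity)
  have h2 : ∑ d ∈ range D, ((m:ℝ) + d)⁻¹ = hh (m - 1 + D) - hh (m - 1) := by
    unfold hh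
    rw [sum_range_add, add_sub_cancel_left]
    apply sum_congr rfl
    intro d _
    congr 1
    push_cast [Nat.cast_sub (show 1 ≤ m by omega)]
    ring
  rw [h2]
  have h3 : (∑ d ∈ range D, ((d:ℝ) + 1)⁻¹) = hh D := rfl
  rw [h3]
  have h4 := hh_mono (show D ≤ m - 1 + D by omega)
  have h5 : hh (m - 1) ≤ hh m := hh_mono (by omega)
  have h6 := hh_le m
  linarith

lemma tele {n : ℕ} (hn : 2 ≤ n) :
    (1 + Real.log n) / (n * (n - 1)) ≤ (3 + Real.log ((n:ℝ) - 1)) / (n - 1) - (3 + Real.log n) / n := by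
  have hn' : (2:ℝ) ≤ n := by exact_mod_cast hn
  have h1 : (0:ℝ) < n - 1 := by linarith
  have h2 : (0:ℝ) < n := by linarith
  have h3 : Real.log n - Real.log ((n:ℝ) - 1) ≤ 1 / (n - 1) := by
    rw [← Real.log_div h2.ne' h1.ne']
    have := Real.log_le_sub_one_of_pos (show 0 < (n:ℝ) / (n - 1) by positivity)
    have e : (n:ℝ) / (n - 1) - 1 = 1 / (n - 1) := by
      field_simp
      ring
    linarith
  have h4 : (n:ℝ) * (Real.log n - Real.log ((n:ℝ) - 1)) ≤ 2 := by
    calc (n:ℝ) * (Real.log n - Real.log ((n:ℝ) - 1)) ≤ n * (1 / (n - 1)) := mul_le_mul_of_nonneg_left h3 h2.le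
      _ ≤ 2 := by
        rw [mul_one_div, div_le_iff₀ h1]
        linarith
  have h5 : (3 + Real.log ((n:ℝ) - 1)) / (n - 1) - (3 + Real.log n) / n =
      (3 + Real.log n - n * (Real.log n - Real.log ((n:ℝ) - 1))) / (n * (n - 1)) := by
    field_simp
    ring
  rw [h5]
  apply div_le_div_of_nonneg_right _ (by positivity)
  linarith

lemma outer_sum {M : ℕ} (hM : 1 ≤ M) (L : ℕ) :
    ∑ n ∈ Ico (M + 1) L, (1 + Real.log n) / (n * ((n:ℝ) - 1)) ≤ (3 + Real.log M) / M := by
  rcases Nat.lt_or_ge L (M + 1) with h | h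
  · rw [Finset.Ico_eq_empty (by omega), sum_empty]
    have := Real.log_natCast_nonneg M
    positivity
  · have key : ∀ L : ℕ, M + 1 ≤ L → ∑ n ∈ Ico (M + 1) L, (1 + Real.log n) / (n * ((n:ℝ) - 1)) ≤
        (3 + Real.log M) / M - (3 + Real.log ((L:ℝ) - 1)) / (L - 1) := by
      intro L hL
      induction L, hL using Nat.le_induction with
      | base =>
        rw [Finset.Ico_self, sum_empty]
        push_cast
        rw [add_sub_cancel_right, sub_self]
      | succ L hL ih =>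
        rw [Finset.sum_Ico_succ_top hL]
        have := tele (n := L) (by omega)
        push_cast
        rw [add_sub_cancel_right]
        linarith
    refine (key L h).trans ?_
    have h1 : (0:ℝ) ≤ L - 1 := by
      have : ((M + 1 : ℕ) : ℝ) ≤ L := by exact_mod_cast h
      push_cast at this
      have := Nat.cast_nonneg (α := ℝ) M
      linarith
    have h2 : 0 ≤ Real.log ((L:ℝ) - 1) := by
      have e : (L:ℝ) - 1 = ((L - 1 : ℕ) : ℝ) := by
        rw [Nat.cast_sub (by omega)]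
        simp
      rw [e]
      exact Real.log_natCast_nonneg _
    have h3 : 0 ≤ (3 + Real.log ((L:ℝ) - 1)) / (L - 1) := by positivity
    linarith

/-- the double sum -/
lemma dbl {M : ℕ} (hM : 1 ≤ M) (L : ℕ) :
    ∑ m ∈ Ico (M + 1) L, ∑ n ∈ Ico (M + 1) L, ((m:ℝ) * n * (|(m:ℝ) - n| + 1))⁻¹ ≤
      2 * ((3 + Real.log M) / M) := by
  have hnn : ∀ m n : ℕ, 0 ≤ ((m:ℝ) * n * (|(m:ℝ) - n| + 1))⁻¹ := by
    intro m n
    positivity
  have half : ∑ m ∈ Ico (M + 1) L, ∑ n ∈ Ico (M + 1) L,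
      (if m ≤ n then ((m:ℝ) * n * (|(m:ℝ) - n| + 1))⁻¹ else 0) ≤ (3 + Real.log M) / M := by
    refine le_trans (sum_le_sum fun m hm => ?_) (outer_sum hM L)
    rw [mem_Ico] at hm
    have hm' : (0:ℝ) < m := by exact_mod_cast (by omega : 0 < m)
    have e1 : ∑ n ∈ Ico (M + 1) L, (if m ≤ n then ((m:ℝ) * n * (|(m:ℝ) - n| + 1))⁻¹ else 0) =
        ∑ n ∈ Ico m L, ((m:ℝ) * n * (|(m:ℝ) - n| + 1))⁻¹ := by
      rw [← sum_filter]
      apply sum_congr _ fun _ _ => rfl
      ext n
      simp only [mem_filter, mem_Ico]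
      omega
    rw [e1, Finset.sum_Ico_eq_sum_range]
    have e2 : ∀ d ∈ range (L - m), ((m:ℝ) * ((m + d : ℕ) : ℝ) * (|(m:ℝ) - ((m + d : ℕ) : ℝ)| + 1))⁻¹ =
        (m:ℝ)⁻¹ * (((m:ℝ) + d) * (d + 1))⁻¹ := by
      intro d _
      push_cast
      rw [sub_add_cancel_left, abs_neg, abs_of_nonneg (Nat.cast_nonneg d), mul_assoc, mul_inv]
    rw [sum_congr rfl e2, ← mul_sum]
    have h1 := inner_sum (m := m) (by omega) (L - m)
    calc (m:ℝ)⁻¹ * ∑ d ∈ range (L - m), (((m:ℝ) + d) * (d + 1))⁻¹ ≤ (m:ℝ)⁻¹ * ((1 + Real.log m) / (m - 1)) :=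
          mul_le_mul_of_nonneg_left h1 (by positivity)
      _ = (1 + Real.log m) / (m * ((m:ℝ) - 1)) := by
          rw [inv_mul_eq_div, div_div, mul_comm ((m:ℝ) - 1)]
  have h2 : ∑ m ∈ Ico (M + 1) L, ∑ n ∈ Ico (M + 1) L, ((m:ℝ) * n * (|(m:ℝ) - n| + 1))⁻¹ ≤
      ∑ m ∈ Ico (M + 1) L, ∑ n ∈ Ico (M + 1) L,
      (if m ≤ n then ((m:ℝ) * n * (|(m:ℝ) - n| + 1))⁻¹ else 0) +
      ∑ m ∈ Ico (M + 1) L, ∑ n ∈ Ico (M + 1) L,
      (if n ≤ m then ((m:ℝ) * n * (|(m:ℝ) - n| + 1))⁻¹ else 0) := by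
    rw [← sum_add_distrib]
    apply sum_le_sum
    intro m _
    rw [← sum_add_distrib]
    apply sum_le_sum
    intro n _
    have := hnn m n
    rcases le_total m n with h | h
    · rw [if_pos h]
      split_ifs <;> linarith
    · rw [if_pos h]
      split_ifs <;> linarith
  have h3 : ∑ m ∈ Ico (M + 1) L, ∑ n ∈ Ico (M + 1) L,
      (if n ≤ m then ((m:ℝ) * n * (|(m:ℝ) - n| + 1))⁻¹ else 0) =
      ∑ m ∈ Ico (M + 1) L, ∑ n ∈ Ico (M + 1) L,
      (if m ≤ n then ((m:ℝ) * n * (|(m:ℝ) - n| + 1))⁻¹ else 0) := by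
    rw [sum_comm]
    apply sum_congr rfl
    intro m _
    apply sum_congr rfl
    intro n _
    rw [abs_sub_comm, mul_comm (n:ℝ) m]
  rw [h3] at h2
  linarith

/-- the kernel bound in terms of the fine cells -/
lemma kernel_cell (a : ℝ) {T : ℝ} (hT : 0 < T) {m n : ℕ} {u v : ℝ} (hu1 : (m:ℝ) ≤ T * u)
    (hu2 : T * u < m + 1) (hv1 : (n:ℝ) ≤ T * v) (hv2 : T * v < n + 1) :
    ‖∫ t in a..(a + T), ee (u - v) t‖ ≤ 6 * T * (|(m:ℝ) - n| + 1)⁻¹ := by
  set d : ℝ := |(m:ℝ) - n| with hd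
  have hd0 : 0 ≤ d := abs_nonneg _
  rw [← div_eq_mul_inv, le_div_iff₀ (by linarith)]
  by_cases h : d ≤ 1
  · have h1 := int_ee_le a T hT.le (u - v)
    nlinarith [norm_nonneg (∫ t in a..(a + T), ee (u - v) t)]
  · push Not at h
    have hd2 : 2 ≤ d := by
      have h3 : ((|(m:ℤ) - (n:ℤ)| : ℤ) : ℝ) = d := by
        rw [hd]
        push_cast
        rfl
      have h4 : (1:ℤ) < |(m:ℤ) - (n:ℤ)| := by
        have : ((1:ℤ):ℝ) < ((|(m:ℤ) - (n:ℤ)| : ℤ) : ℝ) := by
          rw [h3]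
          exact_mod_cast h
        exact_mod_cast this
      have h5 : (2:ℤ) ≤ |(m:ℤ) - (n:ℤ)| := by omega
      have h6 : ((2:ℤ):ℝ) ≤ ((|(m:ℤ) - (n:ℤ)| : ℤ) : ℝ) := by exact_mod_cast h5
      rw [h3] at h6
      exact_mod_cast h6
    have h3 : d - 1 ≤ T * |u - v| := by
      rw [hd]
      have h4 : |((m:ℝ) - n) - T * (u - v)| ≤ 1 := by
        rw [abs_le]
        constructor <;> linarith
      have h5 : |(m:ℝ) - n| ≤ |((m:ℝ) - n) - T * (u - v)| + |T * (u - v)| := by
        have := abs_add_le (((m:ℝ) - n) - T * (u - v)) (T * (u - v))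
        simpa using this
      rw [abs_mul, abs_of_pos hT] at h5
      linarith
    have huv : u - v ≠ 0 := by
      intro h0
      rw [h0, abs_zero, mul_zero] at h3
      linarith
    have huv' : 0 < |u - v| := abs_pos.mpr huv
    have h4 := int_ee_le' a T (u - v) huv
    have h5 : 2 / |u - v| ≤ 2 * T / (d - 1) := by
      rw [div_le_div_iff₀ huv' (by linarith)]
      nlinarith
    have h6 : 2 * T / (d - 1) * (d + 1) ≤ 6 * T := by
      rw [div_mul_eq_mul_div, div_le_iff₀ (by linarith)]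
      nlinarith
    calc ‖∫ t in a..(a + T), ee (u - v) t‖ * (d + 1) ≤ 2 * T / (d - 1) * (d + 1) := by
          apply mul_le_mul_of_nonneg_right _ (by linarith)
          exact h4.trans h5
      _ ≤ 6 * T := h6

/-- the sum of `1 / p` over a fine cell -/
lemma cell_fine : ∃ C : ℝ, 0 < C ∧ ∀ T : ℝ, 3 ≤ T → ∀ S : Finset ℕ, ∀ n : ℕ,
    (∀ p ∈ S, p.Prime ∧ (n:ℝ) ≤ T * Real.log p ∧ T * Real.log p < n + 1) → 2 * T * Real.log T ≤ n →
    ∑ p ∈ S, (p:ℝ)⁻¹ ≤ C / n := by
  obtain ⟨C, hC, hbt⟩ := Pool.Agent.H86.BtWeak.bt_weak (1/2) (by norm_num)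
  refine ⟨2 + 4 * C, by positivity, ?_⟩
  intro T hT S n hS hn
  have hT0 : 0 < T := by linarith
  have hlogT : 1 ≤ Real.log T := by
    rw [Real.le_log_iff_exp_le hT0]
    have := Real.exp_one_lt_d9
    linarith
  have hn0 : 0 < (n:ℝ) := by
    have : 0 < 2 * T * Real.log T := by positivity
    linarith
  set x : ℝ := Real.exp (n / T) with hx
  have hx0 : 0 < x := Real.exp_pos _
  have hlogx : Real.log x = n / T := Real.log_exp _
  have hxT : T ^ 2 ≤ x := by
    rw [hx]
    calc T ^ 2 = Real.exp (2 * Real.log T) := by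
          rw [two_mul, Real.exp_add, Real.exp_log hT0]
          ring
      _ ≤ Real.exp (n / T) := by
          rw [Real.exp_le_exp, le_div_iff₀ hT0]
          linarith
  have hx9 : 9 ≤ x := by nlinarith
  set u : ℕ := ⌊x⌋₊ with hu
  set v : ℕ := ⌊x * Real.exp (1 / T)⌋₊ with hv
  have he1 : 1 ≤ Real.exp (1 / T) := Real.one_le_exp (by positivity)
  have he2 : Real.exp (1 / T) ≤ 1 + 2 / T := by
    have h1 : 1 / T ≤ 1 := by
      rw [div_le_one hT0]
      linarith
    have h2 := Real.exp_bound' (x := 1 / T) (by positivity) h1 (n := 2) (by norm_num)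
    simp [Finset.sum_range_succ, Nat.factorial] at h2
    have h3 : (T⁻¹) ^ 2 ≤ T⁻¹ := by
      have : T⁻¹ ≤ 1 := by rw [← one_div]; exact h1
      have h0 : 0 ≤ T⁻¹ := by positivity
      nlinarith
    have h4 : (T ^ 2)⁻¹ = (T⁻¹) ^ 2 := by rw [inv_pow]
    have h5 : 2 / T = 2 * T⁻¹ := by rw [div_eq_mul_inv]
    rw [one_div]
    rw [h5]
    have h6 : 0 ≤ T⁻¹ := by positivity
    rw [h4] at h2
    nlinarith
  have huv : u ≤ v := by
    apply Nat.floor_le_floor
    nlinarith
  have hlen : ((v - u : ℕ) : ℝ) ≤ 2 * x / T + 1 := by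
    rw [Nat.cast_sub huv]
    have h1 : (v:ℝ) ≤ x * Real.exp (1 / T) := Nat.floor_le (by positivity)
    have h2 : x < u + 1 := Nat.lt_floor_add_one x
    have h3 : x * Real.exp (1 / T) ≤ x + 2 * x / T := by
      calc x * Real.exp (1 / T) ≤ x * (1 + 2 / T) := mul_le_mul_of_nonneg_left he2 hx0.le
        _ = x + 2 * x / T := by ring
    linarith
  -- the cell is contained in an interval, up to a possible end point
  have hpx : ∀ p ∈ S, x ≤ p ∧ (p:ℝ) < x * Real.exp (1 / T) := by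
    intro p hp
    obtain ⟨hpp, h1, h2⟩ := hS p hp
    have hp0 : (0:ℝ) < p := by exact_mod_cast hpp.pos
    constructor
    · rw [hx, ← Real.le_log_iff_exp_le hp0, div_le_iff₀ hT0]
      linarith
    · rw [hx, ← Real.exp_add, ← Real.log_lt_iff_lt_exp hp0, ← add_div, lt_div_iff₀ hT0]
      linarith
  have hsub : S ⊆ insert u ((Finset.Ioc u (u + (v - u))).filter Nat.Prime) := by
    intro p hp
    obtain ⟨h1, h2⟩ := hpx p hp
    rw [mem_insert, mem_filter, mem_Ioc]
    have h3 : u ≤ p := by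
      rw [hu]
      exact Nat.floor_le_of_le h1
    have h4 : p ≤ v := by
      rw [hv]
      exact Nat.le_floor h2.le
    rcases Nat.eq_or_lt_of_le h3 with h5 | h5
    · left
      exact h5.symm
    · right
      exact ⟨⟨h5, by omega⟩, (hS p hp).1⟩
  have hcard : (S.card : ℝ) ≤ 1 + C * ((v - u : ℕ) + x ^ (1/2 : ℝ)) / Real.log x := by
    have h1 := hbt x (by linarith) u (v - u)
    have h2 : (S.card : ℝ) ≤ 1 + ((Finset.Ioc u (u + (v - u))).filter Nat.Prime).card := by
      have := (Finset.card_le_card hsub).trans (Finset.card_insert_le _ _)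
      have h3 : (S.card : ℝ) ≤ ((((Finset.Ioc u (u + (v - u))).filter Nat.Prime).card + 1 : ℕ) : ℝ) := by
        exact_mod_cast this
      push_cast at h3
      linarith
    linarith
  -- the final estimate
  set w : ℝ := x ^ (1/2 : ℝ) with hw
  have hw0 : 0 < w := Real.rpow_pos_of_pos hx0 _
  have hww : w * w = x := by
    rw [hw, ← Real.rpow_add hx0]
    norm_num
  have hwT : T ≤ w := by
    by_contra hcon
    push Not at hcon
    nlinarith
  have hxT' : w ≤ x / T := by
    rw [le_div_iff₀ hT0]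
    nlinarith
  have hw1 : 1 ≤ w := by linarith
  have hlogx0 : 0 < Real.log x := by
    rw [hlogx]
    positivity
  have hlogw : Real.log x ≤ 2 * w := by
    have h1 : Real.log x = 2 * Real.log w := by
      rw [← hww, Real.log_mul hw0.ne' hw0.ne']
      ring
    have h2 := Real.log_le_sub_one_of_pos hw0
    linarith
  have h1 : (S.card : ℝ) ≤ (2 + 4 * C) * (x / T) / Real.log x := by
    refine hcard.trans ?_
    have i1 : 1 ≤ 2 * (x / T) / Real.log x := by
      rw [le_div_iff₀ hlogx0]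
      linarith
    have i2 : C * ((v - u : ℕ) + w) / Real.log x ≤ C * (4 * (x / T)) / Real.log x := by
      apply div_le_div_of_nonneg_right _ hlogx0.le
      apply mul_le_mul_of_nonneg_left _ hC.le
      have : 2 * x / T = 2 * (x / T) := by ring
      linarith
    calc 1 + C * ((v - u : ℕ) + w) / Real.log x ≤ 2 * (x / T) / Real.log x + C * (4 * (x / T)) / Real.log x := by
          linarith
      _ = _ := by ring
  have h2 : (2 + 4 * C) * (x / T) / Real.log x = (2 + 4 * C) * x / n := by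
    rw [hlogx]
    field_simp
  rw [h2] at h1
  calc ∑ p ∈ S, (p:ℝ)⁻¹ ≤ ∑ _p ∈ S, x⁻¹ := sum_le_sum fun p hp => inv_anti₀ hx0 (hpx p hp).1
    _ = S.card * x⁻¹ := by rw [sum_const, nsmul_eq_mul]
    _ ≤ ((2 + 4 * C) * x / n) * x⁻¹ := mul_le_mul_of_nonneg_right h1 (by positivity)
    _ = (2 + 4 * C) / n := by field_simp

/-- the mean square of the tail -/
theorem tail_sq : ∃ C : ℝ, 0 < C ∧ ∀ T : ℝ, 3 ≤ T → ∀ (S : Finset ℕ), (∀ p ∈ S, p.Prime ∧ T ^ 3 ≤ p) →
    ∀ (c : ℕ → ℂ) (b : ℝ), 0 ≤ b → (∀ p ∈ S, ‖c p‖ ≤ b * (p:ℝ)⁻¹) → ∀ a : ℝ,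
    ∫ t in a..(a + T), ‖∑ p ∈ S, c p * ee (Real.log p) t‖ ^ 2 ≤ C * b ^ 2 := by
  obtain ⟨C, hC, hcell⟩ := cell_fine
  refine ⟨96 * C ^ 2, by positivity, ?_⟩
  intro T hT S hS c b hb hc a
  have hT0 : 0 < T := by linarith
  have hlogT : 1 ≤ Real.log T := by
    rw [Real.le_log_iff_exp_le hT0]
    have := Real.exp_one_lt_d9
    linarith
  set g : ℕ → ℕ := fun p => ⌊T * Real.log p⌋₊ with hg
  set M : ℕ := ⌈2 * T * Real.log T⌉₊ with hM
  have hMge : 2 * T * Real.log T ≤ M := Nat.le_ceil _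
  have hMle : (M:ℝ) < 2 * T * Real.log T + 1 := Nat.ceil_lt_add_one (by positivity)
  have hM6 : 6 ≤ M := by
    have : (6:ℝ) ≤ M := by nlinarith
    exact_mod_cast this
  set L : ℕ := S.sup g + 1 with hL
  have hgp : ∀ p ∈ S, (g p : ℝ) ≤ T * Real.log p ∧ T * Real.log p < g p + 1 := by
    intro p hp
    have h0 : 0 ≤ T * Real.log p := mul_nonneg hT0.le (Real.log_natCast_nonneg p)
    exact ⟨Nat.floor_le h0, Nat.lt_floor_add_one _⟩
  have hgmem : ∀ p ∈ S, g p ∈ Ico (M + 1) L := by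
    intro p hp
    rw [mem_Ico]
    constructor
    · obtain ⟨h1, h2⟩ := hgp p hp
      obtain ⟨hpp, hpT⟩ := hS p hp
      have h3 : 3 * Real.log T ≤ Real.log p := by
        have : Real.log (T ^ 3) ≤ Real.log p := Real.log_le_log (by positivity) hpT
        rw [Real.log_pow] at this
        push_cast at this
        exact this
      have h4 : (M:ℝ) < g p := by nlinarith
      have h5 : M < g p := by exact_mod_cast h4
      omega
    · rw [hL]
      have := Finset.le_sup (f := g) hp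
      omega
  refine (int_sq S c (fun p => Real.log p) a T).trans ?_
  have h1 : ∀ p ∈ S, ∀ q ∈ S, ‖c p‖ * ‖c q‖ * ‖∫ t in a..(a + T), ee (Real.log p - Real.log q) t‖ ≤
      (6 * T * b ^ 2) * ((p:ℝ)⁻¹ * ((q:ℝ)⁻¹ * (|(g p : ℝ) - g q| + 1)⁻¹)) := by
    intro p hp q hq
    have h2 := kernel_cell a hT0 (hgp p hp).1 (hgp p hp).2 (hgp q hq).1 (hgp q hq).2
    calc _ ≤ (b * (p:ℝ)⁻¹) * (b * (q:ℝ)⁻¹) * (6 * T * (|(g p : ℝ) - g q| + 1)⁻¹) := by
          apply mul_le_mul _ h2 (norm_nonneg _) (by positivity)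
          exact mul_le_mul (hc p hp) (hc q hq) (norm_nonneg _) (by positivity)
      _ = _ := by ring
  have hs : ∀ n ∈ Ico (M + 1) L, ∑ p ∈ S.filter (fun p => g p = n), (p:ℝ)⁻¹ ≤ C / n := by
    intro n hn
    rw [mem_Ico] at hn
    apply hcell T hT
    · intro p hp
      rw [mem_filter] at hp
      obtain ⟨h2, h3⟩ := hgp p hp.1
      rw [hp.2] at h2 h3
      exact ⟨(hS p hp.1).1, h2, h3⟩
    · have : (M:ℝ) ≤ n := by exact_mod_cast (by omega : M ≤ n)
      linarith
  have hs0 : ∀ n, 0 ≤ ∑ p ∈ S.filter (fun p => g p = n), (p:ℝ)⁻¹ := fun n => sum_nonneg fun p _ => by positivity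
  calc _ ≤ ∑ p ∈ S, ∑ q ∈ S, (6 * T * b ^ 2) * ((p:ℝ)⁻¹ * ((q:ℝ)⁻¹ * (|(g p : ℝ) - g q| + 1)⁻¹)) :=
        sum_le_sum fun p hp => sum_le_sum fun q hq => h1 p hp q hq
    _ = (6 * T * b ^ 2) * ∑ m ∈ Ico (M + 1) L, ∑ n ∈ Ico (M + 1) L,
        (∑ p ∈ S.filter (fun p => g p = m), (p:ℝ)⁻¹) * ((∑ q ∈ S.filter (fun q => g q = n), (q:ℝ)⁻¹) *
          (|(m : ℝ) - n| + 1)⁻¹) := by
        simp_rw [← mul_sum]
        congr 1
        rw [← Finset.sum_fiberwise_of_maps_to (s := S) (t := Ico (M + 1) L) (g := g) hgmem]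
        apply sum_congr rfl
        intro m _
        rw [sum_mul]
        apply sum_congr rfl
        intro p hp
        rw [(mem_filter.mp hp).2]
        congr 1
        rw [← Finset.sum_fiberwise_of_maps_to (s := S) (t := Ico (M + 1) L) (g := g) hgmem]
        apply sum_congr rfl
        intro n _
        rw [sum_mul]
        apply sum_congr rfl
        intro q hq
        rw [(mem_filter.mp hq).2]
    _ ≤ (6 * T * b ^ 2) * ∑ m ∈ Ico (M + 1) L, ∑ n ∈ Ico (M + 1) L,
        C ^ 2 * ((m:ℝ) * n * (|(m:ℝ) - n| + 1))⁻¹ := by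
        apply mul_le_mul_of_nonneg_left _ (by positivity)
        apply sum_le_sum
        intro m hm
        apply sum_le_sum
        intro n hn
        calc _ ≤ (C / m) * ((C / n) * (|(m : ℝ) - n| + 1)⁻¹) := by
              apply mul_le_mul (hs m hm) _ (mul_nonneg (hs0 n) (by positivity)) (by positivity)
              exact mul_le_mul_of_nonneg_right (hs n hn) (by positivity)
          _ = _ := by
              rw [mul_inv, mul_inv]
              ring
    _ = (6 * T * b ^ 2 * C ^ 2) * ∑ m ∈ Ico (M + 1) L, ∑ n ∈ Ico (M + 1) L,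
        ((m:ℝ) * n * (|(m:ℝ) - n| + 1))⁻¹ := by
        simp_rw [← mul_sum]
        ring
    _ ≤ (6 * T * b ^ 2 * C ^ 2) * (2 * ((3 + Real.log M) / M)) := by
        apply mul_le_mul_of_nonneg_left (dbl (by omega) L) (by positivity)
    _ ≤ (6 * T * b ^ 2 * C ^ 2) * (2 * (8 / T)) := by
        apply mul_le_mul_of_nonneg_left _ (by positivity)
        have hM0 : (0:ℝ) < M := by
          exact_mod_cast (by omega : 0 < M)
        have hX0 : 0 < T * Real.log T := by positivity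
        have i1 : Real.log M ≤ 2 * Real.log T + (M / (T * Real.log T) - 1) := by
          have j1 : Real.log M = Real.log (T * Real.log T) + Real.log (M / (T * Real.log T)) := by
            rw [← Real.log_mul hX0.ne' (by positivity)]
            congr 1
            field_simp
          have j2 : Real.log (T * Real.log T) ≤ 2 * Real.log T := by
            rw [Real.log_mul hT0.ne' (by positivity)]
            have : Real.log (Real.log T) ≤ Real.log T := by
              apply Real.log_le_log (by linarith)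
              exact Real.log_le_self hT0.le
            linarith
          have j3 := Real.log_le_sub_one_of_pos (show 0 < M / (T * Real.log T) by positivity)
          linarith
        have i2 : (3 + Real.log M) / M ≤ 8 / T := by
          rw [div_le_div_iff₀ hM0 hT0]
          have j1 : M / (T * Real.log T) * T ≤ M := by
            rw [div_mul_eq_mul_div, div_le_iff₀ hX0]
            apply mul_le_mul_of_nonneg_left _ hM0.le
            nlinarith
          have j2 : T * Real.log M ≤ T * (2 * Real.log T + (M / (T * Real.log T) - 1)) :=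
            mul_le_mul_of_nonneg_left i1 hT0.le
          have j3 : T ≤ T * Real.log T := by nlinarith
          nlinarith
        linarith
    _ = 96 * C ^ 2 * b ^ 2 := by
        field_simp
        ring

end Pool.Agent.H86.EDGE
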