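import Mathlib
import Pool.Agent.H86.EDGE.Tail
import Pool.Agent.H86.EDGE.Num
import Pool.Agent.H48.ER.Rate
import Pool.Agent.H91.Edge.Ext3

/-!
Off a set of measure `T ^ ε` in each window of length `T` the value on the edge is given by the
product over the primes up to a power of `log T`.
-/

open Finset Complex MeasureTheory Filter Topology

namespace Pool.Agent.H86.EDGE

open Pool.ER (ee norm_ee continuous_ee)
open Pool.H48.ER
open Pool.Agent.H89.EdgeBasic (Hyp)
open Pool.Agent.H91.Edge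

/-- Markov's inequality on an interval -/
lemma markov {F : ℝ → ℂ} (hF : Continuous F) {δ : ℝ} (hδ : 0 < δ) (n : ℕ) (a : ℝ) {T : ℝ} (hT : 0 ≤ T) :
    volume ({t | δ ≤ ‖F t‖} ∩ Set.Icc a (a + T)) ≤
      ENNReal.ofReal ((∫ t in a..(a + T), ‖F t‖ ^ n) / δ ^ n) := by
  set S : Set ℝ := {t | δ ≤ ‖F t‖} with hS
  have hSm : MeasurableSet S := (isClosed_le continuous_const hF.norm).measurableSet
  have h1 : volume (S ∩ Set.Icc a (a + T)) ≤ volume.restrict (Set.Ioc a (a + T)) S := by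
    rw [Measure.restrict_apply hSm]
    have h2 : S ∩ Set.Icc a (a + T) ⊆ (S ∩ Set.Ioc a (a + T)) ∪ {a} := by
      rintro t ⟨h3, h4, h5⟩
      rcases eq_or_lt_of_le h4 with h6 | h6
      · right
        exact h6.symm
      · left
        exact ⟨h3, h6, h5⟩
    calc volume (S ∩ Set.Icc a (a + T)) ≤ volume (S ∩ Set.Ioc a (a + T)) + volume {a} :=
          (measure_mono h2).trans (measure_union_le _ _)
      _ = volume (S ∩ Set.Ioc a (a + T)) := by rw [Real.volume_singleton, add_zero]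
  refine h1.trans ?_
  set μ := volume.restrict (Set.Ioc a (a + T)) with hμ
  have hfin : IsFiniteMeasure μ := by
    rw [hμ]
    infer_instance
  have hint : Integrable (fun t => ‖F t‖ ^ n) μ := by
    have : IntegrableOn (fun t => ‖F t‖ ^ n) (Set.Icc a (a + T)) :=
      (hF.norm.pow n).continuousOn.integrableOn_compact isCompact_Icc
    exact this.mono_set Set.Ioc_subset_Icc_self
  have h3 := mul_meas_ge_le_integral_of_nonneg (μ := μ) (f := fun t => ‖F t‖ ^ n)
    (Eventually.of_forall fun t => by positivity) hint (δ ^ n)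
  have h4 : μ.real S ≤ μ.real {t | δ ^ n ≤ ‖F t‖ ^ n} := by
    apply measureReal_mono _ (measure_ne_top _ _)
    intro t ht
    exact pow_le_pow_left₀ hδ.le ht n
  have h5 : μ S = ENNReal.ofReal (μ.real S) := by
    rw [ofReal_measureReal]
  rw [h5]
  apply ENNReal.ofReal_le_ofReal
  rw [intervalIntegral.integral_of_le (by linarith), le_div_iff₀ (by positivity), mul_comm]
  calc δ ^ n * μ.real S ≤ δ ^ n * μ.real {t | δ ^ n ≤ ‖F t‖ ^ n} :=
        mul_le_mul_of_nonneg_left h4 (by positivity)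
    _ ≤ _ := h3

/-- one dyadic block of primes between `x0` and `T ^ 3` -/
noncomputable def blk (x0 : ℕ) (T : ℝ) (j : ℕ) : Finset ℕ :=
  (range ⌈T ^ 3⌉₊).filter (fun p => p.Prime ∧ x0 < p ∧ Nat.log 2 p = j)

/-- the primes from `T ^ 3` to `x` -/
noncomputable def tl (x0 : ℕ) (T : ℝ) (x : ℕ) : Finset ℕ :=
  open Classical in (range (x + 1)).filter (fun p => p.Prime ∧ x0 < p ∧ T ^ 3 ≤ (p:ℝ))

lemma split_AA (α : ℕ → ℂ) {x0 x J : ℕ} {T : ℝ} (hx : x0 ≤ x) (hT : ⌈T ^ 3⌉₊ ≤ x + 1)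
    (hJ : ∀ p < ⌈T ^ 3⌉₊, Nat.log 2 p < J) (t : ℝ) :
    Pool.ER.AA α x t = Pool.ER.AA α x0 t +
      ((∑ j ∈ range J, ∑ p ∈ blk x0 T j, α p * (p:ℂ)⁻¹ * ee (Real.log p) t) +
        ∑ p ∈ tl x0 T x, α p * (p:ℂ)⁻¹ * ee (Real.log p) t) := by
  classical
  unfold Pool.ER.AA
  set f : ℕ → ℂ := fun p => α p * (p:ℂ)⁻¹ * ee (Real.log p) t with hf
  set U := (range ⌈T ^ 3⌉₊).filter (fun p => p.Prime ∧ x0 < p) with hU
  have e1 : (∑ j ∈ range J, ∑ p ∈ blk x0 T j, f p) = ∑ p ∈ U, f p := by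
    rw [← Finset.sum_fiberwise_of_maps_to (s := U) (t := range J) (g := Nat.log 2)]
    · apply sum_congr rfl
      intro j _
      apply sum_congr _ fun _ _ => rfl
      ext p
      simp only [blk, hU, mem_filter]
      tauto
    · intro p hp
      rw [hU, mem_filter, mem_range] at hp
      rw [mem_range]
      exact hJ p hp.1
  have e2 : (range (x + 1)).filter (fun p => p.Prime) =
      (range (x0 + 1)).filter (fun p => p.Prime) ∪ (U ∪ tl x0 T x) := by
    ext p
    simp only [hU, tl, mem_union, mem_filter, mem_range, Nat.lt_ceil]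
    constructor
    · rintro ⟨h1, h2⟩
      by_cases h3 : p < x0 + 1
      · left
        exact ⟨h3, h2⟩
      · right
        by_cases h4 : (p:ℝ) < T ^ 3
        · left
          exact ⟨h4, h2, by omega⟩
        · right
          exact ⟨h1, h2, by omega, not_lt.mp h4⟩
    · rintro (⟨h1, h2⟩ | ⟨h1, h2, h3⟩ | ⟨h1, h2, h3, h4⟩)
      · exact ⟨by omega, h2⟩
      · rw [← Nat.lt_ceil] at h1
        exact ⟨by omega, h2⟩
      · exact ⟨h1, h2⟩
  have d1 : Disjoint U (tl x0 T x) := by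
    rw [Finset.disjoint_left]
    intro p h1 h2
    simp only [hU, tl, mem_filter, mem_range, Nat.lt_ceil] at h1 h2
    linarith [h1.1, h2.2.2.2]
  have d2 : Disjoint ((range (x0 + 1)).filter (fun p => p.Prime)) (U ∪ tl x0 T x) := by
    rw [Finset.disjoint_left]
    intro p h1 h2
    simp only [hU, tl, mem_union, mem_filter, mem_range, Nat.lt_ceil] at h1 h2
    rcases h2 with h2 | h2
    · have := h2.2.2
      omega
    · have := h2.2.2.1
      omega
  rw [e2, sum_union d2, sum_union d1, e1]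

lemma continuous_psum (α : ℕ → ℂ) (S : Finset ℕ) :
    Continuous (fun t => ∑ p ∈ S, α p * (p:ℂ)⁻¹ * ee (Real.log p) t) :=
  continuous_finsetSum _ fun _ _ => (continuous_ee _).const_mul _

/-- the exceptional set of one block -/
lemma block_bad {α : ℕ → ℂ} {b : ℝ} (hb : 0 ≤ b) (hα : ∀ p, ‖α p‖ ≤ b) {x0 j : ℕ} {T : ℝ}
    {δ : ℝ} (hδ : 0 < δ) (k : ℕ) (hT : 0 ≤ T) (a : ℝ) :
    volume ({t | δ ≤ ‖∑ p ∈ blk x0 T j, α p * (p:ℂ)⁻¹ * ee (Real.log p) t‖} ∩ Set.Icc a (a + T)) ≤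
      ENNReal.ofReal (((T + 4 * (2 * (2:ℝ) ^ j) ^ k * (1 + k * Real.log (2 * (2:ℝ) ^ j))) *
        (k.factorial * (b ^ 2 / (2:ℝ) ^ j) ^ k)) / δ ^ (2 * k)) := by
  refine (markov (continuous_psum α (blk x0 T j)) hδ (2 * k) a hT).trans ?_
  apply ENNReal.ofReal_le_ofReal
  apply div_le_div_of_nonneg_right _ (by positivity)
  have hmem : ∀ p ∈ blk x0 T j, p.Prime ∧ 2 ^ j ≤ p ∧ p < 2 ^ (j + 1) := by
    intro p hp
    unfold blk at hp
    rw [mem_filter] at hp
    obtain ⟨_, h1, _, h2⟩ := hp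
    refine ⟨h1, ?_, ?_⟩
    · rw [← h2]
      exact Nat.pow_log_le_self 2 h1.ne_zero
    · rw [← h2]
      exact Nat.lt_pow_succ_log_self (by norm_num) p
  have h1 := moment (blk x0 T j) (M := 2 ^ (j + 1)) (fun p hp => ⟨(hmem p hp).1, (hmem p hp).2.2.le⟩)
    (fun p => α p * (p:ℂ)⁻¹) a hT k
  refine h1.trans ?_
  have e1 : (((2 ^ (j + 1) : ℕ) : ℝ)) = 2 * (2:ℝ) ^ j := by
    push_cast
    ring
  rw [e1]
  have hlog : 0 ≤ Real.log (2 * (2:ℝ) ^ j) := by
    rw [← e1]
    exact Real.log_natCast_nonneg _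
  have h2 : ∑ p ∈ blk x0 T j, ‖α p * (p:ℂ)⁻¹‖ ^ 2 ≤ b ^ 2 / (2:ℝ) ^ j := by
    have h3 : ∀ p ∈ blk x0 T j, ‖α p * (p:ℂ)⁻¹‖ ^ 2 ≤ b ^ 2 * (((2:ℝ) ^ j)⁻¹) ^ 2 := by
      intro p hp
      obtain ⟨h4, h5, h6⟩ := hmem p hp
      have h7 : ((2:ℝ) ^ j) ≤ p := by exact_mod_cast h5
      have h8 : ‖α p * (p:ℂ)⁻¹‖ ≤ b * ((2:ℝ) ^ j)⁻¹ := by
        rw [norm_mul, norm_inv, Complex.norm_natCast]
        exact mul_le_mul (hα p) (inv_anti₀ (by positivity) h7) (by positivity) hb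
      calc _ ≤ (b * ((2:ℝ) ^ j)⁻¹) ^ 2 := pow_le_pow_left₀ (norm_nonneg _) h8 2
        _ = _ := by ring
    have h4 : ((blk x0 T j).card : ℝ) ≤ (2:ℝ) ^ j := by
      have h5 : blk x0 T j ⊆ Finset.Ico (2 ^ j) (2 ^ (j + 1)) := by
        intro p hp
        rw [mem_Ico]
        exact (hmem p hp).2
      have h6 := Finset.card_le_card h5
      rw [Nat.card_Ico] at h6
      have h7 : 2 ^ (j + 1) - 2 ^ j = 2 ^ j := by
        rw [pow_succ]
        omega
      rw [h7] at h6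
      exact_mod_cast h6
    calc ∑ p ∈ blk x0 T j, ‖α p * (p:ℂ)⁻¹‖ ^ 2 ≤ ∑ _p ∈ blk x0 T j, b ^ 2 * (((2:ℝ) ^ j)⁻¹) ^ 2 := sum_le_sum h3
      _ = (blk x0 T j).card * (b ^ 2 * (((2:ℝ) ^ j)⁻¹) ^ 2) := by rw [sum_const, nsmul_eq_mul]
      _ ≤ (2:ℝ) ^ j * (b ^ 2 * (((2:ℝ) ^ j)⁻¹) ^ 2) := mul_le_mul_of_nonneg_right h4 (by positivity)
      _ = b ^ 2 / (2:ℝ) ^ j := by
          field_simp
  have h3 : 0 ≤ ∑ p ∈ blk x0 T j, ‖α p * (p:ℂ)⁻¹‖ ^ 2 := sum_nonneg fun _ _ => by positivity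
  gcongr

lemma norm_tl {α : ℕ → ℂ} {b : ℝ} (hα : ∀ p, ‖α p‖ ≤ b) (p : ℕ) :
    ‖α p * (p:ℂ)⁻¹‖ ≤ b * (p:ℝ)⁻¹ := by
  rw [norm_mul, norm_inv, Complex.norm_natCast]
  exact mul_le_mul_of_nonneg_right (hα p) (by positivity)

/-- the set where the tail is large from some point on -/
def badTail (α : ℕ → ℂ) (x0 : ℕ) (T δ : ℝ) : Set ℝ :=
  ⋃ X : ℕ, ⋂ x : ℕ, {t | X ≤ x → δ ≤ ‖∑ p ∈ tl x0 T x, α p * (p:ℂ)⁻¹ * ee (Real.log p) t‖}

lemma meas_badTail (α : ℕ → ℂ) (x0 : ℕ) (T δ : ℝ) : MeasurableSet (badTail α x0 T δ) := by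
  unfold badTail
  apply MeasurableSet.iUnion
  intro X
  apply MeasurableSet.iInter
  intro x
  by_cases h : X ≤ x
  · have : {t | X ≤ x → δ ≤ ‖∑ p ∈ tl x0 T x, α p * (p:ℂ)⁻¹ * ee (Real.log p) t‖} =
        {t | δ ≤ ‖∑ p ∈ tl x0 T x, α p * (p:ℂ)⁻¹ * ee (Real.log p) t‖} := by
      ext t
      simp [h]
    rw [this]
    exact (isClosed_le continuous_const (continuous_psum α (tl x0 T x)).norm).measurableSet
  · have : {t | X ≤ x → δ ≤ ‖∑ p ∈ tl x0 T x, α p * (p:ℂ)⁻¹ * ee (Real.log p) t‖} = Set.univ := by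
      ext t
      simp [h]
    rw [this]
    exact MeasurableSet.univ

lemma tail_bad : ∃ C : ℝ, 0 < C ∧ ∀ (α : ℕ → ℂ) (b : ℝ), 0 ≤ b → (∀ p, ‖α p‖ ≤ b) → ∀ (x0 : ℕ) (T : ℝ),
    3 ≤ T → ∀ δ : ℝ, 0 < δ → ∀ a : ℝ,
    volume (badTail α x0 T δ ∩ Set.Icc a (a + T)) ≤ ENNReal.ofReal (C * b ^ 2 / δ ^ 2) := by
  obtain ⟨C, hC, hC2⟩ := tail_sq
  refine ⟨C, hC, ?_⟩
  intro α b hb hα x0 T hT δ hδ a
  unfold badTail
  rw [Set.iUnion_inter]
  have hmono : Monotone (fun X : ℕ => (⋂ x : ℕ, {t | X ≤ x → δ ≤ ‖∑ p ∈ tl x0 T x, α p * (p:ℂ)⁻¹ *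
      ee (Real.log p) t‖}) ∩ Set.Icc a (a + T)) := by
    intro X Y hXY t ht
    refine ⟨?_, ht.2⟩
    have h1 := ht.1
    rw [Set.mem_iInter] at h1 ⊢
    intro x hx
    exact h1 x (hXY.trans hx)
  rw [hmono.measure_iUnion]
  apply iSup_le
  intro X
  have h1 : (⋂ x : ℕ, {t | X ≤ x → δ ≤ ‖∑ p ∈ tl x0 T x, α p * (p:ℂ)⁻¹ * ee (Real.log p) t‖}) ∩
      Set.Icc a (a + T) ⊆ {t | δ ≤ ‖∑ p ∈ tl x0 T X, α p * (p:ℂ)⁻¹ * ee (Real.log p) t‖} ∩
      Set.Icc a (a + T) := by
    rintro t ⟨h2, h3⟩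
    rw [Set.mem_iInter] at h2
    exact ⟨h2 X le_rfl, h3⟩
  refine (measure_mono h1).trans ?_
  refine (markov (continuous_psum α (tl x0 T X)) hδ 2 a (by linarith)).trans ?_
  apply ENNReal.ofReal_le_ofReal
  apply div_le_div_of_nonneg_right _ (by positivity)
  apply hC2 T hT (tl x0 T X) _ (fun p => α p * (p:ℂ)⁻¹) b hb (fun p _ => norm_tl hα p) a
  intro p hp
  unfold tl at hp
  rw [mem_filter] at hp
  exact ⟨hp.2.1, hp.2.2.2⟩

lemma norm_exp_ratio {w : ℂ} (hw : ‖w‖ ≤ 1) : ‖cexp w - 1‖ ≤ 2 * ‖w‖ := Complex.norm_exp_sub_one_le hw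

/-- The value on the edge is given by a short product, off a small set. -/
theorem shortY (b : ℕ) : ∀ᶠ T : ℝ in atTop, ∀ y : ℝ, Real.log T ^ 2 ≤ y → y ≤ T →
    ∀ (N i : ℕ) (P : ℕ → Polynomial ℂ), Hyp N i b P → ∃ Z : Set ℝ, MeasurableSet Z ∧
      (∀ a : ℝ, volume (Z ∩ Set.Icc a (a + T)) ≤
        ENNReal.ofReal (Real.exp (21 * (Real.log T * Real.log (Real.log T) / Real.log y)))) ∧
      ∀ t, t ∉ Z → ∀ l : ℂ, Tendsto (fun x : ℕ => Yf N i P x t) atTop (𝓝 l) →
        ‖l / Yf N i P ⌊y⌋₊ t - 1‖ ≤ 1 / Real.log T := by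
  have hcr := crunch (b + 1) (by
    have := Nat.cast_nonneg (α := ℝ) b
    linarith)
  obtain ⟨C, hC, htail⟩ := tail_bad
  filter_upwards [hcr,
    Real.tendsto_log_atTop.eventually (eventually_ge_atTop (444 + 128 * C * (b + 1) ^ 2 + 32 * b)),
    eventually_ge_atTop 3] with T hcr hL hT3
  set L := Real.log T with hLdef
  have hb0 : (0:ℝ) ≤ b := Nat.cast_nonneg b
  have hT0 : 0 < T := by linarith
  have hC2 : 0 ≤ 128 * C * ((b:ℝ) + 1) ^ 2 := by positivity
  have hL444 : 444 ≤ L := by linarith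
  have hL3 : 3 ≤ L := by linarith
  have hL0 : 0 < L := by linarith
  have hLC : 128 * C * ((b:ℝ) + 1) ^ 2 ≤ L := by linarith
  have hLb : 32 * (b:ℝ) ≤ L := by linarith
  intro y hy1 hy2
  have hlogL : 1 ≤ Real.log L := by
    rw [Real.le_log_iff_exp_le hL0]
    have := Real.exp_one_lt_d9
    linarith
  have hLy : L ≤ y := by nlinarith
  have hy0 : 0 < y := by linarith
  have hy4 : 4 ≤ y := by linarith
  have hlogy1 : Real.log L ≤ Real.log y := Real.log_le_log hL0 hLy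
  have hlogy0 : 0 < Real.log y := by linarith
  have hlogy2 : Real.log y ≤ L := Real.log_le_log hy0 hy2
  set Q := L * Real.log L / Real.log y with hQ
  have hQL : Real.log L ≤ Q := by
    rw [hQ, le_div_iff₀ hlogy0]
    nlinarith
  have hLQ : L ≤ Real.exp Q := by
    calc L = Real.exp (Real.log L) := (Real.exp_log hL0).symm
      _ ≤ _ := Real.exp_le_exp.mpr hQL
  intro N i P H
  have hadm := adm_ft H 0
  set α : ℕ → ℂ := ft N i P 0 with hα
  have hαb : ∀ p, ‖α p‖ ≤ (b:ℝ) + 1 := fun p => (hadm.bd p).trans (by linarith)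
  set x0 : ℕ := ⌊y⌋₊ with hx0
  have hx0le : (x0:ℝ) ≤ y := Nat.floor_le hy0.le
  have hx0gt : y < x0 + 1 := Nat.lt_floor_add_one _
  set δ : ℝ := 1 / (48 * L ^ 2) with hδ
  have hδ0 : 0 < δ := by positivity
  set δ' : ℝ := 1 / (8 * L) with hδ'
  have hδ'0 : 0 < δ' := by positivity
  set J : ℕ := ⌊3 * L / Real.log 2⌋₊ + 1 with hJ
  have hlog2 : 0.6931471803 < Real.log 2 := Real.log_two_gt_d9
  have hJle : (J:ℝ) ≤ 6 * L := by
    rw [hJ]
    push_cast
    have h1 : (⌊3 * L / Real.log 2⌋₊ : ℝ) ≤ 3 * L / Real.log 2 := Nat.floor_le (by positivity)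
    have h2 : 3 * L / Real.log 2 ≤ 5 * L := by
      rw [div_le_iff₀ (by linarith)]
      nlinarith
    linarith
  have hJlog : ∀ p < ⌈T ^ 3⌉₊, Nat.log 2 p < J := by
    intro p hp
    rw [Nat.lt_ceil] at hp
    rw [hJ, Nat.lt_succ_iff]
    apply Nat.le_floor
    rw [le_div_iff₀ (by linarith)]
    rcases Nat.eq_zero_or_pos p with h | h
    · rw [h]
      simp
      positivity
    · have hp0 : (0:ℝ) < p := by exact_mod_cast h
      have h1 : ((2:ℝ) ^ (Nat.log 2 p)) ≤ p := by exact_mod_cast Nat.pow_log_le_self 2 h.ne'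
      have h2 := Real.log_le_log (by positivity) (h1.trans hp.le)
      rw [Real.log_pow, Real.log_pow] at h2
      push_cast at h2
      exact h2
  -- the exceptional set
  set Zb : Set ℝ := ⋃ j ∈ range J, {t | δ ≤ ‖∑ p ∈ blk x0 T j, α p * (p:ℂ)⁻¹ * ee (Real.log p) t‖}
    with hZb
  refine ⟨Zb ∪ badTail α x0 T δ', ?_, ?_, ?_⟩
  · apply MeasurableSet.union
    · apply Finset.measurableSet_biUnion
      intro j _
      exact (isClosed_le continuous_const (continuous_psum α (blk x0 T j)).norm).measurableSet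
    · exact meas_badTail _ _ _ _
  · intro a
    have hblock : ∀ j ∈ range J, volume ({t | δ ≤ ‖∑ p ∈ blk x0 T j, α p * (p:ℂ)⁻¹ * ee (Real.log p) t‖} ∩
        Set.Icc a (a + T)) ≤ ENNReal.ofReal (37 * L ^ 7 * Real.exp (12 * Q)) := by
      intro j _
      rcases Finset.eq_empty_or_nonempty (blk x0 T j) with h | ⟨p, hp⟩
      · rw [h]
        have : {t : ℝ | δ ≤ ‖∑ p ∈ (∅ : Finset ℕ), α p * (p:ℂ)⁻¹ * ee (Real.log p) t‖} = ∅ := by
          ext t
          simp [hδ0]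
        rw [this, Set.empty_inter, measure_empty]
        exact bot_le
      · unfold blk at hp
        rw [mem_filter, mem_range, Nat.lt_ceil] at hp
        obtain ⟨h1, hpp, h2, h4⟩ := hp
        have h5 : ((2:ℝ) ^ j) ≤ p := by
          rw [← h4]
          exact_mod_cast Nat.pow_log_le_self 2 hpp.ne_zero
        have h6 : (p:ℝ) < 2 * (2:ℝ) ^ j := by
          have : p < 2 ^ (Nat.log 2 p + 1) := Nat.lt_pow_succ_log_self (by norm_num) p
          rw [h4] at this
          have h7 : (p:ℝ) < (2:ℝ) ^ (j + 1) := by exact_mod_cast this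
          rw [pow_succ] at h7
          linarith
        have h7 : y / 2 ≤ (2:ℝ) ^ j := by
          have h8 : ((x0:ℝ)) + 1 ≤ p := by exact_mod_cast h2
          linarith
        have h8 : L ≤ (2:ℝ) ^ j := by nlinarith
        obtain ⟨k, hk⟩ := hcr ((2:ℝ) ^ j) h8 (by linarith)
        refine (block_bad (b := (b:ℝ) + 1) (by positivity) hαb hδ0 k hT0.le a).trans ?_
        refine ENNReal.ofReal_le_ofReal (hk.trans ?_)
        apply mul_le_mul_of_nonneg_left _ (by positivity)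
        apply Real.exp_le_exp.mpr
        have h9 : Real.log y ≤ 2 * Real.log ((2:ℝ) ^ j) := by
          have h10 : y ≤ ((2:ℝ) ^ j) ^ 2 := by nlinarith
          have h11 := Real.log_le_log hy0 h10
          rw [Real.log_pow] at h11
          push_cast at h11
          exact h11
        have h10 : 0 < Real.log ((2:ℝ) ^ j) := by linarith
        have h11 : L * Real.log L / Real.log ((2:ℝ) ^ j) ≤ 2 * Q := by
          rw [hQ, ← mul_div_assoc, div_le_div_iff₀ h10 hlogy0]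
          have : 0 < L * Real.log L := by positivity
          nlinarith
        linarith
    have htl := htail α (b + 1) (by positivity) hαb x0 T hT3 δ' hδ'0 a
    rw [Set.union_inter_distrib_right]
    refine (measure_union_le _ _).trans ?_
    have hE : 0 < Real.exp (21 * Q) := Real.exp_pos _
    have h4 : volume (Zb ∩ Set.Icc a (a + T)) ≤ ENNReal.ofReal (Real.exp (21 * Q) / 2) := by
      rw [hZb, Set.iUnion₂_inter]
      refine (measure_biUnion_finset_le _ _).trans ?_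
      calc ∑ j ∈ range J, volume ({t | δ ≤ ‖∑ p ∈ blk x0 T j, α p * (p:ℂ)⁻¹ * ee (Real.log p) t‖} ∩
          Set.Icc a (a + T)) ≤ ∑ _j ∈ range J, ENNReal.ofReal (37 * L ^ 7 * Real.exp (12 * Q)) :=
            sum_le_sum hblock
        _ = ENNReal.ofReal (J * (37 * L ^ 7 * Real.exp (12 * Q))) := by
            rw [sum_const, card_range, nsmul_eq_mul, ENNReal.ofReal_mul (p := (J:ℝ)) (Nat.cast_nonneg J),
              ENNReal.ofReal_natCast]
        _ ≤ ENNReal.ofReal (Real.exp (21 * Q) / 2) := by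
            apply ENNReal.ofReal_le_ofReal
            have e1 : Real.exp (21 * Q) = Real.exp Q ^ 9 * Real.exp (12 * Q) := by
              rw [← Real.exp_nat_mul, ← Real.exp_add]
              congr 1
              push_cast
              ring
            calc (J:ℝ) * (37 * L ^ 7 * Real.exp (12 * Q)) ≤ (6 * L) * (37 * L ^ 7 * Real.exp (12 * Q)) :=
                  mul_le_mul_of_nonneg_right hJle (by positivity)
              _ = (444 * L ^ 8) * (Real.exp (12 * Q) / 2) := by ring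
              _ ≤ (L * L ^ 8) * (Real.exp (12 * Q) / 2) := by gcongr
              _ = L ^ 9 * (Real.exp (12 * Q) / 2) := by ring
              _ ≤ Real.exp Q ^ 9 * (Real.exp (12 * Q) / 2) := by gcongr
              _ = _ := by
                  rw [e1]
                  ring
    have h5 : volume (badTail α x0 T δ' ∩ Set.Icc a (a + T)) ≤ ENNReal.ofReal (Real.exp (21 * Q) / 2) := by
      refine htl.trans (ENNReal.ofReal_le_ofReal ?_)
      have h6 : C * ((b:ℝ) + 1) ^ 2 / δ' ^ 2 = (128 * C * (b + 1) ^ 2) * L ^ 2 / 2 := by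
        rw [hδ']
        field_simp
        ring
      have h7 : L * L ^ 2 ≤ Real.exp (21 * Q) := by
        calc L * L ^ 2 = L ^ 3 := by ring
          _ ≤ Real.exp Q ^ 3 := pow_le_pow_left₀ hL0.le hLQ 3
          _ = Real.exp (3 * Q) := by
              rw [← Real.exp_nat_mul]
              congr 1
          _ ≤ Real.exp (21 * Q) := by
              apply Real.exp_le_exp.mpr
              linarith
      rw [h6]
      apply div_le_div_of_nonneg_right _ (by norm_num)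
      refine le_trans ?_ h7
      exact mul_le_mul_of_nonneg_right hLC (by positivity)
    calc _ ≤ ENNReal.ofReal (Real.exp (21 * Q) / 2) + ENNReal.ofReal (Real.exp (21 * Q) / 2) := add_le_add h4 h5
      _ = ENNReal.ofReal (Real.exp (21 * Q)) := by
          rw [← ENNReal.ofReal_add (by positivity) (by positivity)]
          congr 1
          ring
  · intro t ht l hl
    rw [Set.mem_union, not_or] at ht
    obtain ⟨ht1, ht2⟩ := ht
    have hbl : ∀ j ∈ range J, ‖∑ p ∈ blk x0 T j, α p * (p:ℂ)⁻¹ * ee (Real.log p) t‖ ≤ δ := by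
      intro j hj
      by_contra hcon
      push Not at hcon
      apply ht1
      rw [hZb, Set.mem_iUnion₂]
      exact ⟨j, hj, hcon.le⟩
    have hYne : Yf N i P x0 t ≠ 0 := by
      rw [Yf_eq H t x0]
      exact Complex.exp_ne_zero _
    have hlim : Tendsto (fun x : ℕ => Yf N i P x t / Yf N i P x0 t - 1) atTop (𝓝 (l / Yf N i P x0 t - 1)) :=
      (hl.div_const _).sub_const _
    have hclosed : IsClosed {z : ℂ | ‖z‖ ≤ 1 / L} := isClosed_le continuous_norm continuous_const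
    have hmem := hclosed.mem_of_frequently_of_tendsto (f := fun x : ℕ => Yf N i P x t / Yf N i P x0 t - 1)
      (b := atTop) ?_ hlim
    · exact hmem
    rw [Filter.frequently_atTop]
    intro X
    have ht3 : ∃ x, max X (max x0 ⌈T ^ 3⌉₊) ≤ x ∧
        ‖∑ p ∈ tl x0 T x, α p * (p:ℂ)⁻¹ * ee (Real.log p) t‖ < δ' := by
      by_contra hcon
      push Not at hcon
      apply ht2
      unfold badTail
      rw [Set.mem_iUnion]
      refine ⟨max X (max x0 ⌈T ^ 3⌉₊), ?_⟩
      rw [Set.mem_iInter]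
      intro x hx
      exact hcon x hx
    obtain ⟨x, hx1, hx2⟩ := ht3
    have hxX : X ≤ x := (le_max_left _ _).trans hx1
    have hxx0 : x0 ≤ x := ((le_max_left _ _).trans (le_max_right _ _)).trans hx1
    have hxT : ⌈T ^ 3⌉₊ ≤ x + 1 := (((le_max_right _ _).trans (le_max_right _ _)).trans hx1).trans (Nat.le_succ x)
    refine ⟨x, hxX, ?_⟩
    set S1 : ℂ := ∑ j ∈ range J, ∑ p ∈ blk x0 T j, α p * (p:ℂ)⁻¹ * ee (Real.log p) t with hS1
    set S2 : ℂ := ∑ p ∈ tl x0 T x, α p * (p:ℂ)⁻¹ * ee (Real.log p) t with hS2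
    set G : ℂ := (∑ n ∈ Finset.range (x+1), gg N i P t n) - ∑ n ∈ Finset.range (x0+1), gg N i P t n with hG
    have e1 : Yf N i P x t / Yf N i P x0 t = cexp (S1 + S2 + G) := by
      rw [Yf_eq H t x, Yf_eq H t x0, ← Complex.exp_sub, split_AA α hxx0 hxT hJlog t]
      congr 1
      rw [hG]
      ring
    have hS1n : ‖S1‖ ≤ 1 / (8 * L) := by
      calc ‖S1‖ ≤ ∑ _j ∈ range J, δ := norm_sum_le_of_le _ hbl
        _ = J * δ := by rw [sum_const, card_range, nsmul_eq_mul]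
        _ ≤ (6 * L) * δ := mul_le_mul_of_nonneg_right hJle hδ0.le
        _ = 1 / (8 * L) := by
            rw [hδ]
            field_simp
            ring
    have hx0pos : 1 ≤ x0 := by
      rw [hx0]
      apply Nat.le_floor
      push_cast
      linarith
    have hGn : ‖G‖ ≤ 1 / (8 * L) := by
      have g1 := gg_tail H t hx0pos
      have g2 := gg_tail H t (hx0pos.trans hxx0)
      have e : G = ((∑ n ∈ Finset.range (x+1), gg N i P t n) - ∑' n, gg N i P t n) -
          ((∑ n ∈ Finset.range (x0+1), gg N i P t n) - ∑' n, gg N i P t n) := by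
        rw [hG]
        ring
      have hx0r : (0:ℝ) < x0 := by exact_mod_cast hx0pos
      have hxr : (x0:ℝ) ≤ x := by exact_mod_cast hxx0
      have g3 : (b:ℝ) / x ≤ b / x0 := div_le_div_of_nonneg_left hb0 hx0r hxr
      have g4 : ‖G‖ ≤ 2 * (b / x0) := by
        rw [e]
        have := norm_sub_le ((∑ n ∈ Finset.range (x+1), gg N i P t n) - ∑' n, gg N i P t n)
          ((∑ n ∈ Finset.range (x0+1), gg N i P t n) - ∑' n, gg N i P t n)
        linarith
      have g5 : L ^ 2 / 2 ≤ x0 := by nlinarith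
      have g6 : 2 * ((b:ℝ) / x0) ≤ 1 / (8 * L) := by
        rw [← mul_div_assoc, div_le_div_iff₀ hx0r (by positivity)]
        nlinarith
      linarith
    have hw : ‖S1 + S2 + G‖ ≤ 3 / (8 * L) := by
      have h1 := norm_add_le (S1 + S2) G
      have h2 := norm_add_le S1 S2
      have h4 : 3 / (8 * L) = 1 / (8 * L) + 1 / (8 * L) + 1 / (8 * L) := by ring
      rw [h4]
      have h5 : ‖S2‖ < 1 / (8 * L) := hx2
      linarith
    have hw1 : ‖S1 + S2 + G‖ ≤ 1 := by
      refine hw.trans ?_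
      rw [div_le_one (by positivity)]
      linarith
    show ‖Yf N i P x t / Yf N i P x0 t - 1‖ ≤ 1 / L
    rw [e1]
    refine (norm_exp_ratio hw1).trans ?_
    calc 2 * ‖S1 + S2 + G‖ ≤ 2 * (3 / (8 * L)) := by linarith
      _ = 3 / 4 * (1 / L) := by
          field_simp
          ring
      _ ≤ 1 * (1 / L) := mul_le_mul_of_nonneg_right (by norm_num) (by positivity)
      _ = 1 / L := one_mul _

/-- The form with a power of `log T`. -/
theorem short (b : ℕ) {ε : ℝ} (hε : 0 < ε) : ∃ B : ℕ, 1 ≤ B ∧ ∀ᶠ T : ℝ in atTop,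
    ∀ (N i : ℕ) (P : ℕ → Polynomial ℂ), Hyp N i b P → ∃ Z : Set ℝ, MeasurableSet Z ∧
      (∀ a : ℝ, volume (Z ∩ Set.Icc a (a + T)) ≤ ENNReal.ofReal (T ^ ε)) ∧
      ∀ t, t ∉ Z → ∀ l : ℂ, Tendsto (fun x : ℕ => Yf N i P x t) atTop (𝓝 l) →
        ‖l / Yf N i P ⌊Real.log T ^ B⌋₊ t - 1‖ ≤ 1 / Real.log T := by
  set B : ℕ := ⌈21 / ε⌉₊ + 2 with hB
  have hB2 : 2 ≤ B := by omega
  have hBε : 21 / ε ≤ B := by
    have := Nat.le_ceil (21 / ε)
    rw [hB]
    push_cast
    linarith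
  have hB0 : (0:ℝ) < B := by exact_mod_cast (by omega : 0 < B)
  refine ⟨B, by omega, ?_⟩
  have hpow : ∀ᶠ L : ℝ in atTop, L ^ B ≤ Real.exp L := by
    have h1 := (isLittleO_pow_exp_pos_mul_atTop B one_pos).bound one_pos
    filter_upwards [h1, eventually_ge_atTop 0] with L h2 hL0
    rw [one_mul, Real.norm_of_nonneg (by positivity), Real.norm_of_nonneg (Real.exp_pos _).le, one_mul] at h2
    exact h2
  filter_upwards [shortY b, Real.tendsto_log_atTop.eventually hpow,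
    Real.tendsto_log_atTop.eventually (eventually_ge_atTop 3), eventually_gt_atTop 0] with T hT hp hL hT0
  set L := Real.log T with hLdef
  have hTL : Real.exp L = T := Real.exp_log hT0
  rw [hTL] at hp
  have hL0 : 0 < L := by linarith
  have hlogL : 1 ≤ Real.log L := by
    rw [Real.le_log_iff_exp_le hL0]
    have := Real.exp_one_lt_d9
    linarith
  intro N i P H
  obtain ⟨Z, h1, h2, h3⟩ := hT (L ^ B) (pow_le_pow_right₀ (by linarith) hB2) hp N i P H
  refine ⟨Z, h1, fun a => (h2 a).trans (ENNReal.ofReal_le_ofReal ?_), h3⟩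
  rw [Real.rpow_def_of_pos hT0, Real.exp_le_exp, Real.log_pow, mul_div_mul_right _ _ (by linarith)]
  rw [div_le_iff₀ hε] at hBε
  rw [← mul_div_assoc, div_le_iff₀ hB0]
  nlinarith

end Pool.Agent.H86.EDGE
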