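import Mathlib
import Pool.Agent.H86.EDGE.Short

/-!
Large deviations of the values on the edge: the bounds `V ^ (-b) ≤ |E| ≤ V ^ b` hold off a set of
measure `T ^ (C loglog T / V)` in each window of length `T`.
-/

open Finset Complex MeasureTheory Filter Topology

namespace Pool.Agent.H86.EDGE

open Pool.H48.ER
open Pool.Agent.H89.EdgeBasic (Hyp)
open Pool.Agent.H91.Edge

variable {N i b : ℕ} {P : ℕ → Polynomial ℂ}

/-- the local factor on the edge line -/
lemma local_bd (H : Hyp N i b P) {p : ℕ} (hp : p.Prime) (hpN : ¬ p ∣ N) (t : ℝ) :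
    ‖((P p).eval ((p:ℂ) ^ (-(1 + (i:ℂ)/2 + t * I))))⁻¹‖ ≤ ((1 - (p:ℝ)⁻¹)⁻¹) ^ b ∧
    (‖((P p).eval ((p:ℂ) ^ (-(1 + (i:ℂ)/2 + t * I))))⁻¹‖)⁻¹ ≤ ((1 - (p:ℝ)⁻¹)⁻¹) ^ b := by
  have hroot : ∀ r ∈ (P p).roots, ‖(p:ℂ) ^ (-(1 + (i:ℂ)/2 + t * I)) / r‖ ≤ (p:ℝ)⁻¹ := fun r hr =>
    root_bound' H ⟨p, hp, hpN⟩ (s := 1 + (i:ℂ)/2 + t * I) (by simp) hr
  have hp0 : (0:ℝ) ≤ (p:ℝ)⁻¹ := by positivity
  have h1 := local_sup (H.h0 p hp hpN) (H.hdeg p hp hpN) hroot hp0 (inv_le_half' hp) 1 0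
  have h2 := local_sup (H.h0 p hp hpN) (H.hdeg p hp hpN) hroot hp0 (inv_le_half' hp) (-1) 0
  have e : ec 0 = 1 := by
    simp [ec]
  rw [e, one_mul] at h1 h2
  rw [abs_one, mul_one, Real.rpow_natCast, Real.rpow_one] at h1
  rw [abs_neg, abs_one, mul_one, Real.rpow_natCast, Real.rpow_neg_one] at h2
  exact ⟨h1, h2⟩

/-- bounds for the partial products -/
lemma Yf_bd : ∃ A : ℝ, 1 ≤ A ∧ ∀ (N i b : ℕ) (P : ℕ → Polynomial ℂ), Hyp N i b P → ∀ y : ℝ, 3 ≤ y →
    ∀ t : ℝ, ‖Yf N i P ⌊y⌋₊ t‖ ≤ (A * Real.log y) ^ b ∧ ((A * Real.log y) ^ b)⁻¹ ≤ ‖Yf N i P ⌊y⌋₊ t‖ := by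
  obtain ⟨A, hA1, hA⟩ := mertens
  refine ⟨A, hA1, ?_⟩
  intro N i b P H y hy t
  have hy0 : 0 < y := by linarith
  set S := (Finset.range (⌊y⌋₊ + 1)).filter (fun p => p.Prime ∧ ¬ p ∣ N) with hS
  have hSm : ∀ p ∈ S, p.Prime ∧ ¬ p ∣ N ∧ (p:ℝ) ≤ y := by
    intro p hp
    rw [hS, mem_filter, mem_range] at hp
    refine ⟨hp.2.1, hp.2.2, ?_⟩
    have h1 : p ≤ ⌊y⌋₊ := by omega
    exact (Nat.le_floor_iff hy0.le).mp h1
  have hm := hA y hy S (fun p hp => ⟨(hSm p hp).1, (hSm p hp).2.2⟩)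
  have hlog : 0 < Real.log y := Real.log_pos (by linarith)
  have hfac : ∀ p ∈ S, 0 ≤ (1 - (p:ℝ)⁻¹)⁻¹ := by
    intro p hp
    have := inv_le_half' (hSm p hp).1
    rw [inv_nonneg]
    linarith
  have hprod : ∏ p ∈ S, ((1 - (p:ℝ)⁻¹)⁻¹) ^ b ≤ (A * Real.log y) ^ b := by
    rw [Finset.prod_pow]
    exact pow_le_pow_left₀ (Finset.prod_nonneg hfac) hm b
  have h1 : ‖Yf N i P ⌊y⌋₊ t‖ ≤ ∏ p ∈ S, ((1 - (p:ℝ)⁻¹)⁻¹) ^ b := by
    unfold Yf
    rw [norm_prod]
    apply Finset.prod_le_prod (fun p _ => norm_nonneg _)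
    intro p hp
    exact (local_bd H (hSm p hp).1 (hSm p hp).2.1 t).1
  have h2 : ‖Yf N i P ⌊y⌋₊ t‖⁻¹ ≤ ∏ p ∈ S, ((1 - (p:ℝ)⁻¹)⁻¹) ^ b := by
    unfold Yf
    rw [norm_prod, ← Finset.prod_inv_distrib]
    apply Finset.prod_le_prod (fun p _ => by positivity)
    intro p hp
    exact (local_bd H (hSm p hp).1 (hSm p hp).2.1 t).2
  have hYne : Yf N i P ⌊y⌋₊ t ≠ 0 := by
    rw [Yf_eq H t]
    exact Complex.exp_ne_zero _
  refine ⟨h1.trans hprod, ?_⟩
  exact inv_le_of_inv_le₀ (norm_pos_iff.mpr hYne) (h2.trans hprod)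

/-- degree zero -/
lemma Yf_zero (H : Hyp N i 0 P) (x : ℕ) (t : ℝ) : Yf N i P x t = 1 := by
  unfold Yf
  apply Finset.prod_eq_one
  intro p hp
  rw [mem_filter] at hp
  have h1 := H.hdeg p hp.2.1 hp.2.2
  have h2 := H.h0 p hp.2.1 hp.2.2
  have h3 : P p = Polynomial.C ((P p).coeff 0) := Polynomial.eq_C_of_natDegree_le_zero h1
  rw [h3, Polynomial.eval_C] at h2
  rw [h3, Polynomial.eval_C, h2, inv_one]

lemma Hyp_mono {b' : ℕ} (H : Hyp N i b P) (h : b ≤ b') : Hyp N i b' P :=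
  ⟨H.N0, H.h0, fun p hp hpN => (H.hdeg p hp hpN).trans h, H.hroots⟩

/-- large deviations -/
theorem ldev (β : ℕ) : ∃ C : ℝ, 3 ≤ C ∧ ∀ T : ℝ, C ≤ T → ∀ V : ℝ, 1 ≤ V → V ≤ Real.log T →
    ∀ (N i b : ℕ) (P : ℕ → Polynomial ℂ), Hyp N i b P → b ≤ β → ∃ Z : Set ℝ, MeasurableSet Z ∧
      (∀ a : ℝ, volume (Z ∩ Set.Icc a (a + T)) ≤ ENNReal.ofReal (T ^ (C * Real.log (Real.log T) / V))) ∧
      ∀ t, t ∉ Z → ∀ l : ℂ, Tendsto (fun x : ℕ => Yf N i P x t) atTop (𝓝 l) →
        V ^ (-(b:ℝ)) ≤ ‖l‖ ∧ ‖l‖ ≤ V ^ (b:ℝ) := by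
  obtain ⟨A, hA1, hA⟩ := Yf_bd
  have hev := (shortY β).and (Real.tendsto_log_atTop.eventually (eventually_ge_atTop 3))
  obtain ⟨T0, hT0⟩ := eventually_atTop.mp (hev.and (eventually_ge_atTop 3))
  refine ⟨max (max 3 T0) (42 * A), le_trans (le_max_left _ _) (le_max_left _ _), ?_⟩
  intro T hT V hV1 hVL N i b P H hbβ
  set C := max (max 3 T0) (42 * A) with hC
  have hC42 : 42 * A ≤ C := le_max_right _ _
  have hTT0 : T0 ≤ T := ((le_max_right _ _).trans (le_max_left _ _)).trans hT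
  obtain ⟨⟨hsh, hL3⟩, hT3⟩ := hT0 T hTT0
  have hTpos : 0 < T := by linarith
  set L := Real.log T with hLdef
  have hL0 : 0 < L := by linarith
  have hlogL : 1 ≤ Real.log L := by
    rw [Real.le_log_iff_exp_le hL0]
    have := Real.exp_one_lt_d9
    linarith
  have hV0 : 0 < V := by linarith
  have hTC : T ^ (C * Real.log L / V) = Real.exp (C * (L * Real.log L / V)) := by
    rw [Real.rpow_def_of_pos hTpos]
    congr 1
    ring
  rw [hTC]
  by_cases hcase : V < 4 * A * Real.log L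
  · refine ⟨Set.univ, MeasurableSet.univ, ?_, fun t ht => absurd (Set.mem_univ t) ht⟩
    intro a
    rw [Set.univ_inter, Real.volume_Icc, add_sub_cancel_left]
    apply ENNReal.ofReal_le_ofReal
    have hTL : T = Real.exp L := (Real.exp_log hTpos).symm
    calc T = Real.exp L := hTL
      _ ≤ Real.exp (C * (L * Real.log L / V)) := by
        rw [Real.exp_le_exp, ← mul_div_assoc, le_div_iff₀ hV0]
        have : V ≤ C * Real.log L := by nlinarith
        nlinarith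
  · push Not at hcase
    set y := Real.exp (V / (2 * A)) with hy
    have hA0 : 0 < A := by linarith
    have hlogy : Real.log y = V / (2 * A) := Real.log_exp _
    have hy1 : L ^ 2 ≤ y := by
      have h1 : L ^ 2 = Real.exp (2 * Real.log L) := by
        rw [two_mul, Real.exp_add, Real.exp_log hL0]
        ring
      rw [h1, hy, Real.exp_le_exp, le_div_iff₀ (by positivity)]
      linarith
    have hy2 : y ≤ T := by
      have hTL : T = Real.exp L := (Real.exp_log hTpos).symm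
      rw [hTL, hy, Real.exp_le_exp, div_le_iff₀ (by positivity)]
      nlinarith
    have hy3 : 3 ≤ y := by nlinarith
    obtain ⟨Z, hZ1, hZ2, hZ3⟩ := hsh y hy1 hy2 N i P (Hyp_mono H hbβ)
    refine ⟨Z, hZ1, ?_, ?_⟩
    · intro a
      refine (hZ2 a).trans (ENNReal.ofReal_le_ofReal ?_)
      rw [Real.exp_le_exp, hlogy]
      have e : 21 * (L * Real.log L / (V / (2 * A))) = (42 * A) * (L * Real.log L / V) := by
        field_simp
        ring
      rw [e]
      exact mul_le_mul_of_nonneg_right hC42 (by positivity)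
    · intro t ht l hl
      rw [Real.rpow_neg hV0.le, Real.rpow_natCast]
      rcases Nat.eq_zero_or_pos b with hb | hb
      · subst hb
        have h1 : l = 1 := by
          apply tendsto_nhds_unique hl
          apply tendsto_const_nhds.congr
          intro x
          exact (Yf_zero H x t).symm
        rw [h1]
        simp
      · have h1 := hZ3 t ht l hl
        obtain ⟨h2, h3⟩ := hA N i b P H y hy3 t
        set Y := Yf N i P ⌊y⌋₊ t with hY
        have hYne : Y ≠ 0 := by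
          rw [hY, Yf_eq H t]
          exact Complex.exp_ne_zero _
        have hYpos : 0 < ‖Y‖ := norm_pos_iff.mpr hYne
        have hAl : A * Real.log y = V / 2 := by
          rw [hlogy]
          field_simp
        rw [hAl] at h2 h3
        have h4 : 1 / L ≤ 1 / 3 := one_div_le_one_div_of_le (by norm_num) hL3
        have h5 : ‖l‖ = ‖l / Y‖ * ‖Y‖ := by
          rw [norm_div, div_mul_cancel₀ _ hYpos.ne']
        have h6 : ‖l / Y‖ ≤ 4 / 3 := by
          have := norm_add_le (l / Y - 1) 1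
          rw [sub_add_cancel, norm_one] at this
          linarith
        have h7 : 2 / 3 ≤ ‖l / Y‖ := by
          have := norm_sub_norm_le (1:ℂ) (1 - l / Y)
          rw [sub_sub_cancel, norm_one, norm_sub_rev] at this
          linarith
        have hpow : (V / 2) ^ b * 2 ^ b = V ^ b := by
          rw [← mul_pow]
          congr 1
          ring
        have h2b : (2:ℝ) ≤ 2 ^ b := by
          calc (2:ℝ) = 2 ^ 1 := by norm_num
            _ ≤ 2 ^ b := pow_le_pow_right₀ (by norm_num) hb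
        have hV2 : 0 < (V / 2) ^ b := by positivity
        constructor
        · rw [h5, ← hpow]
          calc ((V / 2) ^ b * 2 ^ b)⁻¹ = (2 ^ b)⁻¹ * ((V / 2) ^ b)⁻¹ := by
                rw [mul_inv, mul_comm]
            _ ≤ (2 / 3) * ((V / 2) ^ b)⁻¹ := by
                apply mul_le_mul_of_nonneg_right _ (by positivity)
                rw [inv_le_comm₀ (by positivity) (by norm_num)]
                linarith
            _ ≤ ‖l / Y‖ * ‖Y‖ := mul_le_mul h7 h3 (by positivity) (norm_nonneg _)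
        · rw [h5, ← hpow]
          calc ‖l / Y‖ * ‖Y‖ ≤ 4 / 3 * (V / 2) ^ b := mul_le_mul h6 h2 (norm_nonneg _) (by norm_num)
            _ = (V / 2) ^ b * (4 / 3) := by ring
            _ ≤ (V / 2) ^ b * 2 ^ b := by
                apply mul_le_mul_of_nonneg_left _ hV2.le
                linarith

end Pool.Agent.H86.EDGE
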