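import Mathlib
import Pool.Agent.H86.EDGE.Bound
import Pool.Agent.H5.GR.SM

/-!
The doubly exponential decay of the tails of the values on the edge.
-/

open Finset Complex MeasureTheory Filter Topology

namespace Pool.Agent.H86.EDGE

open Pool.ER (ee norm_ee continuous_ee AA)
open Pool.H48.ER
open Pool.Agent.H89.EdgeBasic (Hyp)
open Pool.Agent.H91.Edge

/-- the size conditions for the exponential moments -/
lemma size2 (β : ℝ) (hβ : 0 ≤ β) (B : ℕ) : ∀ᶠ L : ℝ in atTop, ∀ n : ℕ, (n:ℝ) ≤ Real.sqrt L → ∃ K : ℕ,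
    (n:ℝ) * β * (1 + B * Real.log L) ≤ K + 1 ∧
    ∀ k : ℕ, k ≤ K → 4 * (L ^ B) ^ k * (1 + k * (B * Real.log L)) ≤ Real.exp L := by
  -- with `L = u ^ 2`: everything is `O(u polylog u)`
  have e1 : ∀ᶠ L : ℝ in atTop, 16 * (B + 1) * (β + 1) * (1 + B) * (Real.log L) ^ 2 ≤ Real.sqrt L := by
    have h1 : (fun L : ℝ => Real.log L ^ 2) =o[atTop] fun L : ℝ => Real.sqrt L := by
      have h2 : (fun L : ℝ => Real.log L ^ 2) =o[atTop] fun L : ℝ => L ^ (1/2 : ℝ) := by
        have h3 := isLittleO_log_rpow_atTop (show (0:ℝ) < 1/4 by norm_num)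
        have h4 := h3.pow (n := 2) (by norm_num)
        refine h4.congr' (Eventually.of_forall fun _ => rfl) ?_
        filter_upwards [eventually_ge_atTop 0] with L hL
        rw [← Real.rpow_natCast, ← Real.rpow_mul hL]
        norm_num
      refine h2.congr' (Eventually.of_forall fun _ => rfl) ?_
      filter_upwards with L
      rw [Real.sqrt_eq_rpow]
    have h5 := h1.bound (c := (16 * (B + 1) * (β + 1) * (1 + B) : ℝ)⁻¹) (by positivity)
    filter_upwards [h5] with L h6
    rw [Real.norm_of_nonneg (by positivity), Real.norm_of_nonneg (Real.sqrt_nonneg _)] at h6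
    rw [inv_mul_eq_div, le_div_iff₀ (by positivity)] at h6
    linarith
  filter_upwards [e1, eventually_ge_atTop 64] with L h1 hL64
  intro n hn
  have hL0 : 0 < L := by linarith
  have hlogL : 1 ≤ Real.log L := by
    rw [Real.le_log_iff_exp_le hL0]
    have := Real.exp_one_lt_d9
    linarith
  set u := Real.sqrt L with hu
  have hu2 : u * u = L := Real.mul_self_sqrt hL0.le
  have hu8 : 8 ≤ u := by
    rw [hu]
    apply Real.le_sqrt_of_sq_le
    linarith
  have hn0 : (0:ℝ) ≤ n := Nat.cast_nonneg n
  have hB0 : (0:ℝ) ≤ B := Nat.cast_nonneg B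
  refine ⟨⌊(n:ℝ) * β * (1 + B * Real.log L)⌋₊, (Nat.lt_floor_add_one _).le, ?_⟩
  intro k hk
  have hk1 : (k:ℝ) ≤ n * β * (1 + B * Real.log L) := by
    have h2 : (k:ℝ) ≤ ⌊(n:ℝ) * β * (1 + B * Real.log L)⌋₊ := by exact_mod_cast hk
    exact h2.trans (Nat.floor_le (by positivity))
  have hk2 : (k:ℝ) ≤ u * (β + 1) * ((1 + B) * Real.log L) := by
    refine hk1.trans ?_
    have h3 : 1 + B * Real.log L ≤ (1 + B) * Real.log L := by nlinarith
    apply mul_le_mul _ h3 (by positivity) (by positivity)
    apply mul_le_mul hn (by linarith) hβ (by linarith)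
  have hk0 : (0:ℝ) ≤ k := Nat.cast_nonneg k
  have hkB : (k:ℝ) * (B * Real.log L) ≤ L / 16 := by
    calc (k:ℝ) * (B * Real.log L) ≤ (u * (β + 1) * ((1 + B) * Real.log L)) * ((B + 1) * Real.log L) := by
          apply mul_le_mul hk2 _ (by positivity) (by positivity)
          nlinarith
      _ = (16 * (B + 1) * (β + 1) * (1 + B) * (Real.log L) ^ 2) * u / 16 := by ring
      _ ≤ u * u / 16 := by
          apply div_le_div_of_nonneg_right _ (by norm_num)
          exact mul_le_mul_of_nonneg_right h1 (by linarith)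
      _ = L / 16 := by rw [hu2]
  have hpow : (L ^ B) ^ k = Real.exp (k * (B * Real.log L)) := by
    rw [← pow_mul, ← Real.exp_log (show 0 < L ^ (B * k) by positivity), Real.log_pow]
    congr 1
    push_cast
    ring
  rw [hpow]
  calc 4 * Real.exp (k * (B * Real.log L)) * (1 + k * (B * Real.log L)) ≤
      4 * Real.exp (L / 16) * (1 + L / 16) := by
        gcongr
    _ ≤ Real.exp (L / 2) * Real.exp (L / 2) := by
        have h2 : 1 + L / 16 ≤ Real.exp (L / 16) := by
          have := Real.add_one_le_exp (L / 16)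
          linarith
        have h3 : 4 ≤ Real.exp (L / 16) := by
          have h4 := Real.add_one_le_exp (L / 16)
          linarith
        have h5 : 0 < Real.exp (L / 16) := Real.exp_pos _
        have h6 : Real.exp (L / 16) * Real.exp (L / 16) * Real.exp (L / 16) ≤
            Real.exp (L / 2) * Real.exp (L / 2) := by
          rw [← Real.exp_add, ← Real.exp_add, ← Real.exp_add, Real.exp_le_exp]
          linarith
        have h7 : 4 * Real.exp (L / 16) * (1 + L / 16) ≤
            Real.exp (L / 16) * Real.exp (L / 16) * Real.exp (L / 16) := by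
          gcongr
        linarith
    _ = Real.exp L := by rw [← Real.exp_add, add_halves]

/-- the tail of the sum of the inverse squares -/
lemma sum_inv_sq_gt {n : ℕ} (hn : 1 ≤ n) (S : Finset ℕ) (hS : ∀ p ∈ S, n < p) :
    ∑ p ∈ S, ((p:ℝ) ^ 2)⁻¹ ≤ (n:ℝ)⁻¹ := by
  set m := max (S.sup id) n with hm
  have h1 : S ⊆ Finset.Ioc n m := by
    intro p hp
    rw [mem_Ioc]
    refine ⟨hS p hp, ?_⟩
    have := Finset.le_sup (f := id) hp
    exact this.trans (le_max_left _ _)
  have h2 := sum_Ioc_inv_sq_le_sub (α := ℝ) (k := n) (n := m) (by omega) (le_max_right _ _)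
  have h3 : (0:ℝ) ≤ (m:ℝ)⁻¹ := by positivity
  calc ∑ p ∈ S, ((p:ℝ) ^ 2)⁻¹ ≤ ∑ p ∈ Finset.Ioc n m, ((p:ℝ) ^ 2)⁻¹ := by
        apply sum_le_sum_of_subset_of_nonneg h1
        intro p _ _
        positivity
    _ ≤ (n:ℝ)⁻¹ - (m:ℝ)⁻¹ := h2
    _ ≤ (n:ℝ)⁻¹ := by linarith

/-- doubly exponential tails -/
theorem dexp (β : ℕ) : ∃ C : ℝ, 3 ≤ C ∧ ∀ T : ℝ, C ≤ T → ∀ V : ℝ, 1 ≤ V → V ≤ Real.log (Real.log T) →
    ∀ (N i b : ℕ) (P : ℕ → Polynomial ℂ), Hyp N i b P → b ≤ β → ∃ Z : Set ℝ, MeasurableSet Z ∧
      (∀ a : ℝ, volume (Z ∩ Set.Icc a (a + T)) ≤ ENNReal.ofReal (C * T * Real.exp (-Real.exp (V / C)))) ∧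
      ∀ t, t ∉ Z → ∀ l : ℂ, Tendsto (fun x : ℕ => Yf N i P x t) atTop (𝓝 l) →
        V ^ (-(b:ℝ)) ≤ ‖l‖ ∧ ‖l‖ ≤ V ^ (b:ℝ) := by
  obtain ⟨A, hA1, hA⟩ := Yf_bd
  obtain ⟨B, hB1, hsh⟩ := short β (show (0:ℝ) < 1/2 by norm_num)
  have hβ0 : (0:ℝ) ≤ β := Nat.cast_nonneg β
  have hsz := size2 β hβ0 B
  have hev := (hsh.and (Real.tendsto_log_atTop.eventually hsz)).and
    (Real.tendsto_log_atTop.eventually (eventually_ge_atTop 4))
  obtain ⟨T0, hT0⟩ := eventually_atTop.mp (hev.and (eventually_ge_atTop 3))
  set R : ℝ := Real.exp (β ^ 2 + 1) with hR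
  have hR1 : 1 ≤ R := Real.one_le_exp (by positivity)
  set D : ℝ := 2 * R * Real.exp (2 * β) * A with hD
  have hE2 : 1 ≤ Real.exp (2 * (β:ℝ)) := Real.one_le_exp (by positivity)
  have hRE : 1 ≤ R * Real.exp (2 * β) := by nlinarith
  have hD2 : 2 ≤ D := by
    rw [hD]
    nlinarith
  refine ⟨max (max 3 T0) (max 150 D), le_trans (le_max_left _ _) (le_max_left _ _), ?_⟩
  intro T hT V hV1 hVL N i b P H hbβ
  set C := max (max 3 T0) (max 150 D) with hC
  have hC150 : 150 ≤ C := (le_max_left _ _).trans (le_max_right _ _)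
  have hCD : D ≤ C := (le_max_right _ _).trans (le_max_right _ _)
  have hTT0 : T0 ≤ T := ((le_max_right _ _).trans (le_max_left _ _)).trans hT
  obtain ⟨⟨⟨hsh, hsz⟩, hL4⟩, hT3⟩ := hT0 T hTT0
  have hTpos : 0 < T := by linarith
  set L := Real.log T with hLdef
  have hL0 : 0 < L := by linarith
  have hTL : Real.exp L = T := Real.exp_log hTpos
  have hV0 : 0 < V := by linarith
  have hVC : V / C ≤ V / D := div_le_div_of_nonneg_left hV0.le (by linarith) hCD
  set n : ℕ := ⌊Real.exp (V / D)⌋₊ with hn
  have hn1 : (n:ℝ) ≤ Real.exp (V / D) := Nat.floor_le (Real.exp_pos _).le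
  have hn2 : Real.exp (V / D) < n + 1 := Nat.lt_floor_add_one _
  -- the bound for the measure
  have hmeas : 49 * T * Real.exp (-(n:ℝ)) ≤ C * T * Real.exp (-Real.exp (V / C)) := by
    have h1 : Real.exp (-(n:ℝ)) ≤ Real.exp 1 * Real.exp (-Real.exp (V / C)) := by
      rw [← Real.exp_add, Real.exp_le_exp]
      have : Real.exp (V / C) ≤ Real.exp (V / D) := Real.exp_le_exp.mpr hVC
      linarith
    have h2 := Real.exp_one_lt_d9
    have h3 : 0 < Real.exp (-Real.exp (V / C)) := Real.exp_pos _
    calc 49 * T * Real.exp (-(n:ℝ)) ≤ 49 * T * (Real.exp 1 * Real.exp (-Real.exp (V / C))) := by gcongr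
      _ = (49 * Real.exp 1) * (T * Real.exp (-Real.exp (V / C))) := by ring
      _ ≤ C * (T * Real.exp (-Real.exp (V / C))) := by
          apply mul_le_mul_of_nonneg_right _ (by positivity)
          linarith
      _ = _ := by ring
  by_cases hcase : n < 3
  · refine ⟨Set.univ, MeasurableSet.univ, ?_, fun t ht => absurd (Set.mem_univ t) ht⟩
    intro a
    rw [Set.univ_inter, Real.volume_Icc, add_sub_cancel_left]
    apply ENNReal.ofReal_le_ofReal
    refine le_trans ?_ hmeas
    have h1 : Real.exp (-2) ≤ Real.exp (-(n:ℝ)) := by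
      rw [Real.exp_le_exp]
      have : (n:ℝ) ≤ 2 := by exact_mod_cast (by omega : n ≤ 2)
      linarith
    have h2 : 1 ≤ 49 * Real.exp (-2) := by
      rw [Real.exp_neg, ← div_eq_mul_inv, le_div_iff₀ (Real.exp_pos _)]
      have h3 : Real.exp 2 = Real.exp 1 * Real.exp 1 := by
        rw [← Real.exp_add]
        norm_num
      have := Real.exp_one_lt_d9
      have h4 : 0 < Real.exp 1 := Real.exp_pos _
      rw [h3]
      nlinarith
    calc T = T * 1 := (mul_one T).symm
      _ ≤ T * (49 * Real.exp (-2)) := mul_le_mul_of_nonneg_left h2 hTpos.le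
      _ ≤ T * (49 * Real.exp (-(n:ℝ))) := by gcongr
      _ = _ := by ring
  · have hn3 : 3 ≤ n := by omega
    have hn3' : (3:ℝ) ≤ n := by exact_mod_cast hn3
    have hn0 : (0:ℝ) < n := by linarith
    have hnL : (n:ℝ) ≤ Real.sqrt L := by
      refine hn1.trans ?_
      rw [Real.sqrt_eq_rpow, Real.rpow_def_of_pos hL0]
      rw [Real.exp_le_exp]
      calc V / D ≤ V / 2 := div_le_div_of_nonneg_left hV0.le (by norm_num) hD2
        _ ≤ Real.log L * (1 / 2) := by linarith
    have hnL2 : (n:ℝ) ≤ L / 2 := by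
      have h1 : Real.sqrt L * Real.sqrt L = L := Real.mul_self_sqrt hL0.le
      have h2 : 2 ≤ Real.sqrt L := Real.le_sqrt_of_sq_le (by linarith)
      nlinarith
    obtain ⟨K, hK1, hK2⟩ := hsz n hnL
    obtain ⟨Z, hZ1, hZ2, hZ3⟩ := hsh N i P (Hyp_mono H hbβ)
    set α : ℕ → ℂ := ft N i P 0 with hα
    have hadm := adm_ft H 0
    have hαb : ∀ p, ‖α p‖ ≤ (β:ℝ) := fun p => (hadm.bd p).trans (by exact_mod_cast hbβ)
    set x0 : ℕ := ⌊L ^ B⌋₊ with hx0
    have hx0L : (x0:ℝ) ≤ L ^ B := Nat.floor_le (by positivity)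
    set S : Finset ℕ := (range (x0 + 1)).filter (fun p => p.Prime ∧ n < p) with hS
    have hSp : ∀ p ∈ S, p.Prime ∧ p ≤ x0 := by
      intro p hp
      rw [hS, mem_filter, mem_range] at hp
      exact ⟨hp.2.1, by omega⟩
    have hSn : ∀ p ∈ S, n < p := by
      intro p hp
      rw [hS, mem_filter] at hp
      exact hp.2.2
    set W : ℝ → ℂ := fun t => ∑ p ∈ S, α p * (p:ℂ)⁻¹ * ee (Real.log p) t with hW
    have hWc : Continuous W := continuous_psum α S
    have hlogx0 : Real.log x0 ≤ B * Real.log L := by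
      rcases Nat.eq_zero_or_pos x0 with h | h
      · rw [h]
        have : 0 ≤ Real.log L := Real.log_nonneg (by linarith)
        simp
        positivity
      · have := Real.log_le_log (by exact_mod_cast h) hx0L
        rwa [Real.log_pow] at this
    -- the exponential moments
    have hmom : ∀ s : ℝ, |s| = 1 → ∀ a : ℝ,
        ∫ t in a..(a + T), ‖cexp (((s * n / 2 : ℝ) : ℂ) * W t)‖ ^ 2 ≤
          24 * Real.exp (n * β ^ 2 / 2) * T := by
      intro s hs a
      set c : ℕ → ℂ := fun p => ((s * n / 2 : ℝ) : ℂ) * (α p * (p:ℂ)⁻¹) with hc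
      have hcn : ∀ p, ‖c p‖ ≤ (n / 2 * β) * (p:ℝ)⁻¹ := by
        intro p
        simp only [hc]
        rw [norm_mul, Complex.norm_real, Real.norm_eq_abs, abs_div, abs_mul, hs, one_mul, abs_of_pos hn0,
          abs_of_pos (by norm_num : (0:ℝ) < 2), mul_assoc]
        apply mul_le_mul_of_nonneg_left _ (by positivity)
        exact norm_tl hαb p
      have h1 : ∑ p ∈ S, ‖c p‖ ^ 2 ≤ n * β ^ 2 / 4 := by
        calc ∑ p ∈ S, ‖c p‖ ^ 2 ≤ ∑ p ∈ S, (n / 2 * β) ^ 2 * ((p:ℝ) ^ 2)⁻¹ := by
              apply sum_le_sum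
              intro p _
              have := pow_le_pow_left₀ (norm_nonneg _) (hcn p) 2
              rw [mul_pow, inv_pow] at this
              exact this
          _ = (n / 2 * β) ^ 2 * ∑ p ∈ S, ((p:ℝ) ^ 2)⁻¹ := by rw [mul_sum]
          _ ≤ (n / 2 * β) ^ 2 * (n:ℝ)⁻¹ :=
              mul_le_mul_of_nonneg_left (sum_inv_sq_gt (by omega) S hSn) (by positivity)
          _ = n * β ^ 2 / 4 := by
              field_simp
              ring
      have h2 : ∑ p ∈ S, ‖c p‖ ≤ (K + 1) / 2 := by
        have hH : ∑ d ∈ Icc 1 x0, ((d:ℝ))⁻¹ ≤ 1 + Real.log x0 := by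
          have h := harmonic_le_one_add_log x0
          rw [harmonic_eq_sum_Icc] at h
          push_cast at h
          exact h
        calc ∑ p ∈ S, ‖c p‖ ≤ ∑ p ∈ S, (n / 2 * β) * (p:ℝ)⁻¹ := sum_le_sum fun p _ => hcn p
          _ ≤ ∑ p ∈ Icc 1 x0, (n / 2 * β) * (p:ℝ)⁻¹ := by
              apply sum_le_sum_of_subset_of_nonneg
              · intro p hp
                rw [mem_Icc]
                exact ⟨(hSp p hp).1.pos, (hSp p hp).2⟩
              · intro p _ _
                positivity
          _ = (n / 2 * β) * ∑ p ∈ Icc 1 x0, (p:ℝ)⁻¹ := by rw [mul_sum]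
          _ ≤ (n / 2 * β) * (1 + B * Real.log L) := by
              apply mul_le_mul_of_nonneg_left _ (by positivity)
              linarith
          _ = (n * β * (1 + B * Real.log L)) / 2 := by ring
          _ ≤ _ := by linarith
      have h3 : ∀ k : ℕ, k ≤ K → 4 * (x0:ℝ) ^ k * (1 + k * Real.log x0) ≤ T := by
        intro k hk
        refine le_trans ?_ ((hK2 k hk).trans_eq hTL)
        have h4 : 0 ≤ Real.log x0 := Real.log_natCast_nonneg x0
        have h5 : (x0:ℝ) ^ k ≤ (L ^ B) ^ k := pow_le_pow_left₀ (Nat.cast_nonneg x0) hx0L k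
        have h6 : 1 + (k:ℝ) * Real.log x0 ≤ 1 + k * (B * Real.log L) := by
          have := mul_le_mul_of_nonneg_left hlogx0 (Nat.cast_nonneg (α := ℝ) k)
          linarith
        apply mul_le_mul _ h6 (by positivity) (by positivity)
        linarith
      have h4 := Pool.Agent.H5.GR.exp_mean S hSp c a hTpos.le h1 K h2 h3
      have h5 : ∀ t : ℝ, ((s * n / 2 : ℝ) : ℂ) * W t = ∑ p ∈ S, c p * ee (Real.log p) t := by
        intro t
        simp only [hW, hc]
        rw [mul_sum]
        apply sum_congr rfl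
        intro p _
        ring
      simp_rw [h5]
      refine h4.trans_eq ?_
      congr 3
      ring
    -- the exceptional sets of the exponential moments
    set Bs : ℝ → Set ℝ := fun s => {t | R ^ ((n:ℝ) / 2) ≤ ‖cexp (((s * n / 2 : ℝ) : ℂ) * W t)‖} with hBs
    have hBcont : ∀ s : ℝ, Continuous fun t => cexp (((s * n / 2 : ℝ) : ℂ) * W t) := fun s =>
      (hWc.const_mul _).cexp
    have hBm : ∀ s : ℝ, MeasurableSet (Bs s) := fun s =>
      (isClosed_le continuous_const (hBcont s).norm).measurableSet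
    have hR0 : 0 < R := by linarith
    have hBv : ∀ s : ℝ, |s| = 1 → ∀ a : ℝ, volume (Bs s ∩ Set.Icc a (a + T)) ≤
        ENNReal.ofReal (24 * T * Real.exp (-(n:ℝ))) := by
      intro s hs a
      refine (markov (hBcont s) (Real.rpow_pos_of_pos hR0 _) 2 a hTpos.le).trans ?_
      apply ENNReal.ofReal_le_ofReal
      have h1 : (R ^ ((n:ℝ) / 2)) ^ 2 = Real.exp (n * (β ^ 2 + 1)) := by
        rw [← Real.rpow_natCast, ← Real.rpow_mul hR0.le, hR, ← Real.exp_mul]
        congr 1
        push_cast
        ring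
      rw [h1, div_le_iff₀ (Real.exp_pos _)]
      refine (hmom s hs a).trans ?_
      have h2 : 24 * T * Real.exp (-(n:ℝ)) * Real.exp (n * (β ^ 2 + 1)) = 24 * T * Real.exp (n * β ^ 2) := by
        rw [mul_assoc (24 * T), ← Real.exp_add]
        congr 2
        ring
      rw [h2]
      have h3 : Real.exp (n * β ^ 2 / 2) ≤ Real.exp (n * β ^ 2) := by
        rw [Real.exp_le_exp]
        have : 0 ≤ (n:ℝ) * β ^ 2 := by positivity
        linarith
      calc 24 * Real.exp (n * β ^ 2 / 2) * T ≤ 24 * Real.exp (n * β ^ 2) * T := by gcongr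
        _ = _ := by ring
    refine ⟨Z ∪ (Bs 1 ∪ Bs (-1)), hZ1.union ((hBm 1).union (hBm (-1))), ?_, ?_⟩
    · intro a
      have hZa : volume (Z ∩ Set.Icc a (a + T)) ≤ ENNReal.ofReal (T * Real.exp (-(n:ℝ))) := by
        refine (hZ2 a).trans (ENNReal.ofReal_le_ofReal ?_)
        have h1 : T ^ (1 / 2 : ℝ) = Real.exp (L / 2) := by
          rw [Real.rpow_def_of_pos hTpos]
          congr 1
          ring
        have h2 : T * Real.exp (-(n:ℝ)) = Real.exp (L - n) := by
          rw [← hTL, ← Real.exp_add]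
          congr 1
        rw [h1, h2, Real.exp_le_exp]
        linarith
      have h1 := hBv 1 (by norm_num) a
      have h2 := hBv (-1) (by norm_num) a
      rw [Set.union_inter_distrib_right, Set.union_inter_distrib_right]
      refine (measure_union_le _ _).trans ?_
      refine (add_le_add hZa (measure_union_le _ _)).trans ?_
      refine (add_le_add le_rfl (add_le_add h1 h2)).trans ?_
      rw [← ENNReal.ofReal_add (by positivity) (by positivity),
        ← ENNReal.ofReal_add (by positivity) (by positivity)]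
      apply ENNReal.ofReal_le_ofReal
      refine le_trans (le_of_eq ?_) hmeas
      ring
    · intro t ht l hl
      rw [Set.mem_union, Set.mem_union, not_or, not_or] at ht
      obtain ⟨ht1, ht2, ht3⟩ := ht
      rw [Real.rpow_neg hV0.le, Real.rpow_natCast]
      rcases Nat.eq_zero_or_pos b with hb | hb
      · subst hb
        have h1 : l = 1 := by
          apply tendsto_nhds_unique hl
          apply tendsto_const_nhds.congr
          intro x
          exact (Yf_zero H x t).symm
        rw [h1]
        simp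
      · have h1 := hZ3 t ht1 l hl
        set Y := Yf N i P x0 t with hY
        have hYne : Y ≠ 0 := by
          rw [hY, Yf_eq H t]
          exact Complex.exp_ne_zero _
        have hYpos : 0 < ‖Y‖ := norm_pos_iff.mpr hYne
        -- the real part of `W`
        have hre : ∀ s : ℝ, |s| = 1 → t ∉ Bs s → s * (W t).re ≤ β ^ 2 + 1 := by
          intro s hs hts
          have h2 : ‖cexp (((s * n / 2 : ℝ) : ℂ) * W t)‖ < R ^ ((n:ℝ) / 2) := by
            by_contra hcon
            push Not at hcon
            exact hts hcon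
          rw [Complex.norm_exp, hR, ← Real.exp_mul, Real.exp_lt_exp, Complex.re_ofReal_mul] at h2
          have h3 : (n:ℝ) / 2 * (s * (W t).re) < (n:ℝ) / 2 * (β ^ 2 + 1) := by
            calc (n:ℝ) / 2 * (s * (W t).re) = s * n / 2 * (W t).re := by ring
              _ < (β ^ 2 + 1) * (n / 2) := h2
              _ = _ := by ring
          exact (lt_of_mul_lt_mul_left h3 (by positivity)).le
        have hre1 := hre 1 (by norm_num) ht2
        have hre2 := hre (-1) (by norm_num) ht3
        have hnx0 : n ≤ x0 := by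
          rw [hx0]
          apply Nat.le_floor
          have h2 : Real.sqrt L * Real.sqrt L = L := Real.mul_self_sqrt hL0.le
          have h3 : 2 ≤ Real.sqrt L := Real.le_sqrt_of_sq_le (by linarith)
          have h4 : L ^ 1 ≤ L ^ B := pow_le_pow_right₀ (by linarith) hB1
          rw [pow_one] at h4
          nlinarith
        set G : ℂ := (∑ m ∈ Finset.range (x0+1), gg N i P t m) - ∑ m ∈ Finset.range (n+1), gg N i P t m with hG
        have hGn : ‖G‖ ≤ 2 * β := by
          have g1 := gg_tail H t (show 1 ≤ x0 by omega)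
          have g2 := gg_tail H t (show 1 ≤ n by omega)
          have e : G = ((∑ m ∈ Finset.range (x0+1), gg N i P t m) - ∑' m, gg N i P t m) -
              ((∑ m ∈ Finset.range (n+1), gg N i P t m) - ∑' m, gg N i P t m) := by
            rw [hG]
            ring
          have hb' : (b:ℝ) ≤ β := by exact_mod_cast hbβ
          have hb0 : (0:ℝ) ≤ b := Nat.cast_nonneg b
          have g3 : (b:ℝ) / x0 ≤ β := by
            have hx1 : (1:ℝ) ≤ x0 := by exact_mod_cast (show 1 ≤ x0 by omega)
            exact (div_le_self hb0 hx1).trans hb'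
          have g4 : (b:ℝ) / n ≤ β := (div_le_self hb0 (by linarith)).trans hb'
          rw [e]
          have := norm_sub_le ((∑ m ∈ Finset.range (x0+1), gg N i P t m) - ∑' m, gg N i P t m)
            ((∑ m ∈ Finset.range (n+1), gg N i P t m) - ∑' m, gg N i P t m)
          linarith
        have hAA : AA α x0 t = AA α n t + W t := by
          unfold AA
          simp only [hW]
          have e2 : (range (x0 + 1)).filter (fun p => p.Prime) =
              (range (n + 1)).filter (fun p => p.Prime) ∪ S := by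
            ext p
            simp only [hS, mem_union, mem_filter, mem_range]
            constructor
            · rintro ⟨h2, h3⟩
              by_cases h4 : p < n + 1
              · left
                exact ⟨h4, h3⟩
              · right
                exact ⟨h2, h3, by omega⟩
            · rintro (⟨h2, h3⟩ | ⟨h2, h3, _⟩)
              · exact ⟨by omega, h3⟩
              · exact ⟨h2, h3⟩
          have d2 : Disjoint ((range (n + 1)).filter (fun p => p.Prime)) S := by
            rw [Finset.disjoint_left]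
            intro p h2 h3
            simp only [hS, mem_filter, mem_range] at h2 h3
            omega
          rw [e2, sum_union d2]
        have hYeq : Y = Yf N i P n t * cexp (W t + G) := by
          rw [hY, Yf_eq H t x0, Yf_eq H t n, ← Complex.exp_add, hAA]
          congr 1
          rw [hG]
          ring
        have hYn := hA N i b P H (n:ℝ) hn3' t
        rw [Nat.floor_natCast] at hYn
        obtain ⟨hYn1, hYn2⟩ := hYn
        have hexpW : ‖cexp (W t + G)‖ ≤ R * Real.exp (2 * β) ∧ (R * Real.exp (2 * β))⁻¹ ≤ ‖cexp (W t + G)‖ := by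
          have hGre := (abs_le.mp ((Complex.abs_re_le_norm G).trans hGn))
          rw [Complex.norm_exp, Complex.add_re, hR, ← Real.exp_add, ← Real.exp_neg]
          constructor
          · rw [Real.exp_le_exp]
            linarith [hGre.2]
          · rw [Real.exp_le_exp]
            linarith [hGre.1]
        set q : ℝ := R * Real.exp (2 * β) with hq
        have hq1 : 1 ≤ q := hRE
        have hq0 : 0 < q := by linarith
        have hlogn : Real.log n ≤ V / D := by
          rw [← Real.log_exp (V / D)]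
          exact Real.log_le_log hn0 hn1
        have hlogn0 : 0 < Real.log n := Real.log_pos (by linarith)
        have hA0 : 0 < A := by linarith
        have hAlog : A * Real.log n ≤ V / (2 * q) := by
          calc A * Real.log n ≤ A * (V / D) := mul_le_mul_of_nonneg_left hlogn hA0.le
            _ = V / (2 * q) := by
                rw [hD, hq]
                field_simp
        have hkey : (A * Real.log n) ^ b * q ≤ V ^ b / 2 := by
          have h2 : (A * Real.log n) ^ b ≤ (V / (2 * q)) ^ b := pow_le_pow_left₀ (by positivity) hAlog b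
          have h3 : 2 * q ≤ (2 * q) ^ b := by
            calc 2 * q = (2 * q) ^ 1 := (pow_one _).symm
              _ ≤ (2 * q) ^ b := pow_le_pow_right₀ (by linarith) hb
          calc (A * Real.log n) ^ b * q ≤ (V / (2 * q)) ^ b * q := mul_le_mul_of_nonneg_right h2 hq0.le
            _ = V ^ b * (q / (2 * q) ^ b) := by
                rw [div_pow]
                ring
            _ ≤ V ^ b * (q / (2 * q)) := by
                apply mul_le_mul_of_nonneg_left _ (by positivity)
                exact div_le_div_of_nonneg_left hq0.le (by positivity) h3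
            _ = V ^ b / 2 := by
                field_simp
        have hY1 : ‖Y‖ ≤ V ^ b / 2 := by
          rw [hYeq, norm_mul]
          exact (mul_le_mul hYn1 hexpW.1 (norm_nonneg _) (by positivity)).trans hkey
        have hY2 : 2 * (V ^ b)⁻¹ ≤ ‖Y‖ := by
          rw [hYeq, norm_mul]
          calc 2 * (V ^ b)⁻¹ = (V ^ b / 2)⁻¹ := by
                rw [inv_div]
                ring
            _ ≤ ((A * Real.log n) ^ b * q)⁻¹ := inv_anti₀ (by positivity) hkey
            _ = ((A * Real.log n) ^ b)⁻¹ * q⁻¹ := mul_inv _ _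
            _ ≤ _ := mul_le_mul hYn2 hexpW.2 (by positivity) (norm_nonneg _)
        have h4 : 1 / L ≤ 1 / 4 := one_div_le_one_div_of_le (by norm_num) hL4
        have h5 : ‖l‖ = ‖l / Y‖ * ‖Y‖ := by
          rw [norm_div, div_mul_cancel₀ _ hYpos.ne']
        have h6 : ‖l / Y‖ ≤ 5 / 4 := by
          have := norm_add_le (l / Y - 1) 1
          rw [sub_add_cancel, norm_one] at this
          linarith
        have h7 : 3 / 4 ≤ ‖l / Y‖ := by
          have := norm_sub_norm_le (1:ℂ) (1 - l / Y)
          rw [sub_sub_cancel, norm_one, norm_sub_rev] at this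
          linarith
        have hVb : 0 < V ^ b := by positivity
        constructor
        · rw [h5]
          calc (V ^ b)⁻¹ ≤ (3 / 4) * (2 * (V ^ b)⁻¹) := by
                have : 0 < (V ^ b)⁻¹ := by positivity
                linarith
            _ ≤ ‖l / Y‖ * ‖Y‖ := mul_le_mul h7 hY2 (by positivity) (norm_nonneg _)
        · rw [h5]
          calc ‖l / Y‖ * ‖Y‖ ≤ 5 / 4 * (V ^ b / 2) := mul_le_mul h6 hY1 (norm_nonneg _) (by norm_num)
            _ ≤ V ^ b := by linarith

end Pool.Agent.H86.EDGE
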