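import Mathlib
import Pool.Agent.H86.EDGE.Dexp

/-!
Item (4) of the hand-in on the behaviour at the edge.
-/

open Finset Complex MeasureTheory Filter Topology

namespace Pool.Agent.H86.EDGE

open Pool.Agent.H89.EdgeBasic (Hyp)
open Pool.Agent.H91.Edge

/-- from an exceptional set to the set where the bounds fail -/
lemma meas_le {T : ℝ} {Z : Set ℝ} {r : ENNReal} {a : ℝ} (hZ : volume (Z ∩ Set.Icc a (a + T)) ≤ r)
    {Q : ℝ → Prop} (hQ : ∀ᵐ t : ℝ, t ∉ Z → Q t) :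
    volume {t | t ∈ Set.Icc a (a + T) ∧ ¬ Q t} ≤ r := by
  have h0 : volume {t : ℝ | ¬ (t ∉ Z → Q t)} = 0 := hQ
  have h1 : {t | t ∈ Set.Icc a (a + T) ∧ ¬ Q t} ⊆ (Z ∩ Set.Icc a (a + T)) ∪ {t : ℝ | ¬ (t ∉ Z → Q t)} := by
    rintro t ⟨h2, h3⟩
    by_cases h4 : t ∈ Z
    · left
      exact ⟨h4, h2⟩
    · right
      intro h5
      exact h3 (h5 h4)
  calc _ ≤ volume (Z ∩ Set.Icc a (a + T)) + volume {t : ℝ | ¬ (t ∉ Z → Q t)} :=
        (measure_mono h1).trans (measure_union_le _ _)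
    _ ≤ r := by rw [h0, add_zero]; exact hZ

/-- item (4) -/
theorem item4 {κ : Type} (N i b : κ → ℕ) (P : κ → ℕ → Polynomial ℂ)
    (H : ∀ k, Hyp (N k) (i k) (b k) (P k)) (E : κ → ℝ → ℂ)
    (hE : ∀ k, ∀ᵐ t : ℝ, Tendsto (fun x : ℕ => Yf (N k) (i k) (P k) x t) atTop (𝓝 (E k t)))
    (β : ℕ) : ∃ C : ℝ, 3 ≤ C ∧ ∀ k : κ, b k ≤ β → ∀ T : ℝ, C ≤ T → ∀ V : ℝ, 1 ≤ V → V ≤ Real.log T →
      ∀ a : ℝ,
        volume {t | t ∈ Set.Icc a (a + T) ∧ ¬ (V ^ (-(b k:ℝ)) ≤ ‖E k t‖ ∧ ‖E k t‖ ≤ V ^ (b k:ℝ))} ≤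
          ENNReal.ofReal (T ^ (C * Real.log (Real.log T) / V)) ∧
        (V ≤ Real.log (Real.log T) →
          volume {t | t ∈ Set.Icc a (a + T) ∧ ¬ (V ^ (-(b k:ℝ)) ≤ ‖E k t‖ ∧ ‖E k t‖ ≤ V ^ (b k:ℝ))} ≤
            ENNReal.ofReal (C * T * Real.exp (-Real.exp (V / C)))) := by
  obtain ⟨C1, hC1, h1⟩ := ldev β
  obtain ⟨C2, hC2, h2⟩ := dexp β
  refine ⟨max C1 C2, hC1.trans (le_max_left _ _), ?_⟩
  intro k hk T hT V hV1 hV2 a
  have hT1 : C1 ≤ T := (le_max_left _ _).trans hT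
  have hT2 : C2 ≤ T := (le_max_right _ _).trans hT
  have hT3 : 3 ≤ T := hC1.trans hT1
  have hV0 : 0 < V := by linarith
  have hlog1 : 1 ≤ Real.log T := by
    rw [Real.le_log_iff_exp_le (by linarith)]
    have := Real.exp_one_lt_d9
    linarith
  have hll : 0 ≤ Real.log (Real.log T) := Real.log_nonneg hlog1
  constructor
  · obtain ⟨Z, _, hZ2, hZ3⟩ := h1 T hT1 V hV1 hV2 (N k) (i k) (b k) (P k) (H k) hk
    refine (meas_le (hZ2 a) (Q := fun t => V ^ (-(b k:ℝ)) ≤ ‖E k t‖ ∧ ‖E k t‖ ≤ V ^ (b k:ℝ)) ?_).trans ?_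
    · filter_upwards [hE k] with t ht hZ
      exact hZ3 t hZ _ ht
    · apply ENNReal.ofReal_le_ofReal
      apply Real.rpow_le_rpow_of_exponent_le (by linarith)
      apply div_le_div_of_nonneg_right _ hV0.le
      exact mul_le_mul_of_nonneg_right (le_max_left _ _) hll
  · intro hV3
    obtain ⟨Z, _, hZ2, hZ3⟩ := h2 T hT2 V hV1 hV3 (N k) (i k) (b k) (P k) (H k) hk
    refine (meas_le (hZ2 a) (Q := fun t => V ^ (-(b k:ℝ)) ≤ ‖E k t‖ ∧ ‖E k t‖ ≤ V ^ (b k:ℝ)) ?_).trans ?_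
    · filter_upwards [hE k] with t ht hZ
      exact hZ3 t hZ _ ht
    · apply ENNReal.ofReal_le_ofReal
      have hCC : V / max C1 C2 ≤ V / C2 :=
        div_le_div_of_nonneg_left hV0.le (by linarith) (le_max_right _ _)
      have e1 : Real.exp (-Real.exp (V / C2)) ≤ Real.exp (-Real.exp (V / max C1 C2)) := by
        rw [Real.exp_le_exp, neg_le_neg_iff, Real.exp_le_exp]
        exact hCC
      have e2 : C2 * T ≤ max C1 C2 * T := mul_le_mul_of_nonneg_right (le_max_right _ _) (by linarith)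
      exact mul_le_mul e2 e1 (Real.exp_pos _).le (by positivity)

/-- the form with the short products -/
theorem item4y {κ : Type} (N i b : κ → ℕ) (P : κ → ℕ → Polynomial ℂ)
    (H : ∀ k, Hyp (N k) (i k) (b k) (P k)) (E : κ → ℝ → ℂ)
    (hE : ∀ k, ∀ᵐ t : ℝ, Tendsto (fun x : ℕ => Yf (N k) (i k) (P k) x t) atTop (𝓝 (E k t)))
    (β : ℕ) : ∃ C : ℝ, 3 ≤ C ∧ ∀ k : κ, b k ≤ β → ∀ T : ℝ, C ≤ T → ∀ y : ℝ, Real.log T ^ 2 ≤ y → y ≤ T →
      ∀ a : ℝ,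
        volume {t | t ∈ Set.Icc a (a + T) ∧ ¬ ‖E k t / Yf (N k) (i k) (P k) ⌊y⌋₊ t - 1‖ ≤ 1 / Real.log T} ≤
          ENNReal.ofReal (T ^ (21 * Real.log (Real.log T) / Real.log y)) := by
  obtain ⟨T0, hT0⟩ := eventually_atTop.mp (shortY β)
  refine ⟨max 3 T0, le_max_left _ _, ?_⟩
  intro k hk T hT y hy1 hy2 a
  have hT3 : 3 ≤ T := (le_max_left _ _).trans hT
  have hTpos : 0 < T := by linarith
  obtain ⟨Z, _, hZ2, hZ3⟩ := hT0 T ((le_max_right _ _).trans hT) y hy1 hy2 (N k) (i k) (P k)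
    (Hyp_mono (H k) hk)
  refine (meas_le (hZ2 a) (Q := fun t => ‖E k t / Yf (N k) (i k) (P k) ⌊y⌋₊ t - 1‖ ≤ 1 / Real.log T) ?_).trans ?_
  · filter_upwards [hE k] with t ht hZ
    exact hZ3 t hZ _ ht
  · apply ENNReal.ofReal_le_ofReal
    rw [Real.rpow_def_of_pos hTpos, Real.exp_le_exp]
    apply le_of_eq
    ring

end Pool.Agent.H86.EDGE
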