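import Mathlib
import Pool.Agent.H86.EDGE.Dexp
import Pool.Agent.H81.GR.SetV
import Pool.Agent.H81.GR.Exp

/-!
The doubly exponential decay of the tails for the characters modulo `q`.
-/

open Finset Complex MeasureTheory Filter Topology

namespace Pool.Agent.H86.EDGE

open Pool.Agent.H89.EdgeBasic (Hyp)
open Pool.Agent.H91.Edge (mertens)
open Pool.Agent.H81.GR (TT cc C0 C0_nonneg LP_eq_exp TT_zero sum_inv_le norm_cc_inv sum_norm_cc_le
  setupV exp_moment)
open Pool.Agent.H81.ED (LP)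

/-- `∏ m / (m - 1)` over a finite set of integers `≥ 2` -/
lemma prod_ratio (n : ℕ) : ∀ S : Finset ℕ, S.card = n → (∀ m ∈ S, 2 ≤ m) →
    ∏ m ∈ S, ((m:ℝ) / (m - 1)) ≤ n + 1 := by
  induction n with
  | zero =>
    intro S hS _
    rw [Finset.card_eq_zero] at hS
    rw [hS]
    simp
  | succ n ih =>
    intro S hS h2
    have hne : S.Nonempty := by
      rw [← Finset.card_pos]
      omega
    set m := S.max' hne with hm
    have hmS : m ∈ S := S.max'_mem hne
    have hm2 := h2 m hmS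
    have hmn : n + 2 ≤ m := by
      have h3 : S ⊆ Finset.Icc 2 m := by
        intro x hx
        rw [mem_Icc]
        exact ⟨h2 x hx, S.le_max' x hx⟩
      have h4 := Finset.card_le_card h3
      rw [hS, Nat.card_Icc] at h4
      omega
    have h5 := ih (S.erase m) (by rw [Finset.card_erase_of_mem hmS, hS]; rfl)
      (fun x hx => h2 x (Finset.mem_of_mem_erase hx))
    rw [← Finset.mul_prod_erase S _ hmS]
    have hm' : ((n:ℝ) + 2) ≤ m := by exact_mod_cast hmn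
    have h6 : (m:ℝ) / (m - 1) ≤ (n + 2) / (n + 1) := by
      have hn0 : (0:ℝ) ≤ n := Nat.cast_nonneg n
      rw [div_le_div_iff₀ (by linarith) (by linarith)]
      nlinarith
    have h7 : 0 ≤ ∏ x ∈ S.erase m, ((x:ℝ) / (x - 1)) := by
      apply Finset.prod_nonneg
      intro x hx
      have := h2 x (Finset.mem_of_mem_erase hx)
      have h8 : (2:ℝ) ≤ x := by exact_mod_cast this
      apply div_nonneg <;> linarith
    calc (m:ℝ) / (m - 1) * ∏ x ∈ S.erase m, ((x:ℝ) / (x - 1)) ≤ ((n + 2) / (n + 1)) * (n + 1) :=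
          mul_le_mul h6 h5 h7 (by positivity)
      _ = ((n + 1 : ℕ) : ℝ) + 1 := by
          push_cast
          field_simp
          ring

/-- a lower bound for the totient -/
lemma totient_lower {q : ℕ} (hq : 0 < q) : (q:ℝ) ≤ q.totient * (Nat.log 2 q + 1) := by
  have h1 := Nat.totient_eq_mul_prod_factors q
  have h2 : (q.totient : ℝ) = q * ∏ p ∈ q.primeFactors, (1 - (p:ℝ)⁻¹) := by
    have : ((q.totient : ℚ) : ℝ) = ((q * ∏ p ∈ q.primeFactors, (1 - (p:ℚ)⁻¹) : ℚ) : ℝ) := by rw [h1]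
    push_cast at this
    exact this
  have h3 : (∏ p ∈ q.primeFactors, (1 - (p:ℝ)⁻¹)) * ∏ p ∈ q.primeFactors, ((p:ℝ) / (p - 1)) = 1 := by
    rw [← Finset.prod_mul_distrib]
    apply Finset.prod_eq_one
    intro p hp
    have hp2 : (2:ℝ) ≤ p := by exact_mod_cast (Nat.prime_of_mem_primeFactors hp).two_le
    have h4 : (p:ℝ) - 1 ≠ 0 := by linarith
    have h5 : (p:ℝ) ≠ 0 := by linarith
    field_simp
  have h4 := prod_ratio q.primeFactors.card q.primeFactors rfl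
    (fun p hp => (Nat.prime_of_mem_primeFactors hp).two_le)
  have h5 : q.primeFactors.card ≤ Nat.log 2 q := by
    apply Nat.le_log_of_pow_le (by norm_num)
    calc 2 ^ q.primeFactors.card = ∏ _p ∈ q.primeFactors, 2 := by rw [Finset.prod_const]
      _ ≤ ∏ p ∈ q.primeFactors, p := Finset.prod_le_prod' fun p hp => (Nat.prime_of_mem_primeFactors hp).two_le
      _ ≤ q := Nat.le_of_dvd hq (Nat.prod_primeFactors_dvd q)
  have h6 : ((q.primeFactors.card : ℝ)) ≤ Nat.log 2 q := by exact_mod_cast h5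
  have h7 : 0 ≤ (q.totient : ℝ) := Nat.cast_nonneg _
  calc (q:ℝ) = q * ((∏ p ∈ q.primeFactors, (1 - (p:ℝ)⁻¹)) * ∏ p ∈ q.primeFactors, ((p:ℝ) / (p - 1))) := by
        rw [h3, mul_one]
    _ = q.totient * ∏ p ∈ q.primeFactors, ((p:ℝ) / (p - 1)) := by rw [h2]; ring
    _ ≤ q.totient * (q.primeFactors.card + 1) := mul_le_mul_of_nonneg_left h4 h7
    _ ≤ q.totient * (Nat.log 2 q + 1) := mul_le_mul_of_nonneg_left (by linarith) h7

/-- the trivial bound -/
lemma card_le_tot {q : ℕ} [NeZero q] (S : Finset (DirichletCharacter ℂ q)) :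
    (S.card : ℝ) ≤ q.totient := by
  have h1 : (S.card : ℝ) ≤ (Fintype.card (DirichletCharacter ℂ q) : ℝ) := by
    exact_mod_cast Finset.card_le_univ S
  have h2 : (Fintype.card (DirichletCharacter ℂ q) : ℝ) = q.totient := by
    rw [← Nat.card_eq_fintype_card,
      DirichletCharacter.card_eq_totient_of_hasEnoughRootsOfUnity ℂ q]
  linarith

/-- the size condition -/
lemma sz (K0 : ℝ) (hK0 : 0 < K0) : ∃ L0 : ℝ, ∀ L : ℝ, L0 ≤ L →
    K0 * (Real.log L) ^ 2 ≤ Real.sqrt L := by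
  have h1 : (fun L : ℝ => Real.log L ^ 2) =o[atTop] fun L : ℝ => Real.sqrt L := by
    have h2 : (fun L : ℝ => Real.log L ^ 2) =o[atTop] fun L : ℝ => L ^ (1/2 : ℝ) := by
      have h3 := isLittleO_log_rpow_atTop (show (0:ℝ) < 1/4 by norm_num)
      have h4 := h3.pow (n := 2) (by norm_num)
      refine h4.congr' (Eventually.of_forall fun _ => rfl) ?_
      filter_upwards [eventually_ge_atTop 0] with L hL
      rw [← Real.rpow_natCast, ← Real.rpow_mul hL]
      norm_num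
    refine h2.congr' (Eventually.of_forall fun _ => rfl) ?_
    filter_upwards with L
    rw [Real.sqrt_eq_rpow]
  have h5 := h1.bound (c := K0⁻¹) (by positivity)
  obtain ⟨L0, hL0⟩ := eventually_atTop.mp h5
  refine ⟨L0, fun L hL => ?_⟩
  have h6 := hL0 L hL
  rw [Real.norm_of_nonneg (by positivity), Real.norm_of_nonneg (Real.sqrt_nonneg _)] at h6
  rw [inv_mul_eq_div, le_div_iff₀ (by positivity)] at h6
  linarith

/-- the totient is large -/
lemma phi_low {q : ℕ} (hq : 0 < q) {L n : ℝ} (hL : L = Real.log q) (hL16 : 16 ≤ L) (hn : n ≤ L / 4) :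
    Real.exp (L / 4) ≤ q.totient * Real.exp (-n) := by
  have hq0 : (0 : ℝ) < q := by exact_mod_cast hq
  have hqexp : (q:ℝ) = Real.exp L := by rw [hL, Real.exp_log hq0]
  have hφ0 : (0:ℝ) ≤ q.totient := Nat.cast_nonneg _
  have h1 := totient_lower hq
  have h2 : ((Nat.log 2 q : ℕ) : ℝ) ≤ 2 * L := by
    have h3 : (2:ℝ) ^ Nat.log 2 q ≤ q := by
      exact_mod_cast Nat.pow_log_le_self 2 hq.ne'
    have h4 := Real.log_le_log (by positivity) h3
    rw [Real.log_pow, ← hL] at h4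
    have h5 : (0:ℝ) ≤ (Nat.log 2 q : ℕ) := Nat.cast_nonneg _
    have hl2g := Real.log_two_gt_d9
    have h6 : ((Nat.log 2 q : ℕ) : ℝ) * (1 / 2) ≤ (Nat.log 2 q : ℕ) * Real.log 2 :=
      mul_le_mul_of_nonneg_left (by linarith) h5
    linarith
  have h3 : 2 * L + 1 ≤ Real.exp (L / 2) := by
    have h4 := Real.quadratic_le_exp_of_nonneg (show 0 ≤ L / 2 by linarith)
    have h5 : 16 * L ≤ L * L := mul_le_mul_of_nonneg_right hL16 (by linarith)
    have h6 : (L / 2) ^ 2 / 2 = L * L / 8 := by ring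
    linarith
  have h4 : (q:ℝ) ≤ q.totient * Real.exp (L / 2) := by
    refine h1.trans ?_
    apply mul_le_mul_of_nonneg_left _ hφ0
    linarith
  have h5 : Real.exp (L / 2) ≤ q.totient := by
    rw [hqexp] at h4
    have h6 : Real.exp L = Real.exp (L / 2) * Real.exp (L / 2) := by
      rw [← Real.exp_add, add_halves]
    rw [h6] at h4
    exact le_of_mul_le_mul_right h4 (Real.exp_pos _)
  calc Real.exp (L / 4) ≤ Real.exp (L / 2 + -n) := Real.exp_le_exp.mpr (by linarith)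
    _ = Real.exp (L / 2) * Real.exp (-n) := Real.exp_add _ _
    _ ≤ q.totient * Real.exp (-n) := mul_le_mul_of_nonneg_right h5 (Real.exp_pos _).le

variable {N i b : ℕ} {P : ℕ → Polynomial ℂ}

/-- the primes in the middle -/
def mid (m0 a2 : ℕ) : Finset ℕ :=
  (Finset.range (2 ^ a2 + 1)).filter (fun p => p.Prime ∧ 2 ^ m0 < p)

open Classical in
/-- the exponential moments of the middle primes -/
lemma mid_bad (H : Hyp N i b P) {s : ℂ} {h : ℝ} (hh : 0 < h) (hsre : s.re = 1 + (i:ℝ)/2 + h)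
    {q B : ℕ} [NeZero q] (hbB : b ≤ B) {m0 a2 : ℕ} {L n Y M : ℝ} (hL : L = Real.log q)
    (hn : n = (2:ℝ) ^ m0) (hY : Y = a2 * Real.log 2) (hY0 : 0 < Y) (hL0 : 0 ≤ L)
    (hM : ∑ p ∈ mid m0 a2, ‖cc N P s p‖ ≤ M) (hMn : 2 * n * M + 1 ≤ L / Y) {σ : ℝ} (hσ : |σ| = 1) :
    ((Finset.univ.filter (fun ψ : DirichletCharacter ℂ q => Real.exp (n / 2 * (B ^ 2 + 1)) <
      ‖cexp (((σ * n / 2 : ℝ) : ℂ) * ∑ p ∈ mid m0 a2, cc N P s p * ψ (p : ZMod q))‖)).card : ℝ) ≤
      10 * (q.totient * Real.exp (-n)) := by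
  have hq : 0 < q := Nat.pos_of_ne_zero (NeZero.ne q)
  have hq0 : (0 : ℝ) < q := by exact_mod_cast hq
  have hφ0 : (0:ℝ) ≤ q.totient := Nat.cast_nonneg _
  have hbB' : (b : ℝ) ≤ B := by exact_mod_cast hbB
  have hn0 : 0 < n := by
    rw [hn]
    positivity
  set S := mid m0 a2 with hS
  have hSp : ∀ p ∈ S, p.Prime ∧ p ≤ 2 ^ a2 := by
    intro p hp
    rw [hS, mid, Finset.mem_filter, Finset.mem_range] at hp
    exact ⟨hp.2.1, by omega⟩
  have hSn : ∀ p ∈ S, 2 ^ m0 < p := by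
    intro p hp
    rw [hS, mid, Finset.mem_filter] at hp
    exact hp.2.2
  set c : ℕ → ℂ := fun p => ((σ * n / 2 : ℝ) : ℂ) * cc N P s p with hc
  have hcn : ∀ p, ‖c p‖ = n / 2 * ‖cc N P s p‖ := by
    intro p
    simp only [hc]
    rw [norm_mul, Complex.norm_real, Real.norm_eq_abs, abs_div, abs_mul, hσ, one_mul, abs_of_pos hn0,
      abs_of_pos (by norm_num : (0:ℝ) < 2)]
  have h1 : ∑ p ∈ S, ‖c p‖ ^ 2 ≤ n * B ^ 2 / 4 := by
    have h10 := sum_inv_sq_gt (n := 2 ^ m0) Nat.one_le_two_pow S hSn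
    push_cast at h10
    rw [← hn] at h10
    calc ∑ p ∈ S, ‖c p‖ ^ 2 ≤ ∑ p ∈ S, (n / 2 * B) ^ 2 * ((p:ℝ) ^ 2)⁻¹ := by
          apply Finset.sum_le_sum
          intro p hp
          have h11 := norm_cc_inv H hh hsre (hSp p hp).1
          have h12 : ‖c p‖ ≤ (n / 2 * B) * (p:ℝ)⁻¹ := by
            rw [hcn, mul_assoc]
            apply mul_le_mul_of_nonneg_left _ (by positivity)
            refine h11.trans ?_
            exact mul_le_mul_of_nonneg_right hbB' (by positivity)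
          have := pow_le_pow_left₀ (norm_nonneg _) h12 2
          rw [mul_pow, inv_pow] at this
          exact this
      _ = (n / 2 * B) ^ 2 * ∑ p ∈ S, ((p:ℝ) ^ 2)⁻¹ := by rw [Finset.mul_sum]
      _ ≤ (n / 2 * B) ^ 2 * n⁻¹ := mul_le_mul_of_nonneg_left h10 (by positivity)
      _ = n * B ^ 2 / 4 := by
          field_simp
          ring
  obtain ⟨J, hJ⟩ : ∃ J : ℕ, J = ⌊L / Y⌋₊ := ⟨_, rfl⟩
  have hJ1 : (J:ℝ) * Y ≤ L := by
    have := Nat.floor_le (show 0 ≤ L / Y by positivity)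
    rw [← hJ, le_div_iff₀ hY0] at this
    exact this
  have hJ2 : L / Y < J + 1 := by
    rw [hJ]
    exact Nat.lt_floor_add_one _
  have h2 : (2 ^ a2) ^ J ≤ q := by
    have h3 : Real.log (((2 : ℝ) ^ a2) ^ J) ≤ Real.log (q : ℝ) := by
      rw [Real.log_pow, Real.log_pow, ← hL, ← hY]
      exact hJ1
    have h4 := (Real.log_le_log_iff (by positivity) hq0).mp h3
    exact_mod_cast h4
  have h3 : 4 * ∑ p ∈ S, ‖c p‖ ≤ J := by
    have h30 : ∑ p ∈ S, ‖c p‖ = n / 2 * ∑ p ∈ S, ‖cc N P s p‖ := by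
      rw [Finset.mul_sum]
      exact Finset.sum_congr rfl fun p _ => hcn p
    have h31 : n * ∑ p ∈ S, ‖cc N P s p‖ ≤ n * M := mul_le_mul_of_nonneg_left hM hn0.le
    rw [h30]
    linarith
  have h4 := exp_moment (q := q) (2 ^ a2) J S hSp c (by positivity) h2 h3
  have h5 : ∀ ψ : DirichletCharacter ℂ q,
      ((σ * n / 2 : ℝ) : ℂ) * ∑ p ∈ S, cc N P s p * ψ (p : ZMod q) =
      ∑ p ∈ S, c p * ψ (p : ZMod q) := by
    intro ψ
    rw [Finset.mul_sum]
    apply Finset.sum_congr rfl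
    intro p _
    simp only [hc]
    ring
  simp_rw [h5]
  have hmom : ∑ ψ : DirichletCharacter ℂ q, ‖cexp (∑ p ∈ S, c p * ψ (p : ZMod q))‖ ^ 2 ≤
      (q.totient : ℝ) * (10 * Real.exp (n * B ^ 2)) := by
    refine h4.trans ?_
    apply mul_le_mul_of_nonneg_left _ hφ0
    have h60 : 0 ≤ n * (B:ℝ) ^ 2 := by positivity
    have h6 : Real.exp (2 * ∑ p ∈ S, ‖c p‖ ^ 2) ≤ Real.exp (n * B ^ 2) := by
      apply Real.exp_le_exp.mpr
      linarith
    have h7 : 1 ≤ Real.exp (n * (B:ℝ) ^ 2) := Real.one_le_exp h60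
    linarith
  have hmk := Pool.Agent.H81.GR.markov (q := q) (fun ψ => cexp (∑ p ∈ S, c p * ψ (p : ZMod q)))
    (Real.exp_pos (n / 2 * ((B:ℝ) ^ 2 + 1))).le 2 hmom
  have h22 : (Real.exp (n / 2 * ((B:ℝ) ^ 2 + 1))) ^ 2 = Real.exp (n * B ^ 2 + n) := by
    rw [← Real.exp_nat_mul]
    congr 1
    push_cast
    ring
  rw [h22] at hmk
  have h55 : Real.exp (-n) * Real.exp (n * (B:ℝ) ^ 2 + n) = Real.exp (n * B ^ 2) := by
    rw [← Real.exp_add]
    congr 1
    ring
  have h44 : (q.totient : ℝ) * (10 * Real.exp (n * B ^ 2)) =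
      (10 * (q.totient * Real.exp (-n))) * Real.exp (n * B ^ 2 + n) := by
    rw [← h55]
    ring
  rw [h44] at hmk
  exact le_of_mul_le_mul_right hmk (Real.exp_pos _)

/-- the real part of the logarithm -/
lemma re_le (H : Hyp N i b P) {s : ℂ} {h : ℝ} (hh : 0 < h) (hsre : s.re = 1 + (i:ℝ)/2 + h)
    {q B : ℕ} [NeZero q] {m0 a2 : ℕ} {n A1 V : ℝ} (hA1 : 1 ≤ A1)
    (hm : ∀ (x : ℝ), 3 ≤ x → ∀ S : Finset ℕ, (∀ p ∈ S, p.Prime ∧ (p:ℝ) ≤ x) →
      ∏ p ∈ S, (1 - (p:ℝ)⁻¹)⁻¹ ≤ A1 * Real.log x)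
    (hn0 : 0 < n) (hm0 : 2 ≤ m0) (hm0a2 : m0 ≤ a2)
    (hV : (m0 * Real.log 2) * (A1 * Real.exp (C0 + (B:ℝ) ^ 2 + 5 / 2)) ≤ V)
    (ψ : DirichletCharacter ℂ q)
    (hg : ‖TT N P s ψ - ∑ p ∈ (Finset.range (2 ^ a2 + 1)).filter Nat.Prime,
          cc N P s p * ψ (p : ZMod q)‖ ≤ b * C0 + (1 / 2 + 1))
    (hre : ∀ σ : ℝ, |σ| = 1 →
      ‖cexp (((σ * n / 2 : ℝ) : ℂ) * ∑ p ∈ mid m0 a2, cc N P s p * ψ (p : ZMod q))‖ ≤
        Real.exp (n / 2 * (B ^ 2 + 1))) :
    |(TT N P s ψ).re| ≤ b * Real.log V := by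
  have hl2 : 0 < Real.log 2 := Real.log_pos (by norm_num)
  have hb0 : (0:ℝ) ≤ b := Nat.cast_nonneg b
  have hm0' : (0:ℝ) < m0 := by exact_mod_cast (by omega : 0 < m0)
  obtain ⟨W, hW⟩ : ∃ W : ℂ, W = ∑ p ∈ mid m0 a2, cc N P s p * ψ (p : ZMod q) := ⟨_, rfl⟩
  rw [← hW] at hre
  have hre' : ∀ σ : ℝ, |σ| = 1 → σ * W.re ≤ B ^ 2 + 1 := by
    intro σ hσ
    have h2 := hre σ hσ
    rw [Complex.norm_exp, Real.exp_le_exp, Complex.re_ofReal_mul] at h2
    have h3 : n / 2 * (σ * W.re) ≤ n / 2 * (B ^ 2 + 1) := by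
      calc n / 2 * (σ * W.re) = σ * n / 2 * W.re := by ring
        _ ≤ _ := h2
    exact le_of_mul_le_mul_left h3 (by positivity)
  have hre1 := hre' 1 (by norm_num)
  have hre2 := hre' (-1) (by norm_num)
  by_cases hb : b = 0
  · subst hb
    rw [TT_zero H hsre ψ]
    simp
  · have hb1 : (1 : ℝ) ≤ b := by exact_mod_cast Nat.one_le_iff_ne_zero.mpr hb
    obtain ⟨W0, hW0⟩ : ∃ W0 : ℂ, W0 = ∑ p ∈ (Finset.range (2 ^ m0 + 1)).filter Nat.Prime,
      cc N P s p * ψ (p : ZMod q) := ⟨_, rfl⟩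
    have hsum := sum_inv_le hm hm0
    have hWn : ‖W0‖ ≤ b * Real.log (A1 * (m0 * Real.log 2)) := by
      rw [hW0]
      refine (norm_sum_le _ _).trans ?_
      refine le_trans ?_ ((sum_norm_cc_le H hh hsre _).trans
        (mul_le_mul_of_nonneg_left hsum (Nat.cast_nonneg _)))
      apply Finset.sum_le_sum
      intro p _
      rw [norm_mul]
      exact mul_le_of_le_one_right (norm_nonneg _) (ψ.norm_le_one _)
    have hdec : ∑ p ∈ (Finset.range (2 ^ a2 + 1)).filter Nat.Prime, cc N P s p * ψ (p : ZMod q) =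
        W0 + W := by
      rw [hW0, hW]
      have e2 : (Finset.range (2 ^ a2 + 1)).filter Nat.Prime =
          (Finset.range (2 ^ m0 + 1)).filter Nat.Prime ∪ mid m0 a2 := by
        have hpw : 2 ^ m0 ≤ 2 ^ a2 := Nat.pow_le_pow_right (by norm_num) hm0a2
        ext p
        rw [mid]
        simp only [Finset.mem_union, Finset.mem_filter, Finset.mem_range]
        constructor
        · rintro ⟨h2, h3⟩
          by_cases h4 : p < 2 ^ m0 + 1
          · left
            exact ⟨h4, h3⟩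
          · right
            exact ⟨h2, h3, by omega⟩
        · rintro (⟨h2, h3⟩ | ⟨h2, h3, _⟩)
          · exact ⟨by omega, h3⟩
          · exact ⟨h2, h3⟩
      have d2 : Disjoint ((Finset.range (2 ^ m0 + 1)).filter Nat.Prime) (mid m0 a2) := by
        rw [Finset.disjoint_left]
        intro p h2 h3
        rw [mid] at h3
        simp only [Finset.mem_filter, Finset.mem_range] at h2 h3
        omega
      rw [e2, Finset.sum_union d2]
    rw [hdec] at hg
    have hV2 : Real.log (A1 * (m0 * Real.log 2)) + (C0 + (B:ℝ) ^ 2 + 5 / 2) ≤ Real.log V := by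
      have e1 : Real.log (A1 * (m0 * Real.log 2)) + (C0 + (B:ℝ) ^ 2 + 5 / 2) =
          Real.log (A1 * (m0 * Real.log 2) * Real.exp (C0 + (B:ℝ) ^ 2 + 5 / 2)) := by
        rw [Real.log_mul (by positivity) (Real.exp_pos _).ne', Real.log_exp]
      rw [e1]
      apply Real.log_le_log (by positivity)
      calc A1 * (m0 * Real.log 2) * Real.exp (C0 + (B:ℝ) ^ 2 + 5 / 2) =
            (m0 * Real.log 2) * (A1 * Real.exp (C0 + (B:ℝ) ^ 2 + 5 / 2)) := by ring
        _ ≤ V := hV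
    have hb2 := mul_le_mul_of_nonneg_left hV2 hb0
    have e5 : |(TT N P s ψ).re| ≤ b * C0 + (1 / 2 + 1) + b * Real.log (A1 * (m0 * Real.log 2)) +
        (B ^ 2 + 1) := by
      have h1 := (Complex.abs_re_le_norm _).trans hg
      have h2 := (Complex.abs_re_le_norm _).trans hWn
      rw [Complex.sub_re, Complex.add_re] at h1
      have h1' := abs_le.mp h1
      have h2' := abs_le.mp h2
      rw [abs_le]
      constructor
      · linarith [h1'.1, h2'.1]
      · linarith [h1'.2, h2'.2]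
    have e6 : (1:ℝ) * (5 / 2 + (B:ℝ) ^ 2) ≤ b * (5 / 2 + (B:ℝ) ^ 2) :=
      mul_le_mul_of_nonneg_right hb1 (by positivity)
    refine e5.trans ?_
    refine le_trans ?_ hb2
    calc b * C0 + (1 / 2 + 1) + b * Real.log (A1 * (m0 * Real.log 2)) + ((B:ℝ) ^ 2 + 1) =
          b * C0 + b * Real.log (A1 * (m0 * Real.log 2)) + 1 * (5 / 2 + (B:ℝ) ^ 2) := by ring
      _ ≤ b * C0 + b * Real.log (A1 * (m0 * Real.log 2)) + b * (5 / 2 + (B:ℝ) ^ 2) := by
          linarith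
      _ = _ := by ring

/-- the sum over the middle primes -/
lemma mid_sum (H : Hyp N i b P) {s : ℂ} {h : ℝ} (hh : 0 < h) (hsre : s.re = 1 + (i:ℝ)/2 + h)
    {B : ℕ} (hbB : b ≤ B) (m0 : ℕ) {a2 : ℕ} {A1 : ℝ} (hA1 : 1 ≤ A1)
    (hm : ∀ (x : ℝ), 3 ≤ x → ∀ S : Finset ℕ, (∀ p ∈ S, p.Prime ∧ (p:ℝ) ≤ x) →
      ∏ p ∈ S, (1 - (p:ℝ)⁻¹)⁻¹ ≤ A1 * Real.log x) (ha2 : 2 ≤ a2) {X : ℝ}
    (hX : a2 * Real.log 2 ≤ X) :
    ∑ p ∈ mid m0 a2, ‖cc N P s p‖ ≤ B * (A1 * X) := by
  have hl2 : 0 < Real.log 2 := Real.log_pos (by norm_num)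
  have hbB' : (b : ℝ) ≤ B := by exact_mod_cast hbB
  have hb0 : (0:ℝ) ≤ b := Nat.cast_nonneg b
  have ha2' : (0:ℝ) < a2 := by exact_mod_cast (by omega : 0 < a2)
  have h1 := sum_inv_le hm ha2
  have h2 := sum_norm_cc_le H hh hsre (2 ^ a2 + 1)
  have h3 : ∑ p ∈ mid m0 a2, ‖cc N P s p‖ ≤
      ∑ p ∈ (Finset.range (2 ^ a2 + 1)).filter Nat.Prime, ‖cc N P s p‖ := by
    apply Finset.sum_le_sum_of_subset_of_nonneg
    · intro p hp
      rw [mid, Finset.mem_filter] at hp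
      rw [Finset.mem_filter]
      exact ⟨hp.1, hp.2.1⟩
    · intro p _ _
      exact norm_nonneg _
  have h5 : 0 < A1 * (a2 * Real.log 2) := by positivity
  have h4 : Real.log (A1 * (a2 * Real.log 2)) ≤ A1 * X := by
    have h6 := Real.log_le_sub_one_of_pos h5
    have h7 : A1 * (a2 * Real.log 2) ≤ A1 * X := mul_le_mul_of_nonneg_left hX (by linarith)
    linarith
  have h8 : 0 ≤ A1 * X := by
    have h7 : A1 * (a2 * Real.log 2) ≤ A1 * X := mul_le_mul_of_nonneg_left hX (by linarith)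
    linarith
  refine h3.trans (h2.trans ?_)
  calc (b:ℝ) * ∑ p ∈ (Finset.range (2 ^ a2 + 1)).filter Nat.Prime, (p:ℝ)⁻¹ ≤
        b * (A1 * X) := mul_le_mul_of_nonneg_left (h1.trans h4) hb0
    _ ≤ B * (A1 * X) := mul_le_mul_of_nonneg_right hbB' h8

open Classical in
/-- doubly exponential tails for the characters modulo `q` -/
theorem q_dexp (B : ℕ) : ∃ C : ℝ, 3 ≤ C ∧
    ∀ (N i b : ℕ) (P : ℕ → Polynomial ℂ), Hyp N i b P → b ≤ B → ∀ (q : ℕ) [NeZero q], C ≤ q →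
      ∀ h t V : ℝ, 0 < h → 1 ≤ V → V ≤ Real.log (Real.log q) →
        ((Finset.univ.filter (fun ψ : DirichletCharacter ℂ q =>
          ¬ ((V ^ b)⁻¹ ≤ ‖∏' p : {p : ℕ // p.Prime ∧ ¬ p ∣ N}, ((P p).eval (ψ (p : ℕ) *
                ((p : ℕ) : ℂ) ^ (-(1 + (i:ℂ)/2 + h + t * I))))⁻¹‖ ∧
            ‖∏' p : {p : ℕ // p.Prime ∧ ¬ p ∣ N}, ((P p).eval (ψ (p : ℕ) *
                ((p : ℕ) : ℂ) ^ (-(1 + (i:ℂ)/2 + h + t * I))))⁻¹‖ ≤ V ^ b))).card : ℝ) ≤
          C * q.totient * Real.exp (-Real.exp (V / C)) + C * Real.log (2 + 1 / h) ^ 2 := by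
  obtain ⟨A1, hA1, hm⟩ := mertens
  have hl2 : 0 < Real.log 2 := Real.log_pos (by norm_num)
  have hl2g := Real.log_two_gt_d9
  have hl2l := Real.log_two_lt_d9
  have hC00 := C0_nonneg
  have hBr : (0:ℝ) ≤ B := Nat.cast_nonneg B
  obtain ⟨D', hD'⟩ : ∃ D' : ℝ, D' = A1 * Real.exp (C0 + (B:ℝ) ^ 2 + 5 / 2) := ⟨_, rfl⟩
  have hD'1 : 1 ≤ D' := by
    rw [hD']
    have : 1 ≤ Real.exp (C0 + (B:ℝ) ^ 2 + 5 / 2) := Real.one_le_exp (by positivity)
    nlinarith
  obtain ⟨D, hD⟩ : ∃ D : ℝ, D = 2 * D' := ⟨_, rfl⟩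
  have hD2 : 2 ≤ D := by linarith
  obtain ⟨L0, hL0⟩ := sz (89 * (178 * B * A1 + 1)) (by positivity)
  obtain ⟨C, hC⟩ : ∃ C : ℝ, C = Real.exp (|L0| + 16 + 2 * ((B : ℝ) + 1) ^ 2) + 60 + 2 * D +
    (480 * (B : ℝ)) ^ 2 := ⟨_, rfl⟩
  have hCe : Real.exp (|L0| + 16 + 2 * ((B : ℝ) + 1) ^ 2) ≤ C := by
    rw [hC]
    have : 0 ≤ (480 * (B : ℝ)) ^ 2 := by positivity
    linarith
  have hC60 : 60 ≤ C := by
    rw [hC]
    have := Real.exp_pos (|L0| + 16 + 2 * ((B : ℝ) + 1) ^ 2)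
    have : 0 ≤ (480 * (B : ℝ)) ^ 2 := by positivity
    linarith
  have hCD : 2 * D ≤ C := by
    rw [hC]
    have := Real.exp_pos (|L0| + 16 + 2 * ((B : ℝ) + 1) ^ 2)
    have : 0 ≤ (480 * (B : ℝ)) ^ 2 := by positivity
    linarith
  have hCB : (480 * (B : ℝ)) ^ 2 ≤ C := by
    rw [hC]
    have := Real.exp_pos (|L0| + 16 + 2 * ((B : ℝ) + 1) ^ 2)
    linarith
  refine ⟨C, by linarith, ?_⟩
  intro N i b P H hbB q _ hCq h t V hh hV1 hVL
  have hq : 0 < q := Nat.pos_of_ne_zero (NeZero.ne q)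
  have hq0 : (0 : ℝ) < q := by exact_mod_cast hq
  have hLlow : |L0| + 16 + 2 * ((B : ℝ) + 1) ^ 2 ≤ Real.log q := by
    rw [Real.le_log_iff_exp_le hq0]
    linarith
  obtain ⟨L, hL⟩ : ∃ L : ℝ, L = Real.log q := ⟨_, rfl⟩
  rw [← hL] at hLlow hVL
  obtain ⟨ℓ, hℓ⟩ : ∃ ℓ : ℝ, ℓ = Real.log L := ⟨_, rfl⟩
  rw [← hℓ] at hVL
  have hsq0 : 0 ≤ 2 * ((B : ℝ) + 1) ^ 2 := by positivity
  have habs := abs_nonneg L0
  have hLL0 : L0 ≤ L := by
    have := le_abs_self L0
    linarith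
  have hL16 : 16 ≤ L := by linarith
  have hL8 : 8 ≤ L := by linarith
  have hB : 2 * ((B : ℝ) + 1) ^ 2 ≤ L := by linarith
  have hLpos : 0 < L := by linarith
  have hLexp : L = Real.exp ℓ := by rw [hℓ, Real.exp_log hLpos]
  have hqexp : (q:ℝ) = Real.exp L := by rw [hL, Real.exp_log hq0]
  have hV0 : 0 < V := by linarith
  have hℓ1 : 1 ≤ ℓ := by linarith
  have hszL := hL0 L hLL0
  rw [← hℓ] at hszL
  set u := Real.sqrt L with hu
  have huu : u * u = L := Real.mul_self_sqrt hLpos.le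
  have hu4 : 4 ≤ u := by
    rw [hu]
    apply Real.le_sqrt_of_sq_le
    linarith
  have htail0 : 0 ≤ C * Real.log (2 + 1 / h) ^ 2 := by positivity
  have hφ0 : (0:ℝ) ≤ q.totient := Nat.cast_nonneg _
  -- the cut
  obtain ⟨m0, hm0⟩ : ∃ m0 : ℕ, m0 = ⌊V / (D * Real.log 2)⌋₊ := ⟨_, rfl⟩
  have hDl : 0 < D * Real.log 2 := by positivity
  have hm0le : (m0 : ℝ) * (D * Real.log 2) ≤ V := by
    have := Nat.floor_le (show 0 ≤ V / (D * Real.log 2) by positivity)
    rw [← hm0, le_div_iff₀ hDl] at this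
    exact this
  have hm0lt : V < ((m0 : ℝ) + 1) * (D * Real.log 2) := by
    have := Nat.lt_floor_add_one (V / (D * Real.log 2))
    rw [← hm0, div_lt_iff₀ hDl] at this
    exact this
  have hm0le' : (m0:ℝ) * Real.log 2 ≤ V / D := by
    rw [le_div_iff₀ (by linarith)]
    linarith
  obtain ⟨n, hn⟩ : ∃ n : ℝ, n = (2:ℝ) ^ m0 := ⟨_, rfl⟩
  have hnexp : n = Real.exp (m0 * Real.log 2) := by
    rw [hn, Real.exp_nat_mul, Real.exp_log (by norm_num)]
  have hn0 : 0 < n := by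
    rw [hn]
    positivity
  have hn1 : n ≤ Real.exp (V / D) := by
    rw [hnexp, Real.exp_le_exp]
    exact hm0le'
  have hn2 : Real.exp (V / D) < 2 * n := by
    have e1 : 2 * n = Real.exp ((m0 + 1) * Real.log 2) := by
      rw [hnexp, add_mul, one_mul, Real.exp_add, Real.exp_log (by norm_num : (0:ℝ) < 2)]
      ring
    rw [e1, Real.exp_lt_exp, div_lt_iff₀ (by linarith)]
    linarith
  obtain ⟨y, hy⟩ : ∃ y : ℝ, y = Real.exp (V / (2 * D)) := ⟨_, rfl⟩
  have hy1 : 1 ≤ y := by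
    rw [hy]
    exact Real.one_le_exp (by positivity)
  have hyy : y * y = Real.exp (V / D) := by
    rw [hy, ← Real.exp_add]
    congr 1
    field_simp
    ring
  have hyC : Real.exp (V / C) ≤ y := by
    rw [hy, Real.exp_le_exp]
    exact div_le_div_of_nonneg_left hV0.le (by linarith) hCD
  have hkey : Real.exp (-n) ≤ 2 * Real.exp (-Real.exp (V / C)) := by
    have e1 : -n ≤ 1 / 2 + -Real.exp (V / C) := by
      nlinarith [sq_nonneg (y - 1)]
    have e2 : Real.exp (1 / 2) ≤ 2 := by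
      have e3 : Real.exp (1 / 2) * Real.exp (1 / 2) = Real.exp 1 := by
        rw [← Real.exp_add]
        norm_num
      have := Real.exp_one_lt_d9
      have e4 : 0 < Real.exp (1 / 2) := Real.exp_pos _
      nlinarith
    calc Real.exp (-n) ≤ Real.exp (1 / 2 + -Real.exp (V / C)) := Real.exp_le_exp.mpr e1
      _ = Real.exp (1 / 2) * Real.exp (-Real.exp (V / C)) := Real.exp_add _ _
      _ ≤ 2 * Real.exp (-Real.exp (V / C)) := mul_le_mul_of_nonneg_right e2 (Real.exp_pos _).le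
  rcases Nat.lt_or_ge m0 2 with hsmall | hbig
  · -- the trivial bound
    have h1 : n ≤ 2 := by
      rw [hn]
      have : m0 ≤ 1 := by omega
      calc (2:ℝ) ^ m0 ≤ 2 ^ 1 := pow_le_pow_right₀ (by norm_num) this
        _ = 2 := by norm_num
    have h2 : y ≤ 2 := by nlinarith
    have h3 : Real.exp (-2) ≤ Real.exp (-Real.exp (V / C)) := Real.exp_le_exp.mpr (by linarith)
    have h4 : 1 ≤ 60 * Real.exp (-2) := by
      rw [Real.exp_neg, ← div_eq_mul_inv, le_div_iff₀ (Real.exp_pos _)]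
      have h5 : Real.exp 2 = Real.exp 1 * Real.exp 1 := by
        rw [← Real.exp_add]
        norm_num
      have := Real.exp_one_lt_d9
      have h6 : 0 < Real.exp 1 := Real.exp_pos _
      rw [h5]
      nlinarith
    have h5 : (1:ℝ) ≤ C * Real.exp (-Real.exp (V / C)) := by
      refine h4.trans ?_
      exact mul_le_mul hC60 h3 (Real.exp_pos _).le (by linarith)
    refine (card_le_tot _).trans ?_
    have h6 := mul_le_mul_of_nonneg_left h5 hφ0
    linarith
  · have hm2 : (2:ℝ) ≤ m0 := by exact_mod_cast hbig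
    -- the second cut
    obtain ⟨a2, ha2⟩ : ∃ a2 : ℕ, a2 = ⌈88 * ℓ / Real.log 2⌉₊ := ⟨_, rfl⟩
    obtain ⟨Y, hY⟩ : ∃ Y : ℝ, Y = a2 * Real.log 2 := ⟨_, rfl⟩
    have hYlow : 88 * ℓ ≤ Y := by
      have := Nat.le_ceil (88 * ℓ / Real.log 2)
      rw [div_le_iff₀ hl2, ← ha2] at this
      rw [hY]
      exact this
    have hYup : Y ≤ 89 * ℓ := by
      have h1 : (a2 : ℝ) < 88 * ℓ / Real.log 2 + 1 := by
        rw [ha2]
        exact Nat.ceil_lt_add_one (by positivity)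
      have h2 : (88 * ℓ / Real.log 2 + 1) * Real.log 2 = 88 * ℓ + Real.log 2 := by
        field_simp
      have h3 := mul_lt_mul_of_pos_right h1 hl2
      rw [hY]
      linarith
    have hY0 : 0 < Y := by linarith
    have hY2 : 2 ≤ Y := by linarith
    have hu0 : 0 < u := by linarith
    have hK89 : 89 ≤ 89 * (178 * B * A1 + 1) := by
      have : 0 ≤ 178 * B * A1 := by positivity
      linarith
    have hYu : Y ≤ u := by
      have h1 : 89 * ℓ ≤ 89 * (178 * B * A1 + 1) * ℓ ^ 2 := by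
        have h2 : ℓ ≤ ℓ ^ 2 := by nlinarith
        calc 89 * ℓ ≤ 89 * ℓ ^ 2 := by linarith
          _ ≤ _ := mul_le_mul_of_nonneg_right hK89 (by positivity)
      linarith
    have hYL : Y ≤ L := by
      have := mul_le_mul_of_nonneg_left (show 1 ≤ u by linarith) hu0.le
      linarith
    have hn_u : n ≤ u := by
      refine hn1.trans ?_
      rw [hu, Real.sqrt_eq_rpow, Real.rpow_def_of_pos hLpos, ← hℓ, Real.exp_le_exp]
      calc V / D ≤ V / 2 := div_le_div_of_nonneg_left hV0.le (by norm_num) hD2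
        _ ≤ ℓ * (1 / 2) := by linarith
    have hn_L : n ≤ L / 4 := by
      have := mul_le_mul_of_nonneg_left hu4 hu0.le
      linarith
    have hm0a2 : m0 ≤ a2 := by
      have h1 : (m0:ℝ) * Real.log 2 ≤ a2 * Real.log 2 := by
        rw [← hY]
        have h2 : V / D ≤ V := div_le_self hV0.le (by linarith)
        linarith
      have h4 : (m0 : ℝ) ≤ a2 := le_of_mul_le_mul_right h1 hl2
      exact_mod_cast h4
    have ha2' : 2 ≤ a2 := by omega
    set s : ℂ := 1 + (i:ℂ)/2 + h + t * I with hs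
    have hsre : s.re = 1 + (i:ℝ)/2 + h := by
      rw [hs]
      simp
    obtain ⟨U, hU, hUb⟩ := setupV (a0 := a2) (η := 1) H hh hsre hbB hL hℓ hY hL8 hB hY2 hYL one_pos
    -- the size of the first exceptional set
    have hφlow := phi_low hq hL hL16 hn_L
    have hbB' : (b : ℝ) ≤ B := by exact_mod_cast hbB
    have hcardU : (U.card : ℝ) ≤ q.totient * Real.exp (-n) + C * Real.log (2 + 1 / h) ^ 2 := by
      refine hU.trans (add_le_add ?_ ?_)
      · refine le_trans ?_ hφlow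
        apply Real.exp_le_exp.mpr
        have e1 : ℓ * L / Y ≤ L / 88 := by
          rw [div_le_div_iff₀ hY0 (by norm_num)]
          have := mul_le_mul_of_nonneg_left hYlow hLpos.le
          linarith
        linarith
      · rw [div_one, mul_pow]
        apply mul_le_mul_of_nonneg_right _ (by positivity)
        refine le_trans ?_ hCB
        exact pow_le_pow_left₀ (by positivity) (mul_le_mul_of_nonneg_left hbB' (by norm_num)) 2
    -- the middle primes
    have hM := mid_sum (X := 89 * ℓ) H hh hsre hbB m0 hA1 hm ha2' (by rw [← hY]; exact hYup)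
    have hMn : 2 * n * (B * (A1 * (89 * ℓ))) + 1 ≤ L / Y := by
      have h33 : 1 ≤ u * ℓ := by
        have := mul_le_mul hu4 hℓ1 (by norm_num) hu0.le
        linarith
      have hBA : 0 ≤ 178 * (B:ℝ) * A1 := by positivity
      rw [le_div_iff₀ hY0]
      have h34 : 2 * n * (B * (A1 * (89 * ℓ))) + 1 ≤ 178 * B * A1 * (u * ℓ) + u * ℓ := by
        have h35 : 178 * B * A1 * (n * ℓ) ≤ 178 * B * A1 * (u * ℓ) := by
          apply mul_le_mul_of_nonneg_left _ hBA
          exact mul_le_mul_of_nonneg_right hn_u (by linarith)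
        calc 2 * n * (B * (A1 * (89 * ℓ))) + 1 = 178 * B * A1 * (n * ℓ) + 1 := by ring
          _ ≤ _ := add_le_add h35 h33
      calc (2 * n * (B * (A1 * (89 * ℓ))) + 1) * Y ≤
            (178 * B * A1 * (u * ℓ) + u * ℓ) * (89 * ℓ) :=
            mul_le_mul h34 hYup hY0.le (by positivity)
        _ = u * (89 * (178 * B * A1 + 1) * ℓ ^ 2) := by ring
        _ ≤ u * u := mul_le_mul_of_nonneg_left hszL hu0.le
        _ = L := huu
    set Bs : ℝ → Finset (DirichletCharacter ℂ q) := fun σ => Finset.univ.filter (fun ψ =>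
      Real.exp (n / 2 * (B ^ 2 + 1)) <
      ‖cexp (((σ * n / 2 : ℝ) : ℂ) * ∑ p ∈ mid m0 a2, cc N P s p * ψ (p : ZMod q))‖) with hBs
    have hBc : ∀ σ : ℝ, |σ| = 1 → ((Bs σ).card : ℝ) ≤ 10 * (q.totient * Real.exp (-n)) := by
      intro σ hσ
      exact mid_bad H hh hsre hbB hL hn hY hY0 hLpos.le hM hMn hσ
    have hVD : (m0 * Real.log 2) * (A1 * Real.exp (C0 + (B:ℝ) ^ 2 + 5 / 2)) ≤ V := by
      rw [← hD']
      refine le_trans ?_ hm0le
      calc (m0 * Real.log 2) * D' ≤ (m0 * Real.log 2) * D :=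
            mul_le_mul_of_nonneg_left (by linarith) (by positivity)
        _ = m0 * (D * Real.log 2) := by ring
    have hsub : Finset.univ.filter (fun ψ : DirichletCharacter ℂ q =>
          ¬ ((V ^ b)⁻¹ ≤ ‖LP N P s ψ‖ ∧ ‖LP N P s ψ‖ ≤ V ^ b)) ⊆ U ∪ (Bs 1 ∪ Bs (-1)) := by
      intro ψ hψ
      rw [Finset.mem_filter] at hψ
      by_contra hcon
      rw [Finset.mem_union, Finset.mem_union, not_or, not_or] at hcon
      obtain ⟨hc1, hc2, hc3⟩ := hcon
      apply hψ.2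
      have hg := hUb ψ hc1
      have hLP : LP N P s ψ = cexp (TT N P s ψ) := LP_eq_exp H hh hsre ψ
      have hre : ∀ σ : ℝ, |σ| = 1 →
          ‖cexp (((σ * n / 2 : ℝ) : ℂ) * ∑ p ∈ mid m0 a2, cc N P s p * ψ (p : ZMod q))‖ ≤
          Real.exp (n / 2 * (B ^ 2 + 1)) := by
        have hgen : ∀ σ : ℝ, ψ ∉ Bs σ →
            ‖cexp (((σ * n / 2 : ℝ) : ℂ) * ∑ p ∈ mid m0 a2, cc N P s p * ψ (p : ZMod q))‖ ≤
            Real.exp (n / 2 * (B ^ 2 + 1)) := by
          intro σ hts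
          by_contra hcon
          push Not at hcon
          apply hts
          rw [hBs, Finset.mem_filter]
          exact ⟨Finset.mem_univ _, hcon⟩
        intro σ hσ
        rcases (abs_eq (by norm_num : (0:ℝ) ≤ 1)).mp hσ with h1 | h1
        · rw [h1]
          exact hgen 1 hc2
        · rw [h1]
          exact hgen (-1) hc3
      have hT := re_le H hh hsre hA1 hm hn0 hbig hm0a2 hVD ψ hg hre
      rw [hLP, Complex.norm_exp]
      have hre := abs_le.mp hT
      have hpw : V ^ b = Real.exp (b * Real.log V) := by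
        rw [Real.exp_nat_mul, Real.exp_log hV0]
      rw [hpw, ← Real.exp_neg]
      exact ⟨Real.exp_le_exp.mpr (by linarith [hre.1]), Real.exp_le_exp.mpr hre.2⟩
    have hcard : ((Finset.univ.filter (fun ψ : DirichletCharacter ℂ q =>
          ¬ ((V ^ b)⁻¹ ≤ ‖LP N P s ψ‖ ∧ ‖LP N P s ψ‖ ≤ V ^ b))).card : ℝ) ≤
          U.card + ((Bs 1).card + (Bs (-1)).card) := by
      have h1 := Finset.card_le_card hsub
      have h2 := (Finset.card_union_le U (Bs 1 ∪ Bs (-1))).trans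
        (Nat.add_le_add_left (Finset.card_union_le (Bs 1) (Bs (-1))) _)
      exact_mod_cast h1.trans h2
    have hf1 := hBc 1 (by norm_num)
    have hf2 := hBc (-1) (by norm_num)
    have hf3 : 21 * (q.totient * Real.exp (-n)) ≤ C * q.totient * Real.exp (-Real.exp (V / C)) := by
      have h3 : 0 < Real.exp (-Real.exp (V / C)) := Real.exp_pos _
      calc 21 * (q.totient * Real.exp (-n)) ≤
            21 * (q.totient * (2 * Real.exp (-Real.exp (V / C)))) := by gcongr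
        _ = 42 * (q.totient * Real.exp (-Real.exp (V / C))) := by ring
        _ ≤ C * (q.totient * Real.exp (-Real.exp (V / C))) :=
            mul_le_mul_of_nonneg_right (by linarith) (by positivity)
        _ = _ := by ring
    have hfin : ((Finset.univ.filter (fun ψ : DirichletCharacter ℂ q =>
          ¬ ((V ^ b)⁻¹ ≤ ‖LP N P s ψ‖ ∧ ‖LP N P s ψ‖ ≤ V ^ b))).card : ℝ) ≤
          C * q.totient * Real.exp (-Real.exp (V / C)) + C * Real.log (2 + 1 / h) ^ 2 := by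
      linarith
    exact_mod_cast hfin

end Pool.Agent.H86.EDGE
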